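import Pool.Agent.Lib_MP_f5471b_nt.Defs

/-!
# MP_f5471b_nt: the addition-and-subtraction map on `x`-coordinates
-/

namespace LangForms

open Height NumberField WeierstrassCurve Topology Filter IsDedekindDomain

namespace AddSub

variable {F : Type} [Field F] (W : WeierstrassCurve F)

/-- The values of `addSubMap`. -/
theorem eval_addSubMap (s t u : F) :
    (fun i => (addSubMap W i).eval ![s, t, u]) =
      ![s ^ 2 - W.b₄ * s * u - W.b₆ * t * u - W.b₈ * u ^ 2,
        2 * t * s + W.b₂ * s * u + W.b₄ * t * u + W.b₆ * u ^ 2, t ^ 2 - 4 * s * u] := by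
  ext i
  fin_cases i <;> simp [addSubMap]

variable [DecidableEq F]

theorem generic {x₁ y₁ x₂ y₂ : F} (h₁ : W.toAffine.Nonsingular x₁ y₁)
    (h₂ : W.toAffine.Nonsingular x₂ y₂) (hx : x₁ ≠ x₂) :
    (fun i => (addSubMap W i).eval
      ((Affine.Point.some x₁ y₁ h₁).sym2x (Affine.Point.some x₂ y₂ h₂))) =
      (x₁ - x₂) ^ 2 • (Affine.Point.some x₁ y₁ h₁ + Affine.Point.some x₂ y₂ h₂).sym2x
        (Affine.Point.some x₁ y₁ h₁ - Affine.Point.some x₂ y₂ h₂) := by
  rw [sub_eq_add_neg (Affine.Point.some x₁ y₁ h₁), Affine.Point.neg_some,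
    Affine.Point.add_of_X_ne hx, Affine.Point.add_of_X_ne hx, Affine.Point.sym2x_some_some,
    Affine.Point.sym2x_some_some, eval_addSubMap]
  have e₁ := (Affine.equation_iff _ _).mp h₁.1
  have e₂ := (Affine.equation_iff _ _).mp h₂.1
  have hd : x₁ - x₂ ≠ 0 := sub_ne_zero.mpr hx
  rw [Affine.slope_of_X_ne hx, Affine.slope_of_X_ne hx]
  ext i
  fin_cases i
  · simp only [Affine.addX, Affine.negY, b₂, b₄, b₆, b₈, Fin.zero_eta, Pi.smul_apply,
      smul_eq_mul, Matrix.cons_val_zero]
    field_simp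
    grind
  · simp only [Affine.addX, Affine.negY, b₂, b₄, b₆, b₈, Fin.mk_one, Pi.smul_apply,
      smul_eq_mul, Matrix.cons_val_one, Matrix.cons_val_zero]
    field_simp
    linear_combination -2 * e₁ - 2 * e₂
  · simp
    ring

theorem double {x y : F} (h : W.toAffine.Nonsingular x y) [W.IsElliptic] :
    ∃ c : F, c ≠ 0 ∧ (fun i => (addSubMap W i).eval
      ((Affine.Point.some x y h).sym2x (Affine.Point.some x y h))) =
      c • (Affine.Point.some x y h + Affine.Point.some x y h).sym2x 0 := by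
  have e := (Affine.equation_iff _ _).mp h.1
  by_cases hy : y = W.toAffine.negY x y
  · have h0 := addSubMap_ne_zero W (Affine.Point.sym2x_ne_zero
      (Affine.Point.some x y h) (Affine.Point.some x y h))
    rw [Affine.Point.add_self_of_Y_eq hy, Affine.Point.sym2x_zero_zero]
    rw [Affine.Point.sym2x_some_some, eval_addSubMap] at h0 ⊢
    have h1 : 2 * (x + x) * (x * x) + W.b₂ * (x * x) * 1 + W.b₄ * (x + x) * 1 + W.b₆ * 1 ^ 2
        = 0 := by
      have hy' : 2 * y + W.a₁ * x + W.a₃ = 0 := by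
        simp only [Affine.negY] at hy
        linear_combination hy
      simp only [b₂, b₄, b₆]
      linear_combination (2 * y + W.a₁ * x + W.a₃) * hy' - 4 * e
    have h2 : (x + x) ^ 2 - 4 * (x * x) * 1 = 0 := by ring
    rw [h1, h2] at h0 ⊢
    generalize (x * x) ^ 2 - W.b₄ * (x * x) * 1 - W.b₆ * (x + x) * 1 - W.b₈ * 1 ^ 2 = c
      at h0 ⊢
    refine ⟨c, ?_, ?_⟩
    · rintro rfl
      apply h0
      ext i
      fin_cases i <;> simp
    · ext i
      fin_cases i <;> simp
  · have hd : 2 * y + W.a₁ * x + W.a₃ ≠ 0 := by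
      intro h3
      apply hy
      simp only [Affine.negY]
      linear_combination h3
    have hd' : y - W.toAffine.negY x y ≠ 0 := sub_ne_zero.mpr hy
    refine ⟨(2 * y + W.a₁ * x + W.a₃) ^ 2, pow_ne_zero 2 hd, ?_⟩
    rw [Affine.Point.add_self_of_Y_ne hy, Affine.Point.sym2x_some_zero,
      Affine.Point.sym2x_some_some, eval_addSubMap, Affine.slope_of_Y_ne rfl hy]
    ext i
    fin_cases i
    · simp only [Affine.addX, Affine.negY, b₂, b₄, b₆, b₈, Fin.zero_eta, Pi.smul_apply,
        smul_eq_mul, Matrix.cons_val_zero] at hd' ⊢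
      rw [show y - (-y - W.a₁ * x - W.a₃) = 2 * y + W.a₁ * x + W.a₃ by ring]
      generalize hD : 2 * y + W.a₁ * x + W.a₃ = D at hd ⊢
      field_simp
      subst hD
      linear_combination (W.a₁ ^ 2 + 4 * W.a₂ + 8 * x) * e
    · simp only [b₂, b₄, b₆, b₈, Fin.mk_one, Pi.smul_apply,
        smul_eq_mul, Matrix.cons_val_one, Matrix.cons_val_zero]
      linear_combination -4 * e
    · simp
      ring

end AddSub

theorem addSub_rel {F : Type} [Field F] [DecidableEq F] (W : WeierstrassCurve F) [W.IsElliptic]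
    (P Q : W.toAffine.Point) :
    ∃ c : F, c ≠ 0 ∧
      (fun i => (addSubMap W i).eval (P.sym2x Q)) = c • (P + Q).sym2x (P - Q) := by
  rcases P with _ | ⟨x₁, y₁, h₁⟩
  · rw [← Affine.Point.zero_def, zero_add, zero_sub, Affine.Point.sym2x_neg_right]
    refine ⟨1, one_ne_zero, ?_⟩
    rcases Q with _ | ⟨x₂, y₂, h₂⟩
    · rw [← Affine.Point.zero_def, Affine.Point.sym2x_zero_zero, AddSub.eval_addSubMap]
      ext i
      fin_cases i <;> simp
    · rw [Affine.Point.sym2x_zero_some, AddSub.eval_addSubMap, Affine.Point.sym2x_some_some]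
      ext i
      fin_cases i <;> simp <;> ring
  rcases Q with _ | ⟨x₂, y₂, h₂⟩
  · rw [← Affine.Point.zero_def, add_zero, sub_zero]
    refine ⟨1, one_ne_zero, ?_⟩
    rw [Affine.Point.sym2x_some_zero, AddSub.eval_addSubMap, Affine.Point.sym2x_some_some]
    ext i
    fin_cases i <;> simp <;> ring
  by_cases hx : x₁ = x₂
  · subst hx
    rcases Affine.Y_eq_of_X_eq h₁.1 h₂.1 rfl with hy | hy
    · subst hy
      rw [sub_self]
      exact AddSub.double W h₁
    · have hPQ : Affine.Point.some x₁ y₂ h₂ = - Affine.Point.some x₁ y₁ h₁ := by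
        rw [Affine.Point.neg_some]
        congr 1
        rw [hy, Affine.negY_negY]
      rw [hPQ, Affine.Point.sym2x_neg_right, add_neg_cancel, sub_neg_eq_add,
        Affine.Point.sym2x_comm 0]
      exact AddSub.double W h₁
  · exact ⟨(x₁ - x₂) ^ 2, pow_ne_zero 2 (sub_ne_zero.mpr hx), AddSub.generic W h₁ h₂ hx⟩

end LangForms
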