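import Pool.Agent.Lib_MP_f5471b_nt.Defs

/-!
# MP_f5471b_nt: the reduction lemma (piece RED)

Two distinct points which are congruent at a place of good reduction differ by a point whose
`x`-coordinate has a pole at this place.
-/

namespace LangForms

open Height NumberField WeierstrassCurve Topology Filter

namespace Red

variable {F : Type} [Field F] {Γ : Type} [LinearOrderedCommGroupWithZero Γ] (v : Valuation F Γ)

theorem mul_le {a b : F} (ha : v a ≤ 1) (hb : v b ≤ 1) : v (a * b) ≤ 1 := by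
  rw [v.map_mul]; exact mul_le_one' ha hb

theorem add_le {a b : F} (ha : v a ≤ 1) (hb : v b ≤ 1) : v (a + b) ≤ 1 := v.map_add_le ha hb

theorem sub_le {a b : F} (ha : v a ≤ 1) (hb : v b ≤ 1) : v (a - b) ≤ 1 := v.map_sub_le ha hb

theorem add_lt {a b : F} (ha : v a < 1) (hb : v b < 1) : v (a + b) < 1 := v.map_add_lt ha hb

theorem sub_lt {a b : F} (ha : v a < 1) (hb : v b < 1) : v (a - b) < 1 :=
  lt_of_le_of_lt (v.map_sub a b) (max_lt ha hb)

theorem neg_lt {a : F} (ha : v a < 1) : v (-a) < 1 := by rwa [v.map_neg]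

theorem mul_lt {a b : F} (ha : v a < 1) (hb : v b ≤ 1) : v (a * b) < 1 := by
  rw [v.map_mul]
  exact lt_of_le_of_lt (mul_le_of_le_one_right' hb) ha

theorem mul_lt' {a b : F} (ha : v a ≤ 1) (hb : v b < 1) : v (a * b) < 1 := by
  rw [mul_comm]; exact mul_lt v hb ha

theorem nat_le (n : ℕ) : v (n : F) ≤ 1 := by
  induction n with
  | zero => simp
  | succ n ih => push_cast; exact add_le v ih (by simp)

theorem pow_le {a : F} (ha : v a ≤ 1) (n : ℕ) : v (a ^ n) ≤ 1 := by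
  rw [v.map_pow]; exact pow_le_one' ha n

theorem pow_lt {a : F} (ha : v a < 1) {n : ℕ} (hn : n ≠ 0) : v (a ^ n) < 1 := by
  rw [v.map_pow]; exact pow_lt_one' ha hn

end Red

theorem val_y_le_one {F : Type} [Field F] {Γ : Type} [LinearOrderedCommGroupWithZero Γ]
    (v : Valuation F Γ) (W : WeierstrassCurve F) (h1 : v W.a₁ ≤ 1) (h2 : v W.a₂ ≤ 1)
    (h3 : v W.a₃ ≤ 1) (h4 : v W.a₄ ≤ 1) (h6 : v W.a₆ ≤ 1) {x y : F}
    (h : W.toAffine.Equation x y) (hx : v x ≤ 1) : v y ≤ 1 := by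
  by_contra hy
  rw [not_le] at hy
  rw [Affine.equation_iff] at h
  have e : y ^ 2 = (x ^ 3 + W.a₂ * x ^ 2 + W.a₄ * x + W.a₆) - (W.a₁ * x + W.a₃) * y := by
    linear_combination h
  have hR : v (x ^ 3 + W.a₂ * x ^ 2 + W.a₄ * x + W.a₆) ≤ 1 :=
    Red.add_le v (Red.add_le v (Red.add_le v (Red.pow_le v hx 3)
      (Red.mul_le v h2 (Red.pow_le v hx 2))) (Red.mul_le v h4 hx)) h6
  have hL : v ((W.a₁ * x + W.a₃) * y) ≤ v y := by
    rw [v.map_mul]
    exact mul_le_of_le_one_left' (Red.add_le v (Red.mul_le v h1 hx) h3)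
  have h5 : v (y ^ 2) ≤ v y := by
    rw [e]
    exact le_trans (v.map_sub _ _) (max_le (le_trans hR hy.le) hL)
  rw [v.map_pow, pow_two] at h5
  have h6' : v y < v y * v y := by
    have h0 : 0 < v y := lt_trans zero_lt_one hy
    calc v y = 1 * v y := (one_mul _).symm
      _ < v y * v y := by
        exact mul_lt_mul_of_pos_right hy h0
  exact absurd h5 (not_le.mpr h6')

namespace Red

variable {F : Type} [Field F] {Γ : Type} [LinearOrderedCommGroupWithZero Γ] (v : Valuation F Γ)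

/-- At a place of good reduction the reduced point is nonsingular. -/
theorem nonsing (W : WeierstrassCurve F) (h1 : v W.a₁ ≤ 1) (h2 : v W.a₂ ≤ 1)
    (hΔ : v W.Δ = 1) {x y : F} (h : W.toAffine.Equation x y) (hx : v x ≤ 1)
    (hA : v (3 * x ^ 2 + 2 * W.a₂ * x + W.a₄ - W.a₁ * y) < 1)
    (hB : v (2 * y + W.a₁ * x + W.a₃) < 1) : False := by
  rw [Affine.equation_iff] at h
  have e6 : W.a₆ = y ^ 2 + W.a₁ * x * y + W.a₃ * y - x ^ 3 - W.a₂ * x ^ 2 - W.a₄ * x := by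
    linear_combination -h
  set A := 3 * x ^ 2 + 2 * W.a₂ * x + W.a₄ - W.a₁ * y with hAdef
  set B := 2 * y + W.a₁ * x + W.a₃ with hBdef
  set a2 := W.a₂ + 3 * x with ha2
  have hn : ∀ n : ℕ, v (n : F) ≤ 1 := nat_le v
  have h3' : v (3 : F) ≤ 1 := by simpa using hn 3
  have h2' : v (2 : F) ≤ 1 := by simpa using hn 2
  have h4' : v (4 : F) ≤ 1 := by simpa using hn 4
  have h8' : v (8 : F) ≤ 1 := by simpa using hn 8
  have h9' : v (9 : F) ≤ 1 := by simpa using hn 9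
  have h27' : v (27 : F) ≤ 1 := by simpa using hn 27
  have ha2v : v a2 ≤ 1 := add_le v h2 (mul_le v h3' hx)
  have hΔe : W.Δ = -(W.a₁ ^ 2 + 4 * a2) ^ 2 * (-W.a₁ * B * A + a2 * B ^ 2 - A ^ 2)
      - 8 * (2 * A + W.a₁ * B) ^ 3 - 27 * (B ^ 2) ^ 2
      + 9 * (W.a₁ ^ 2 + 4 * a2) * (2 * A + W.a₁ * B) * B ^ 2 := by
    rw [WeierstrassCurve.Δ, WeierstrassCurve.b₂, WeierstrassCurve.b₄, WeierstrassCurve.b₆,
      WeierstrassCurve.b₈, e6, ha2, hAdef, hBdef]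
    ring
  have hb2 : v (W.a₁ ^ 2 + 4 * a2) ≤ 1 := add_le v (pow_le v h1 2) (mul_le v h4' ha2v)
  have hB2 : v (B ^ 2) < 1 := pow_lt v hB two_ne_zero
  have hb8 : v (-W.a₁ * B * A + a2 * B ^ 2 - A ^ 2) < 1 :=
    sub_lt v (add_lt v (mul_lt v (mul_lt' v (by rwa [v.map_neg]) hB) hA.le)
      (mul_lt' v ha2v hB2)) (pow_lt v hA two_ne_zero)
  have hb4 : v (2 * A + W.a₁ * B) < 1 := add_lt v (mul_lt' v h2' hA) (mul_lt' v h1 hB)
  have : v W.Δ < 1 := by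
    rw [hΔe]
    refine add_lt v (sub_lt v (sub_lt v ?_ ?_) ?_) ?_
    · exact mul_lt' v (by rw [v.map_neg]; exact pow_le v hb2 2) hb8
    · exact mul_lt' v h8' (pow_lt v hb4 three_ne_zero)
    · exact mul_lt' v h27' (pow_lt v hB2 two_ne_zero)
    · exact mul_lt' v (mul_le v (mul_le v h9' hb2) hb4.le) hB2
  rw [hΔ] at this
  exact lt_irrefl _ this

/-- The valuation of the new `x`-coordinate when the slope has a pole. -/
theorem slope_pole (W : WeierstrassCurve F) (h1 : v W.a₁ ≤ 1) (h2 : v W.a₂ ≤ 1)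
    {x₁ x₂ ℓ : F} (hx₁ : v x₁ ≤ 1) (hx₂ : v x₂ ≤ 1) (hℓ : 1 < v ℓ) :
    1 < v (W.toAffine.addX x₁ x₂ ℓ) := by
  have e : W.toAffine.addX x₁ x₂ ℓ = ℓ ^ 2 + (W.a₁ * ℓ + (-W.a₂ - x₁ - x₂)) := by
    rw [Affine.addX]
    ring
  have h0 : 0 < v ℓ := lt_trans zero_lt_one hℓ
  have hsq : v ℓ < v (ℓ ^ 2) := by
    rw [v.map_pow, pow_two]
    calc v ℓ = 1 * v ℓ := (one_mul _).symm
      _ < v ℓ * v ℓ := mul_lt_mul_of_pos_right hℓ h0
  have hr : v (W.a₁ * ℓ + (-W.a₂ - x₁ - x₂)) ≤ v ℓ := by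
    refine le_trans (v.map_add _ _) (max_le ?_ ?_)
    · rw [v.map_mul]; exact mul_le_of_le_one_left' h1
    · exact le_trans (sub_le v (sub_le v (by rwa [v.map_neg]) hx₁) hx₂) hℓ.le
  rw [e, v.map_add_eq_of_lt_left (lt_of_le_of_lt hr hsq)]
  exact lt_trans hℓ hsq

theorem div_pole {a b : F} (ha : v a = 1) (hb : v b < 1) (hb0 : b ≠ 0) : 1 < v (a / b) := by
  rw [map_div₀, ha, one_div]
  exact (one_lt_inv₀ ((v.pos_iff).mpr hb0)).mpr hb

end Red

theorem reduction {F : Type} [Field F] [DecidableEq F] {Γ : Type}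
    [LinearOrderedCommGroupWithZero Γ]
    (v : Valuation F Γ) (W : WeierstrassCurve F) (h1 : v W.a₁ ≤ 1) (h2 : v W.a₂ ≤ 1)
    (h3 : v W.a₃ ≤ 1) (h4 : v W.a₄ ≤ 1) (h6 : v W.a₆ ≤ 1) (hΔ : v W.Δ = 1)
    {x₁ y₁ x₂ y₂ : F} (p₁ : W.toAffine.Nonsingular x₁ y₁) (p₂ : W.toAffine.Nonsingular x₂ y₂)
    (hx₁ : v x₁ ≤ 1) (hx : v (x₂ - x₁) < 1) (hy : v (y₂ - y₁) < 1)
    (hne : Affine.Point.some x₂ y₂ p₂ ≠ Affine.Point.some x₁ y₁ p₁) :
    ∃ x y p, Affine.Point.some x₂ y₂ p₂ - Affine.Point.some x₁ y₁ p₁ =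
      Affine.Point.some x y p ∧ 1 < v x := by
  have hx₂ : v x₂ ≤ 1 := by
    have : x₂ = (x₂ - x₁) + x₁ := by ring
    rw [this]; exact Red.add_le v hx.le hx₁
  have hy₁ : v y₁ ≤ 1 := val_y_le_one v W h1 h2 h3 h4 h6 p₁.1 hx₁
  have hy₂ : v y₂ ≤ 1 := val_y_le_one v W h1 h2 h3 h4 h6 p₂.1 hx₂
  have hxy : ¬(x₂ = x₁ ∧ y₂ = W.toAffine.negY x₁ (W.toAffine.negY x₁ y₁)) := by
    rintro ⟨ha, hb⟩
    rw [Affine.negY_negY] at hb
    apply hne
    subst ha; subst hb; rfl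
  have hsum := Affine.Point.add_some (W := W.toAffine) hxy (h₁ := p₂)
    (h₂ := (Affine.nonsingular_neg x₁ y₁).mpr p₁)
  rw [sub_eq_add_neg, Affine.Point.neg_some, hsum]
  refine ⟨_, _, _, rfl, ?_⟩
  apply Red.slope_pole v W h1 h2 hx₂ hx₁
  have e1 := p₁.1
  have e2 := p₂.1
  rw [Affine.equation_iff] at e1 e2
  have h3' : v (3 : F) ≤ 1 := by simpa using Red.nat_le v 3
  have h2' : v (2 : F) ≤ 1 := by simpa using Red.nat_le v 2
  by_cases hxe : x₂ = x₁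
  · have hyne : y₂ ≠ W.toAffine.negY x₁ (W.toAffine.negY x₁ y₁) := fun h => hxy ⟨hxe, h⟩
    rw [Affine.slope_of_Y_ne hxe hyne]
    rw [Affine.negY_negY] at hyne
    have hN : y₂ + y₁ + W.a₁ * x₁ + W.a₃ = 0 := by
      have : (y₂ - y₁) * (y₂ + y₁ + W.a₁ * x₁ + W.a₃) = 0 := by
        subst hxe
        linear_combination e2 - e1
      rcases mul_eq_zero.mp this with h | h
      · exact absurd (sub_eq_zero.mp h) hyne
      · exact h
    have hden : y₂ - W.toAffine.negY x₂ y₂ = y₂ - y₁ := by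
      rw [Affine.negY]
      subst hxe
      linear_combination hN
    rw [hden]
    refine Red.div_pole v ?_ hy (sub_ne_zero.mpr hyne)
    apply le_antisymm
    · exact Red.sub_le v (Red.add_le v (Red.add_le v (Red.mul_le v h3' (Red.pow_le v hx₂ 2))
        (Red.mul_le v (Red.mul_le v h2' h2) hx₂)) h4) (Red.mul_le v h1 hy₂)
    · by_contra hlt
      rw [not_le] at hlt
      refine Red.nonsing v W h1 h2 hΔ p₂.1 hx₂ hlt ?_
      have : 2 * y₂ + W.a₁ * x₂ + W.a₃ = y₂ - y₁ := by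
        subst hxe
        linear_combination hN
      rw [this]; exact hy
  · rw [Affine.slope_of_X_ne hxe]
    have hN1 : y₂ - W.toAffine.negY x₁ y₁ = y₂ + y₁ + W.a₁ * x₁ + W.a₃ := by
      rw [Affine.negY]; ring
    rw [hN1]
    have hx0 : x₂ - x₁ ≠ 0 := sub_ne_zero.mpr hxe
    have key : (y₂ - y₁) * (y₂ + y₁ + W.a₁ * x₁ + W.a₃) =
        (x₂ - x₁) * (x₁ ^ 2 + x₁ * x₂ + x₂ ^ 2 + W.a₂ * (x₁ + x₂) + W.a₄ - W.a₁ * y₂) := by
      linear_combination e2 - e1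
    by_cases hB : v (2 * y₁ + W.a₁ * x₁ + W.a₃) < 1
    · have hA : v (3 * x₁ ^ 2 + 2 * W.a₂ * x₁ + W.a₄ - W.a₁ * y₁) = 1 := by
        apply le_antisymm
        · exact Red.sub_le v (Red.add_le v (Red.add_le v (Red.mul_le v h3' (Red.pow_le v hx₁ 2))
            (Red.mul_le v (Red.mul_le v h2' h2) hx₁)) h4) (Red.mul_le v h1 hy₁)
        · by_contra hlt
          rw [not_le] at hlt
          exact Red.nonsing v W h1 h2 hΔ p₁.1 hx₁ hlt hB
      have hN2 : v (x₁ ^ 2 + x₁ * x₂ + x₂ ^ 2 + W.a₂ * (x₁ + x₂) + W.a₄ - W.a₁ * y₂) = 1 := by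
        have e : x₁ ^ 2 + x₁ * x₂ + x₂ ^ 2 + W.a₂ * (x₁ + x₂) + W.a₄ - W.a₁ * y₂ =
            (3 * x₁ ^ 2 + 2 * W.a₂ * x₁ + W.a₄ - W.a₁ * y₁) +
              ((x₂ - x₁) * (x₂ + 2 * x₁ + W.a₂) - W.a₁ * (y₂ - y₁)) := by ring
        have hs : v ((x₂ - x₁) * (x₂ + 2 * x₁ + W.a₂) - W.a₁ * (y₂ - y₁)) < 1 :=
          Red.sub_lt v (Red.mul_lt v hx (Red.add_le v (Red.add_le v hx₂ (Red.mul_le v h2' hx₁)) h2))
            (Red.mul_lt' v h1 hy)
        rw [e, v.map_add_eq_of_lt_left (by rw [hA]; exact hs), hA]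
      have hy0 : y₂ - y₁ ≠ 0 := by
        intro h0
        rw [h0, zero_mul] at key
        have := (mul_eq_zero.mp key.symm).resolve_left hx0
        rw [this, v.map_zero] at hN2
        exact zero_ne_one hN2
      have : (y₂ + y₁ + W.a₁ * x₁ + W.a₃) / (x₂ - x₁) =
          (x₁ ^ 2 + x₁ * x₂ + x₂ ^ 2 + W.a₂ * (x₁ + x₂) + W.a₄ - W.a₁ * y₂) / (y₂ - y₁) := by
        rw [div_eq_div_iff hx0 hy0]
        linear_combination key
      rw [this]
      exact Red.div_pole v hN2 hy hy0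
    · have hB1 : v (2 * y₁ + W.a₁ * x₁ + W.a₃) = 1 := by
        apply le_antisymm
        · exact Red.add_le v (Red.add_le v (Red.mul_le v h2' hy₁) (Red.mul_le v h1 hx₁)) h3
        · exact not_lt.mp hB
      have hN1' : v (y₂ + y₁ + W.a₁ * x₁ + W.a₃) = 1 := by
        have e : y₂ + y₁ + W.a₁ * x₁ + W.a₃ = (2 * y₁ + W.a₁ * x₁ + W.a₃) + (y₂ - y₁) := by ring
        rw [e, v.map_add_eq_of_lt_left (by rw [hB1]; exact hy), hB1]
      exact Red.div_pole v hN1' hx hx0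

end LangForms
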