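import Pool.Agent.Lib_MP_f5471b_nt.Defs

namespace LangForms

open Height NumberField WeierstrassCurve Topology Filter

namespace RPDaux

lemma floor_tendsto (v : ℝ) :
    Tendsto (fun n : ℕ => (⌊((n : ℝ) + 1) * v⌋ : ℝ) / ((n : ℝ) + 1)) atTop (𝓝 v) := by
  have h1 : Tendsto (fun n : ℕ => v - 1 / ((n : ℝ) + 1)) atTop (𝓝 v) := by
    simpa using (tendsto_const_nhds (x := v)).sub (tendsto_one_div_add_atTop_nhds_zero_nat (𝕜 := ℝ))
  refine tendsto_of_tendsto_of_tendsto_of_le_of_le h1 tendsto_const_nhds ?_ ?_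
  · intro n
    have hn : (0 : ℝ) < (n : ℝ) + 1 := by positivity
    have h2 := Int.sub_one_lt_floor (((n : ℝ) + 1) * v)
    simp only
    rw [le_div_iff₀ hn]
    have h3 : (v - 1 / ((n : ℝ) + 1)) * ((n : ℝ) + 1) = ((n : ℝ) + 1) * v - 1 := by
      field_simp
    rw [h3]
    exact h2.le
  · intro n
    have hn : (0 : ℝ) < (n : ℝ) + 1 := by positivity
    have h2 := Int.floor_le (((n : ℝ) + 1) * v)
    simp only
    rw [div_le_iff₀ hn]
    linarith

lemma cast_form {g : ℕ} (M : Matrix (Fin g) (Fin g) ℤ) (v : Fin g → ℤ) :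
    ((v ⬝ᵥ M.mulVec v : ℤ) : ℝ) =
      (fun i => (v i : ℝ)) ⬝ᵥ (M.map (Int.cast : ℤ → ℝ)).mulVec (fun i => (v i : ℝ)) := by
  simp only [dotProduct, Matrix.mulVec, Matrix.map_apply]
  push_cast
  rfl

lemma form_nonneg {g : ℕ} (M : Matrix (Fin g) (Fin g) ℤ) (hM : IsPol M) (v : Fin g → ℝ) :
    0 ≤ v ⬝ᵥ (M.map (Int.cast : ℤ → ℝ)).mulVec v := by
  set A := M.map (Int.cast : ℤ → ℝ) with hA
  let w : ℕ → Fin g → ℝ := fun n i => (⌊((n : ℝ) + 1) * v i⌋ : ℝ) / ((n : ℝ) + 1)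
  have hw : Tendsto w atTop (𝓝 v) := tendsto_pi_nhds.2 fun i => floor_tendsto (v i)
  have hq : Continuous (fun u : Fin g → ℝ => u ⬝ᵥ A.mulVec u) := by
    simp only [dotProduct, Matrix.mulVec]
    fun_prop
  have hlim := (hq.tendsto v).comp hw
  refine ge_of_tendsto' hlim fun n => ?_
  have hn : (0 : ℝ) < (n : ℝ) + 1 := by positivity
  let z : Fin g → ℤ := fun i => ⌊((n : ℝ) + 1) * v i⌋
  have hz : w n = ((n : ℝ) + 1)⁻¹ • (fun i => (z i : ℝ)) := by
    ext i
    simp only [w, z, Pi.smul_apply, smul_eq_mul, div_eq_inv_mul]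
  have h0 : 0 ≤ z ⬝ᵥ M.mulVec z := by
    by_cases h : z = 0
    · rw [h]; simp
    · exact (hM.2 z h).le
  have h1 : (0 : ℝ) ≤ (fun i => (z i : ℝ)) ⬝ᵥ A.mulVec (fun i => (z i : ℝ)) := by
    rw [hA, ← cast_form]
    exact_mod_cast h0
  simp only [Function.comp]
  rw [hz, Matrix.mulVec_smul, dotProduct_smul, smul_dotProduct]
  simp only [smul_eq_mul]
  positivity

end RPDaux

theorem posDef_real {g : ℕ} (M : Matrix (Fin g) (Fin g) ℤ) (hM : IsPol M) :
    (M.map (Int.cast : ℤ → ℝ)).PosDef := by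
  have hherm : (M.map (Int.cast : ℤ → ℝ)).IsHermitian := by
    have h1 := hM.1
    ext i j
    simp only [Matrix.conjTranspose_apply, Matrix.map_apply, star_trivial]
    have : M j i = M i j := h1.apply i j
    rw [this]
  have hpsd : (M.map (Int.cast : ℤ → ℝ)).PosSemidef := by
    refine Matrix.PosSemidef.of_dotProduct_mulVec_nonneg hherm fun x => ?_
    simpa using RPDaux.form_nonneg M hM x
  rw [hpsd.posDef_iff_det_ne_zero]
  intro hdet
  have h1 : (M.map (Int.cast : ℤ → ℝ)).det = ((M.det : ℤ) : ℝ) := by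
    have := (Int.castRingHom ℝ).map_det M
    simpa using this.symm
  rw [h1] at hdet
  have h2 : M.det = 0 := by exact_mod_cast hdet
  obtain ⟨v, hv, hv0⟩ := Matrix.exists_mulVec_eq_zero_iff.2 h2
  have := hM.2 v hv
  rw [hv0] at this
  simp at this

end LangForms
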