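import Pool.Agent.Lib_MP_f5471b_nt.Defs
import Pool.Agent.Lib_MP_f5471b_nt.RPD

/-!
# Determinants of positive definite forms on kernels of short functionals
-/

namespace LangForms

namespace DegAux

open Matrix Module

variable {g : ℕ} (M : Matrix (Fin g) (Fin g) ℤ)

/-- the bilinear form of `M` on a sublattice -/
noncomputable def form (Λ : Submodule ℤ (Fin g → ℤ)) : LinearMap.BilinForm ℤ Λ :=
  LinearMap.BilinForm.comp (Matrix.toBilin' M) Λ.subtype Λ.subtype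

lemma form_apply (Λ : Submodule ℤ (Fin g → ℤ)) (v w : Λ) :
    form M Λ v w = (v : Fin g → ℤ) ⬝ᵥ M.mulVec (w : Fin g → ℤ) := by
  unfold form
  rw [LinearMap.BilinForm.comp_apply, Matrix.toBilin'_apply']
  rfl

variable {Λ : Submodule ℤ (Fin g → ℤ)}

/-- the Gram matrix of a basis of a sublattice -/
noncomputable def gr {ι : Type} [Fintype ι] [DecidableEq ι] (b : Basis ι ℤ Λ) : Matrix ι ι ℤ :=
  LinearMap.BilinForm.toMatrix b (form M Λ)

lemma gr_apply {ι : Type} [Fintype ι] [DecidableEq ι] (b : Basis ι ℤ Λ) (i j : ι) :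
    gr M b i j = (b i : Fin g → ℤ) ⬝ᵥ M.mulVec (b j : Fin g → ℤ) := by
  unfold gr
  rw [LinearMap.BilinForm.toMatrix_apply, form_apply]

lemma gr_det_eq {ι κ : Type} [Fintype ι] [DecidableEq ι] [Fintype κ] [DecidableEq κ]
    (b : Basis ι ℤ Λ) (c : Basis κ ℤ Λ) : (gr M b).det = (gr M c).det := by
  have e : κ ≃ ι := c.indexEquiv b
  set c' := c.reindex e with hc'
  have h1 : (gr M c').det = (gr M c).det := by
    have : gr M c' = (gr M c).submatrix e.symm e.symm := by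
      ext i j
      rw [Matrix.submatrix_apply, gr_apply, gr_apply, hc', Basis.reindex_apply,
        Basis.reindex_apply]
    rw [this, Matrix.det_submatrix_equiv_self]
  have h2 : (gr M c').det = (b.toMatrix c').det ^ 2 * (gr M b).det := by
    have h3 := LinearMap.BilinForm.toMatrix_mul_basis_toMatrix (b := b) c' (form M Λ)
    have h4 := congrArg Matrix.det h3
    rw [Matrix.det_mul, Matrix.det_mul, Matrix.det_transpose] at h4
    unfold gr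
    rw [← h4]
    ring
  have h5 : IsUnit (b.toMatrix c').det := by
    have h6 := congrArg Matrix.det (b.toMatrix_mul_toMatrix_flip c')
    rw [Matrix.det_mul, Matrix.det_one] at h6
    exact IsUnit.of_mul_eq_one _ h6
  rw [← h1, h2]
  rcases Int.isUnit_iff.1 h5 with h | h <;> rw [h] <;> ring

lemma det_of_isLatBasis {d : ℕ} (v : Fin d → Fin g → ℤ) (hv : IsLatBasis Λ v)
    {ι : Type} [Fintype ι] [DecidableEq ι] (b : Basis ι ℤ Λ) :
    (Matrix.of fun i j : Fin d => v i ⬝ᵥ M.mulVec (v j)).det = (gr M b).det := by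
  obtain ⟨h1, rfl⟩ := hv
  rw [gr_det_eq M b (Basis.span h1)]
  congr 1
  ext i j
  rw [gr_apply, Basis.span_apply, Basis.span_apply, Matrix.of_apply]

lemma gdet_eq {ι : Type} [Fintype ι] [DecidableEq ι] (b : Basis ι ℤ Λ) :
    gdet M Λ = (gr M b).det := by
  unfold gdet
  exact det_of_isLatBasis M (latVec Λ) (Classical.choose_spec (exists_latBasis Λ)) b

lemma gr_isPol (hM : IsPol M) {r : ℕ} (b : Basis (Fin r) ℤ Λ) : IsPol (gr M b) := by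
  constructor
  · ext i j
    rw [Matrix.transpose_apply, gr_apply, gr_apply, Matrix.dotProduct_mulVec, dotProduct_comm,
      ← Matrix.mulVec_transpose, hM.1]
  · intro v hv
    have h1 := LinearMap.BilinForm.apply_eq_dotProduct_toMatrix_mulVec (b := b) (form M Λ)
      (b.equivFun.symm v) (b.equivFun.symm v)
    have h2 : ⇑(b.repr (b.equivFun.symm v)) = v := by
      have := b.equivFun.apply_symm_apply v
      rwa [Basis.equivFun_apply] at this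
    rw [h2] at h1
    unfold gr
    rw [← h1, form_apply]
    refine hM.2 _ ?_
    intro h3
    refine hv ?_
    have h4 : b.equivFun.symm v = 0 := Subtype.ext h3
    exact (LinearEquiv.map_eq_zero_iff _).1 h4

lemma gr_det_pos (hM : IsPol M) {r : ℕ} (b : Basis (Fin r) ℤ Λ) : 0 < (gr M b).det := by
  have h1 := (posDef_real (gr M b) (gr_isPol M hM b)).det_pos
  have h2 : ((gr M b).map (Int.cast : ℤ → ℝ)).det = (((gr M b).det : ℤ) : ℝ) :=
    (RingHom.map_det (Int.castRingHom ℝ) (gr M b)).symm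
  rw [h2] at h1
  exact_mod_cast h1

lemma gdet_pos (hM : IsPol M) (Λ : Submodule ℤ (Fin g → ℤ)) : 0 < gdet M Λ := by
  rw [gdet_eq M (Module.finBasis ℤ Λ)]
  exact gr_det_pos M hM _

/-- the basis of `Λ₀` made of a basis of the kernel of a functional and one more vector -/
lemma exists_basis (f : Fin g → ℤ) (Λ₀ Λ₁ : Submodule ℤ (Fin g → ℤ))
    (h : ∀ v, v ∈ Λ₁ ↔ v ∈ Λ₀ ∧ f ⬝ᵥ v = 0) (hne : ∃ v ∈ Λ₀, f ⬝ᵥ v ≠ 0) {ι : Type}
    (b₁ : Basis ι ℤ Λ₁) :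
    ∃ (m : ℤ) (b : Basis (ι ⊕ Unit) ℤ Λ₀), m ≠ 0 ∧
      (∀ i, (b (Sum.inl i) : Fin g → ℤ) = (b₁ i : Fin g → ℤ)) ∧
      f ⬝ᵥ (b (Sum.inr ()) : Fin g → ℤ) = m := by
  classical
  let φ : (Fin g → ℤ) →ₗ[ℤ] ℤ :=
    { toFun := fun v => f ⬝ᵥ v
      map_add' := fun v w => dotProduct_add f v w
      map_smul' := fun c v => dotProduct_smul c f v }
  have hφ : ∀ v, φ v = f ⬝ᵥ v := fun _ => rfl
  obtain ⟨m, hm⟩ := (inferInstance : (Submodule.map φ Λ₀).IsPrincipal).principal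
  have hmem : m ∈ Submodule.map φ Λ₀ := by
    rw [hm]
    exact Submodule.mem_span_singleton_self m
  obtain ⟨b₀, hb₀, hfb₀⟩ := hmem
  have hdvd : ∀ v ∈ Λ₀, ∃ n : ℤ, φ v = n * m := by
    intro v hv
    have h1 : φ v ∈ Submodule.map φ Λ₀ := ⟨v, hv, rfl⟩
    rw [hm, Submodule.mem_span_singleton] at h1
    obtain ⟨n, hn⟩ := h1
    exact ⟨n, by rw [← hn, smul_eq_mul]⟩
  have hm0 : m ≠ 0 := by
    rintro rfl
    obtain ⟨v, hv, hv0⟩ := hne
    obtain ⟨n, hn⟩ := hdvd v hv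
    rw [mul_zero] at hn
    exact hv0 hn
  have hle : Λ₁ ≤ Λ₀ := fun v hv => ((h v).1 hv).1
  let E₀ : (Λ₁ × ℤ) →ₗ[ℤ] Λ₀ :=
    (Submodule.inclusion hle).coprod (LinearMap.toSpanSingleton ℤ Λ₀ ⟨b₀, hb₀⟩)
  have hE₀ : ∀ v n, (E₀ (v, n) : Fin g → ℤ) = (v : Fin g → ℤ) + n • b₀ := by
    intro v n
    simp [E₀, LinearMap.coprod_apply, LinearMap.toSpanSingleton_apply]
  have hinj : Function.Injective E₀ := by
    rw [injective_iff_map_eq_zero]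
    rintro ⟨v, n⟩ hvn
    have h1 : (v : Fin g → ℤ) + n • b₀ = 0 := by
      rw [← hE₀, hvn]
      rfl
    have h2 : φ ((v : Fin g → ℤ) + n • b₀) = 0 := by rw [h1, map_zero]
    have h3 : φ (v : Fin g → ℤ) = 0 := ((h _).1 v.2).2
    rw [map_add, h3, zero_add, map_smul, hfb₀, smul_eq_mul] at h2
    have h4 : n = 0 := (mul_eq_zero.1 h2).resolve_right hm0
    subst h4
    rw [zero_smul, add_zero] at h1
    exact Prod.ext (Subtype.ext h1) rfl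
  have hsurj : Function.Surjective E₀ := by
    rintro ⟨u, hu⟩
    obtain ⟨n, hn⟩ := hdvd u hu
    have h1 : u - n • b₀ ∈ Λ₁ := by
      rw [h]
      refine ⟨Λ₀.sub_mem hu (Λ₀.smul_mem n hb₀), ?_⟩
      have : φ (u - n • b₀) = 0 := by
        rw [map_sub, map_smul, hfb₀, hn, smul_eq_mul, sub_self]
      exact this
    refine ⟨(⟨u - n • b₀, h1⟩, n), Subtype.ext ?_⟩
    rw [hE₀]
    simp
  let E : (Λ₁ × ℤ) ≃ₗ[ℤ] Λ₀ := LinearEquiv.ofBijective E₀ ⟨hinj, hsurj⟩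
  refine ⟨m, (b₁.prod (Basis.singleton Unit ℤ)).map E, hm0, ?_, ?_⟩
  · intro i
    rw [Basis.map_apply]
    have h1 : (b₁.prod (Basis.singleton Unit ℤ)) (Sum.inl i) = (b₁ i, 0) :=
      Prod.ext (Basis.prod_apply_inl_fst _ _ _) (Basis.prod_apply_inl_snd _ _ _)
    rw [h1]
    have h2 : (E (b₁ i, 0) : Fin g → ℤ) = (b₁ i : Fin g → ℤ) + (0 : ℤ) • b₀ := hE₀ _ _
    rw [h2, zero_smul, add_zero]
  · rw [Basis.map_apply]
    have h1 : (b₁.prod (Basis.singleton Unit ℤ)) (Sum.inr ()) = (0, 1) :=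
      Prod.ext (Basis.prod_apply_inr_fst _ _ _)
        ((Basis.prod_apply_inr_snd _ _ _).trans (Basis.singleton_apply _ _ _))
    rw [h1]
    have h2 : (E (0, 1) : Fin g → ℤ) = ((0 : Λ₁) : Fin g → ℤ) + (1 : ℤ) • b₀ := hE₀ _ _
    rw [h2, one_smul, Submodule.coe_zero, zero_add]
    exact hfb₀

/-- the real form of `M` -/
lemma sum_form_eq (v : Fin g → ℝ) :
    ∑ a, ∑ b, v a * M a b * v b = v ⬝ᵥ (M.map (Int.cast : ℤ → ℝ)).mulVec v := by
  simp only [dotProduct, Matrix.mulVec, Matrix.map_apply, Finset.mul_sum]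
  refine Finset.sum_congr rfl fun a _ => Finset.sum_congr rfl fun b _ => ?_
  ring

lemma cast_dot (v w : Fin g → ℤ) :
    ((v ⬝ᵥ w : ℤ) : ℝ) = (fun a => (v a : ℝ)) ⬝ᵥ (fun a => (w a : ℝ)) := by
  simp [dotProduct]

lemma cast_mulVec (w : Fin g → ℤ) :
    (fun a => ((M.mulVec w a : ℤ) : ℝ)) =
      (M.map (Int.cast : ℤ → ℝ)).mulVec (fun a => (w a : ℝ)) := by
  funext a
  simp [Matrix.mulVec, dotProduct]

/-- the Schur complement is a value of the form -/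
lemma schur (hM : IsPol M) {Λ₀ Λ₁ : Submodule ℤ (Fin g → ℤ)} {r : ℕ} (b₁ : Basis (Fin r) ℤ Λ₁)
    (b : Basis (Fin r ⊕ Unit) ℤ Λ₀)
    (hb : ∀ i, (b (Sum.inl i) : Fin g → ℤ) = (b₁ i : Fin g → ℤ)) :
    ∃ c : Fin r → ℝ, ((gr M b).det : ℝ) = (gr M b₁).det *
      (∑ a, ∑ a', (((b (Sum.inr ()) : Fin g → ℤ) a : ℝ) - ∑ i, ((b₁ i : Fin g → ℤ) a : ℝ) * c i) *
        M a a' * (((b (Sum.inr ()) : Fin g → ℤ) a' : ℝ) -
          ∑ i, ((b₁ i : Fin g → ℤ) a' : ℝ) * c i)) := by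
  set Mr : Matrix (Fin g) (Fin g) ℝ := M.map (Int.cast : ℤ → ℝ) with hMr
  have hMsymm : Mrᵀ = Mr := by
    have h1 : Mᵀ = M := hM.1
    rw [hMr, ← Matrix.transpose_map, h1]
  set Bm : Matrix (Fin g) (Fin r) ℝ := Matrix.of fun a i => ((b₁ i : Fin g → ℤ) a : ℝ) with hBm
  set v₀ : Fin g → ℝ := fun a => ((b (Sum.inr ()) : Fin g → ℤ) a : ℝ) with hv₀
  set G : Matrix (Fin r) (Fin r) ℝ := (gr M b₁).map (Int.cast : ℤ → ℝ) with hG
  have hGpos : G.PosDef := posDef_real (gr M b₁) (gr_isPol M hM b₁)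
  have hGdet : IsUnit G.det := hGpos.det_pos.ne'.isUnit
  set β : Fin r → ℝ := Bmᵀ.mulVec (Mr.mulVec v₀) with hβ
  have hcol : ∀ i, (fun a => ((b₁ i : Fin g → ℤ) a : ℝ)) = fun a => Bm a i := fun i => rfl
  have hGB : G = Bmᵀ * (Mr * Bm) := by
    ext i j
    rw [hG, Matrix.map_apply, gr_apply, cast_dot, cast_mulVec]
    rfl
  have hβi : ∀ i, β i = (((b₁ i : Fin g → ℤ) ⬝ᵥ M.mulVec (b (Sum.inr ()) : Fin g → ℤ) : ℤ) : ℝ) := by
    intro i
    rw [cast_dot, cast_mulVec]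
    rfl
  set c : Fin r → ℝ := G⁻¹.mulVec β with hc
  have hGc : G.mulVec c = β := by
    rw [hc, Matrix.mulVec_mulVec, Matrix.mul_nonsing_inv _ hGdet, Matrix.one_mulVec]
  refine ⟨c, ?_⟩
  -- the quadratic form of `w`
  set w : Fin g → ℝ := v₀ - Bm.mulVec c with hw
  have hwa : ∀ a, w a = ((b (Sum.inr ()) : Fin g → ℤ) a : ℝ) -
      ∑ i, ((b₁ i : Fin g → ℤ) a : ℝ) * c i := fun a => rfl
  simp only [← hwa]
  rw [sum_form_eq, ← hMr]
  have hMw : w ⬝ᵥ Mr.mulVec w = v₀ ⬝ᵥ Mr.mulVec v₀ - β ⬝ᵥ c := by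
    have e0 : ∀ u : Fin g → ℝ, (Bm.mulVec c) ⬝ᵥ u = Bmᵀ.mulVec u ⬝ᵥ c := by
      intro u
      rw [Matrix.mulVec_transpose, ← Matrix.dotProduct_mulVec, dotProduct_comm]
    have e1 : (Bm.mulVec c) ⬝ᵥ Mr.mulVec v₀ = β ⬝ᵥ c := e0 _
    have e2 : v₀ ⬝ᵥ Mr.mulVec (Bm.mulVec c) = β ⬝ᵥ c := by
      rw [Matrix.dotProduct_mulVec, ← Matrix.mulVec_transpose, hMsymm, dotProduct_comm, e1]
    have e3 : (Bm.mulVec c) ⬝ᵥ Mr.mulVec (Bm.mulVec c) = β ⬝ᵥ c := by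
      rw [e0, Matrix.mulVec_mulVec, Matrix.mulVec_mulVec, Matrix.mul_assoc, ← hGB, hGc]
    rw [hw, Matrix.mulVec_sub, dotProduct_sub, sub_dotProduct, sub_dotProduct, e1, e2, e3]
    ring
  rw [hMw]
  -- the determinant
  have hdet : ((gr M b).det : ℝ) = ((gr M b).map (Int.cast : ℤ → ℝ)).det :=
    RingHom.map_det (Int.castRingHom ℝ) (gr M b)
  have hdet₁ : ((gr M b₁).det : ℝ) = G.det :=
    RingHom.map_det (Int.castRingHom ℝ) (gr M b₁)
  have hblock : (gr M b).map (Int.cast : ℤ → ℝ) = Matrix.fromBlocks G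
      (Matrix.of fun i (_ : Unit) => β i) (Matrix.of fun (_ : Unit) i => β i)
      (Matrix.of fun (_ _ : Unit) => v₀ ⬝ᵥ Mr.mulVec v₀) := by
    ext i j
    rcases i with i | i <;> rcases j with j | j
    · simp only [Matrix.fromBlocks_apply₁₁, hG, Matrix.map_apply, gr_apply, hb]
    · simp only [Matrix.fromBlocks_apply₁₂, Matrix.map_apply, gr_apply, hb, Matrix.of_apply, hβi]
    · simp only [Matrix.fromBlocks_apply₂₁, Matrix.map_apply, gr_apply, hb, Matrix.of_apply, hβi]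
      have h1 : Mᵀ = M := hM.1
      rw [Matrix.dotProduct_mulVec, ← Matrix.mulVec_transpose, h1, dotProduct_comm]
    · simp only [Matrix.fromBlocks_apply₂₂, Matrix.map_apply, gr_apply, Matrix.of_apply]
      rw [cast_dot, cast_mulVec]
  let _ : Invertible G := Matrix.invertibleOfIsUnitDet G hGdet
  rw [hdet, hblock, Matrix.det_fromBlocks₁₁, hdet₁]
  congr 1
  rw [Matrix.det_unique, Matrix.invOf_eq_nonsing_inv]
  simp only [Matrix.sub_apply, Matrix.of_apply, Matrix.mul_apply, hc, dotProduct, Matrix.mulVec,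
    Finset.sum_mul, Finset.mul_sum]
  congr 1
  rw [Finset.sum_comm]
  refine Finset.sum_congr rfl fun i _ => Finset.sum_congr rfl fun j _ => ?_
  ring

lemma step (hM : IsPol M) (C₀ : ℝ) (f : Fin g → ℤ) (hf : Sh M C₀ f)
    (Λ₀ Λ₁ : Submodule ℤ (Fin g → ℤ)) (h : ∀ v, v ∈ Λ₁ ↔ v ∈ Λ₀ ∧ f ⬝ᵥ v = 0) :
    (gdet M Λ₁ : ℝ) ≤ max 1 C₀ * gdet M Λ₀ := by
  classical
  have hpos₀ : (0 : ℝ) < gdet M Λ₀ := by exact_mod_cast gdet_pos M hM Λ₀
  have hpos₁ : (0 : ℝ) < gdet M Λ₁ := by exact_mod_cast gdet_pos M hM Λ₁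
  by_cases hne : ∃ v ∈ Λ₀, f ⬝ᵥ v ≠ 0
  swap
  · push Not at hne
    have h1 : Λ₁ = Λ₀ := by
      ext v
      rw [h]
      exact ⟨fun h => h.1, fun hv => ⟨hv, hne v hv⟩⟩
    rw [h1]
    have : (1 : ℝ) ≤ max 1 C₀ := le_max_left _ _
    nlinarith
  obtain ⟨m, b, hm, hb₁, hb₀⟩ := exists_basis f Λ₀ Λ₁ h hne (Module.finBasis ℤ Λ₁)
  obtain ⟨c, hc⟩ := schur M hM (Module.finBasis ℤ Λ₁) b hb₁
  rw [← gdet_eq M b, ← gdet_eq M (Module.finBasis ℤ Λ₁)] at hc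
  set w : Fin g → ℝ := fun a => ((b (Sum.inr ()) : Fin g → ℤ) a : ℝ) -
    ∑ i, ((Module.finBasis ℤ Λ₁ i : Fin g → ℤ) a : ℝ) * c i with hw
  have hfw : ∑ a, (f a : ℝ) * w a = m := by
    have h1 : ∀ i, ∑ a, (f a : ℝ) * ((Module.finBasis ℤ Λ₁ i : Fin g → ℤ) a : ℝ) = 0 := by
      intro i
      have h2 := ((h _).1 (Module.finBasis ℤ Λ₁ i).2).2
      have h3 : (((f ⬝ᵥ (Module.finBasis ℤ Λ₁ i : Fin g → ℤ) : ℤ)) : ℝ) = 0 := by
        rw [h2, Int.cast_zero]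
      rw [cast_dot] at h3
      exact h3
    have h4 : ∑ a, (f a : ℝ) * ((b (Sum.inr ()) : Fin g → ℤ) a : ℝ) = m := by
      rw [← hb₀, cast_dot]
      rfl
    simp only [hw, mul_sub, Finset.sum_sub_distrib, h4, Finset.mul_sum]
    rw [Finset.sum_comm]
    have h5 : ∀ i, ∑ a, (f a : ℝ) * (((Module.finBasis ℤ Λ₁ i : Fin g → ℤ) a : ℝ) * c i) = 0 := by
      intro i
      have : ∀ a, (f a : ℝ) * (((Module.finBasis ℤ Λ₁ i : Fin g → ℤ) a : ℝ) * c i) =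
          ((f a : ℝ) * ((Module.finBasis ℤ Λ₁ i : Fin g → ℤ) a : ℝ)) * c i := fun a => by ring
      rw [Finset.sum_congr rfl fun a _ => this a, ← Finset.sum_mul, h1, zero_mul]
    rw [Finset.sum_congr rfl fun i _ => h5 i]
    simp
  have hsh := hf w
  rw [hfw] at hsh
  have hm1 : (1 : ℝ) ≤ (m : ℝ) ^ 2 := by
    have : (1 : ℤ) ≤ m ^ 2 := by
      have := sq_pos_of_ne_zero hm
      omega
    exact_mod_cast this
  set s : ℝ := ∑ a, ∑ b, w a * M a b * w b with hs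
  have hc' : (gdet M Λ₀ : ℝ) = gdet M Λ₁ * s := hc
  rw [hc']
  have hspos : 0 < s := by
    rw [hc'] at hpos₀
    exact (mul_pos_iff_of_pos_left hpos₁).1 hpos₀
  have h1 : 1 ≤ max 1 C₀ * s := by
    have : C₀ * s ≤ max 1 C₀ * s := mul_le_mul_of_nonneg_right (le_max_right _ _) hspos.le
    linarith
  calc (gdet M Λ₁ : ℝ) = gdet M Λ₁ * 1 := (mul_one _).symm
    _ ≤ gdet M Λ₁ * (max 1 C₀ * s) := mul_le_mul_of_nonneg_left h1 hpos₁.le
    _ = max 1 C₀ * (gdet M Λ₁ * s) := by ring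

lemma iter (hM : IsPol M) (C₀ : ℝ) : ∀ (D : ℕ) (f : Fin D → Fin g → ℤ), (∀ i, Sh M C₀ (f i)) →
    ∀ Λ₀ Λ : Submodule ℤ (Fin g → ℤ), (∀ v, v ∈ Λ ↔ v ∈ Λ₀ ∧ ∀ i, f i ⬝ᵥ v = 0) →
      (gdet M Λ : ℝ) ≤ (max 1 C₀) ^ D * gdet M Λ₀ := by
  intro D
  induction D with
  | zero =>
    intro f _ Λ₀ Λ h
    have h1 : Λ = Λ₀ := by
      ext v
      rw [h]
      exact ⟨fun h => h.1, fun hv => ⟨hv, fun i => i.elim0⟩⟩
    rw [h1, pow_zero, one_mul]
  | succ D ih =>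
    intro f hf Λ₀ Λ h
    let Λ₁ : Submodule ℤ (Fin g → ℤ) :=
      { carrier := {v | v ∈ Λ₀ ∧ f 0 ⬝ᵥ v = 0}
        add_mem' := by
          rintro v w ⟨hv, hv'⟩ ⟨hw, hw'⟩
          exact ⟨Λ₀.add_mem hv hw, by rw [dotProduct_add, hv', hw', add_zero]⟩
        zero_mem' := ⟨Λ₀.zero_mem, dotProduct_zero _⟩
        smul_mem' := by
          rintro c v ⟨hv, hv'⟩
          exact ⟨Λ₀.smul_mem c hv, by rw [dotProduct_smul, hv', smul_zero]⟩ }
    have h1 := step M hM C₀ (f 0) (hf 0) Λ₀ Λ₁ (fun v => Iff.rfl)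
    have h2 := ih (fun i => f i.succ) (fun i => hf i.succ) Λ₁ Λ (fun v => by
      rw [h v, Fin.forall_fin_succ]
      exact ⟨fun hv => ⟨⟨hv.1, hv.2.1⟩, hv.2.2⟩, fun hv => ⟨hv.1.1, hv.1.2, hv.2⟩⟩)
    have h3 : (0 : ℝ) ≤ (max 1 C₀) ^ D := by positivity
    calc (gdet M Λ : ℝ) ≤ (max 1 C₀) ^ D * gdet M Λ₁ := h2
      _ ≤ (max 1 C₀) ^ D * (max 1 C₀ * gdet M Λ₀) := mul_le_mul_of_nonneg_left h1 h3
      _ = (max 1 C₀) ^ (D + 1) * gdet M Λ₀ := by rw [pow_succ]; ring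

end DegAux

open DegAux in
theorem deg_bound (g D : ℕ) (C₀ : ℝ) : ∃ C : ℝ, 0 < C ∧
    ∀ (M : Matrix (Fin g) (Fin g) ℤ), IsPol M → ∀ (f : Fin D → Fin g → ℤ),
      (∀ i, Sh M C₀ (f i)) → ∀ Λ : Submodule ℤ (Fin g → ℤ),
        (∀ v, v ∈ Λ ↔ ∀ i, f i ⬝ᵥ v = 0) → (degB M Λ : ℝ) ≤ C * degB M ⊤ := by
  refine ⟨(max 1 C₀) ^ D, by positivity, fun M hM f hf Λ hΛ => ?_⟩
  have h1 := iter M hM C₀ D f hf ⊤ Λ (fun v => by
    rw [hΛ v]
    exact ⟨fun h => ⟨Submodule.mem_top, h⟩, fun h => h.2⟩)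
  have hpos : (0 : ℝ) < gdet M Λ := by exact_mod_cast gdet_pos M hM Λ
  have h2 : Module.finrank ℤ Λ ≤ Module.finrank ℤ (⊤ : Submodule ℤ (Fin g → ℤ)) :=
    Submodule.finrank_mono le_top
  have h3 : ((Module.finrank ℤ Λ).factorial : ℝ) ≤
      ((Module.finrank ℤ (⊤ : Submodule ℤ (Fin g → ℤ))).factorial : ℝ) := by
    exact_mod_cast Nat.factorial_le h2
  unfold degB
  push_cast
  calc ((Module.finrank ℤ Λ).factorial : ℝ) * gdet M Λ
      ≤ ((Module.finrank ℤ (⊤ : Submodule ℤ (Fin g → ℤ))).factorial : ℝ) * gdet M Λ :=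
        mul_le_mul_of_nonneg_right h3 hpos.le
    _ ≤ ((Module.finrank ℤ (⊤ : Submodule ℤ (Fin g → ℤ))).factorial : ℝ) *
        ((max 1 C₀) ^ D * gdet M ⊤) := mul_le_mul_of_nonneg_left h1 (Nat.cast_nonneg _)
    _ = (max 1 C₀) ^ D *
        (((Module.finrank ℤ (⊤ : Submodule ℤ (Fin g → ℤ))).factorial : ℝ) * gdet M ⊤) := by ring

theorem degB_top_pos {g : ℕ} (M : Matrix (Fin g) (Fin g) ℤ) (hM : IsPol M) :
    0 < degB M ⊤ := by
  unfold degB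
  exact mul_pos (by exact_mod_cast Nat.factorial_pos _) (DegAux.gdet_pos M hM ⊤)

end LangForms
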