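import Pool.Agent.Lib_MP_f5471b_nt.Defs

namespace LangForms

theorem Phi_add {X : Type} [AddCommGroup X] {g : ℕ} (P : Fin g → X) (ℓ ℓ' : Fin g → ℤ) :
    Phi P (ℓ + ℓ') = Phi P ℓ + Phi P ℓ' := by
  simp [Phi, add_smul, Finset.sum_add_distrib]

theorem Phi_sub {X : Type} [AddCommGroup X] {g : ℕ} (P : Fin g → X) (ℓ ℓ' : Fin g → ℤ) :
    Phi P (ℓ - ℓ') = Phi P ℓ - Phi P ℓ' := by
  simp [Phi, sub_smul, Finset.sum_sub_distrib]

theorem Phi_smul {X : Type} [AddCommGroup X] {g : ℕ} (P : Fin g → X) (n : ℤ) (ℓ : Fin g → ℤ) :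
    Phi P (n • ℓ) = n • Phi P ℓ := by
  simp [Phi, Finset.smul_sum, mul_smul]

theorem Phi_nsmul {X : Type} [AddCommGroup X] {g : ℕ} (P : Fin g → X) (n : ℕ) (ℓ : Fin g → ℤ) :
    Phi (n • P) ℓ = n • Phi P ℓ := by
  simp only [Phi, Finset.smul_sum, Pi.smul_apply]
  exact Finset.sum_congr rfl fun a _ => smul_comm _ _ _

theorem actL_mul {G : Type} [Group G] {g : ℕ} (ρ : G →* Matrix.GeneralLinearGroup (Fin g) ℤ)
    (σ τ : G) (ℓ : Fin g → ℤ) : actL ρ (σ * τ) ℓ = actL ρ σ (actL ρ τ ℓ) := by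
  simp [actL, Matrix.vecMul_vecMul]

theorem actL_one {G : Type} [Group G] {g : ℕ} (ρ : G →* Matrix.GeneralLinearGroup (Fin g) ℤ)
    (ℓ : Fin g → ℤ) : actL ρ 1 ℓ = ℓ := by
  simp [actL]

theorem Phi_act {G : Type} [Group G] {X : Type} [AddCommGroup X] {g : ℕ} (act : G → X →+ X)
    (ρ : G →* Matrix.GeneralLinearGroup (Fin g) ℤ) (P : Fin g → X)
    (hP : ∀ σ a, ∑ b, (ρ σ).val a b • act σ (P b) = P a) (σ : G) (ℓ : Fin g → ℤ) :
    act σ (Phi P ℓ) = Phi P (actL ρ σ ℓ) := by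
  have hR : ∀ a, ∑ b, (ρ σ⁻¹).val a b • P b = act σ (P a) := by
    intro a
    have h1 : (ρ σ⁻¹).val * (ρ σ).val = 1 := by
      rw [← Units.val_mul, ← map_mul]; simp
    calc ∑ b, (ρ σ⁻¹).val a b • P b
        = ∑ b, (ρ σ⁻¹).val a b • ∑ c, (ρ σ).val b c • act σ (P c) := by
          refine Finset.sum_congr rfl fun b _ => ?_
          rw [hP]
      _ = ∑ c, (∑ b, (ρ σ⁻¹).val a b * (ρ σ).val b c) • act σ (P c) := by
          simp only [Finset.smul_sum, Finset.sum_smul, mul_smul]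
          exact Finset.sum_comm
      _ = ∑ c, ((1 : Matrix (Fin g) (Fin g) ℤ) a c) • act σ (P c) := by
          refine Finset.sum_congr rfl fun c _ => ?_
          rw [← h1, Matrix.mul_apply]
      _ = act σ (P a) := by
          simp [Matrix.one_apply]
  calc act σ (Phi P ℓ) = ∑ a, ℓ a • act σ (P a) := by simp [Phi, map_sum, map_zsmul]
    _ = ∑ a, ℓ a • ∑ b, (ρ σ⁻¹).val a b • P b := by
        refine Finset.sum_congr rfl fun a _ => ?_
        rw [hR]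
    _ = ∑ b, (∑ a, ℓ a * (ρ σ⁻¹).val a b) • P b := by
        simp only [Finset.smul_sum, Finset.sum_smul, mul_smul]
        exact Finset.sum_comm
    _ = Phi P (actL ρ σ ℓ) := by
        simp [Phi, actL, Matrix.vecMul, dotProduct]

end LangForms
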