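import Pool.Agent.Lib_MP_f5471b_nt.Defs

/-! # MP_f5471b_nt: a saturated sublattice has a complement -/

namespace LangForms

theorem mem_subPts {X : Type} [AddCommGroup X] {g : ℕ} (Λ : Submodule ℤ (Fin g → ℤ))
    (hΛ : Saturated Λ) (P : Fin g → X)
    (h : ∀ ψ : Fin g → ℤ, (∀ v ∈ Λ, ψ ⬝ᵥ v = 0) → Phi P ψ = 0) : P ∈ subPts Λ := by
  haveI : Module.IsTorsionFree ℤ ((Fin g → ℤ) ⧸ Λ) := by
    constructor
    intro r hr
    have hr0 : r ≠ 0 := hr.ne_zero
    intro x y hxy
    obtain ⟨a, rfl⟩ := Submodule.Quotient.mk_surjective Λ x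
    obtain ⟨b, rfl⟩ := Submodule.Quotient.mk_surjective Λ y
    have hxy' : r • (Submodule.Quotient.mk a : (Fin g → ℤ) ⧸ Λ) = r • Submodule.Quotient.mk b := hxy
    rw [← Submodule.Quotient.mk_smul, ← Submodule.Quotient.mk_smul, Submodule.Quotient.eq,
      ← smul_sub] at hxy'
    rw [Submodule.Quotient.eq]
    exact hΛ r _ hr0 hxy'
  haveI : Module.Free ℤ ((Fin g → ℤ) ⧸ Λ) := Module.free_of_finite_type_torsion_free'
  obtain ⟨s, hs⟩ := Module.projective_lifting_property Λ.mkQ LinearMap.id Λ.mkQ_surjective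
  let B : (Fin g → ℤ) →ₗ[ℤ] (Fin g → ℤ) := s ∘ₗ Λ.mkQ
  have hB : ∀ v, v - B v ∈ Λ := by
    intro v
    have h1 : Λ.mkQ (v - B v) = 0 := by
      rw [map_sub]
      have h2 := LinearMap.congr_fun hs (Λ.mkQ v)
      simp only [LinearMap.comp_apply, LinearMap.id_apply] at h2
      show Λ.mkQ v - Λ.mkQ (s (Λ.mkQ v)) = 0
      rw [h2, sub_self]
    rwa [Submodule.mkQ_apply, Submodule.Quotient.mk_eq_zero] at h1
  have hBΛ : ∀ v ∈ Λ, B v = 0 := by
    intro v hv
    show s (Λ.mkQ v) = 0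
    rw [Submodule.mkQ_apply, (Submodule.Quotient.mk_eq_zero Λ).2 hv, map_zero]
  -- the rows of `B` kill `Λ`
  have hrow : ∀ a : Fin g, ∑ b, (B (Pi.single b 1) a) • P b = 0 := by
    intro a
    apply h (fun b => B (Pi.single b 1) a)
    intro v hv
    have h3 : B v = ∑ b, v b • B (Pi.single b 1) := by
      conv_lhs => rw [show v = ∑ b, v b • (Pi.single b (1 : ℤ) : Fin g → ℤ) from by
        rw [← Finset.univ_sum_single v]
        refine Finset.sum_congr rfl fun b _ => ?_
        rw [Finset.univ_sum_single v, ← Pi.single_smul]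
        simp]
      rw [map_sum]
      simp only [map_smul]
    have h4 := congrFun (hBΛ v hv) a
    rw [h3, Finset.sum_apply] at h4
    simp only [Pi.smul_apply, smul_eq_mul, Pi.zero_apply] at h4
    unfold dotProduct
    rw [← h4]
    exact Finset.sum_congr rfl fun b _ => mul_comm _ _
  have hP : P = ∑ b, (fun a => ((Pi.single b (1 : ℤ) : Fin g → ℤ) - B (Pi.single b 1)) a • P b) := by
    funext a
    rw [Finset.sum_apply]
    simp only [Pi.sub_apply, sub_smul, Finset.sum_sub_distrib, hrow a, sub_zero]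
    rw [Finset.sum_eq_single a]
    · simp
    · intro b _ hb
      rw [Pi.single_eq_of_ne (Ne.symm hb), zero_smul]
    · intro ha
      exact absurd (Finset.mem_univ a) ha
  rw [hP]
  apply AddSubgroup.sum_mem
  intro b _
  apply AddSubgroup.subset_closure
  exact ⟨_, hB _, P b, rfl⟩

end LangForms
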