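import Pool.Agent.Lib_MP_f5471b_nt.Defs

set_option linter.unusedVariables false

namespace LangForms

open Height NumberField WeierstrassCurve Topology Filter IsDedekindDomain

theorem Pole.le_place {F : Type} [Field F] [NumberField F] (x : F)
    (v : HeightOneSpectrum (𝓞 F)) (hv : 1 < v.valuation F x) :
    (Ideal.absNorm v.asIdeal : ℝ) ≤ FinitePlace.mk v x := by
  have hx0 : v.valuation F x ≠ 0 := (lt_trans zero_lt_one hv).ne'
  have h1 : FinitePlace.mk v x = HeightOneSpectrum.adicAbv F v x := by
    rw [FinitePlace.mk_apply, FinitePlace.norm_embedding]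
  rw [h1, HeightOneSpectrum.adicAbv_def]
  have h2 : WithZero.exp (1 : ℤ) ≤ v.valuation F x := by
    rw [← WithZero.le_log_iff_exp_le hx0]
    have h3 : (0 : ℤ) < WithZero.log (v.valuation F x) := by
      by_contra hcon
      push Not at hcon
      have h4 := WithZero.le_exp_of_log_le hcon
      rw [WithZero.exp_zero] at h4
      exact absurd hv (not_lt.mpr h4)
    omega
  have h5 := (WithZeroMulInt.toNNReal_strictMono
    (HeightOneSpectrum.one_lt_absNorm_nnreal v)).monotone h2
  have h6 : WithZeroMulInt.toNNReal (HeightOneSpectrum.absNorm_ne_zero v)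
      (WithZero.exp (1 : ℤ)) = (Ideal.absNorm v.asIdeal : NNReal) := by
    rw [WithZeroMulInt.toNNReal_neg_apply _ (WithZero.exp_ne_zero)]
    exact zpow_one _
  have h7 : (Ideal.absNorm v.asIdeal : NNReal) ≤
      WithZeroMulInt.toNNReal (HeightOneSpectrum.absNorm_ne_zero v) (v.valuation F x) := by
    exact le_trans (le_of_eq h6.symm) h5
  exact_mod_cast h7

theorem sum_log_le {F : Type} [Field F] [NumberField F] (x : F)
    (T : Finset (HeightOneSpectrum (𝓞 F))) (hT : ∀ v ∈ T, 1 < v.valuation F x) :
    ∑ v ∈ T, Real.log (Ideal.absNorm v.asIdeal) ≤ logHeight₁ x := by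
  classical
  by_cases hx : x = 0
  · have hTe : T = ∅ := by
      rw [Finset.eq_empty_iff_forall_notMem]
      intro v hv
      have := hT v hv
      rw [hx, map_zero] at this
      exact absurd this (not_lt.mpr zero_le_one)
    rw [hTe, Finset.sum_empty]
    exact zero_le_logHeight₁ x
  rw [NumberField.logHeight₁_eq]
  have h1 : 0 ≤ ∑ v : InfinitePlace F, (v.mult : ℝ) * Real.posLog (v x) :=
    Finset.sum_nonneg fun v _ => mul_nonneg (Nat.cast_nonneg _) Real.posLog_nonneg
  have hfin : (Function.support fun w : FinitePlace F => Real.posLog (w x)).Finite := by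
    refine (FinitePlace.hasFiniteMulSupport hx).subset ?_
    intro w hw
    simp only [Function.mem_support, Function.mem_mulSupport] at hw ⊢
    intro h
    apply hw
    rw [h]
    exact Real.posLog_one
  have h2 : ∑ v ∈ T, Real.log (Ideal.absNorm v.asIdeal)
      ≤ ∑ w ∈ T.image FinitePlace.mk, Real.posLog (w x) := by
    rw [Finset.sum_image]
    · refine Finset.sum_le_sum fun v hv => ?_
      have hlp : Real.log (FinitePlace.mk v x) ≤ Real.posLog (FinitePlace.mk v x) := by
        rw [Real.posLog_apply]
        exact le_max_right _ _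
      refine le_trans ?_ hlp
      apply Real.log_le_log
      · have := HeightOneSpectrum.one_lt_absNorm v
        exact_mod_cast (lt_trans Nat.zero_lt_one this)
      · exact Pole.le_place x v (hT v hv)
    · intro v _ w _ h
      exact FinitePlace.mk_eq_iff.mp h
  have h3 : ∑ w ∈ T.image FinitePlace.mk, Real.posLog (w x)
      ≤ ∑ᶠ w : FinitePlace F, Real.posLog (w x) := by
    rw [finsum_eq_sum_of_support_subset (s := hfin.toFinset ∪ T.image FinitePlace.mk) _
      (by
        intro w hw
        simp only [Finset.coe_union, Set.Finite.coe_toFinset]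
        exact Or.inl hw)]
    exact Finset.sum_le_sum_of_subset_of_nonneg Finset.subset_union_right
      (fun _ _ _ => Real.posLog_nonneg)
  linarith

end LangForms
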