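import Pool.Agent.Lib_MP_f5471b_nt.Defs
import Pool.Agent.Lib_MP_f5471b_nt.Pole

namespace LangForms

open Height NumberField WeierstrassCurve Topology Filter IsDedekindDomain

namespace BadAux

section bounds

variable {F : Type} [Field F] [NumberField F] {S : ℝ}

lemma bd_add (hS : (totalWeight F : ℝ) ≤ S) {x y : F} {c d : ℝ} (hx : logHeight₁ x ≤ c * S)
    (hy : logHeight₁ y ≤ d * S) : logHeight₁ (x + y) ≤ (c + d + 1) * S := by
  have h1 := logHeight₁_add_le x y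
  have h2 : Real.log 2 ≤ 1 := by
    have := Real.log_two_lt_d9
    linarith
  have h3 : (0 : ℝ) ≤ totalWeight F := Nat.cast_nonneg _
  nlinarith

lemma bd_sub (hS : (totalWeight F : ℝ) ≤ S) {x y : F} {c d : ℝ} (hx : logHeight₁ x ≤ c * S)
    (hy : logHeight₁ y ≤ d * S) : logHeight₁ (x - y) ≤ (c + d + 1) * S := by
  rw [sub_eq_add_neg]
  exact bd_add hS hx (by rwa [logHeight₁_neg])

lemma bd_neg {x : F} {c : ℝ} (hx : logHeight₁ x ≤ c * S) : logHeight₁ (-x) ≤ c * S := by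
  rwa [logHeight₁_neg]

lemma bd_mul {x y : F} {c d : ℝ} (hx : logHeight₁ x ≤ c * S)
    (hy : logHeight₁ y ≤ d * S) : logHeight₁ (x * y) ≤ (c + d) * S := by
  have h1 := logHeight₁_mul_le x y
  nlinarith

lemma bd_pow {x : F} {c : ℝ} (n : ℕ) (hx : logHeight₁ x ≤ c * S) :
    logHeight₁ (x ^ n) ≤ (n * c) * S := by
  rw [logHeight₁_pow, mul_assoc]
  gcongr

lemma bd_nat (hS : (totalWeight F : ℝ) ≤ S) (n : ℕ) : logHeight₁ ((n : ℕ) : F) ≤ n * S := by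
  have h1 := logHeight₁_sum_le (Finset.range n) (fun _ => (1 : F))
  simp only [Finset.sum_const, Finset.card_range, nsmul_eq_mul, mul_one, logHeight₁_one,
    mul_zero, add_zero] at h1
  have h3 : (0 : ℝ) ≤ totalWeight F := Nat.cast_nonneg _
  have h4 : Real.log n ≤ n := by
    rcases Nat.eq_zero_or_pos n with h | h
    · subst h; simp
    · have := Real.log_le_sub_one_of_pos (by exact_mod_cast h : (0 : ℝ) < n)
      linarith
  calc logHeight₁ ((n : ℕ) : F) ≤ _ := h1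
    _ ≤ totalWeight F * n := by gcongr
    _ ≤ S * n := by gcongr
    _ = n * S := by ring

lemma bd_delta (hS : (totalWeight F : ℝ) ≤ S) (W : WeierstrassCurve F)
    (h1 : logHeight₁ W.a₁ ≤ 1 * S) (h2 : logHeight₁ W.a₂ ≤ 1 * S) (h3 : logHeight₁ W.a₃ ≤ 1 * S)
    (h4 : logHeight₁ W.a₄ ≤ 1 * S) (h6 : logHeight₁ W.a₆ ≤ 1 * S) :
    logHeight₁ W.Δ ≤ 1000 * S := by
  have hS0 : (0 : ℝ) ≤ S := le_trans (Nat.cast_nonneg _) hS
  have n2 : logHeight₁ (2 : F) ≤ 2 * S := by simpa using bd_nat (F := F) hS 2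
  have n4 : logHeight₁ (4 : F) ≤ 4 * S := by simpa using bd_nat (F := F) hS 4
  have n8 : logHeight₁ (8 : F) ≤ 8 * S := by simpa using bd_nat (F := F) hS 8
  have n9 : logHeight₁ (9 : F) ≤ 9 * S := by simpa using bd_nat (F := F) hS 9
  have n27 : logHeight₁ (27 : F) ≤ 27 * S := by simpa using bd_nat (F := F) hS 27
  have b2 : logHeight₁ W.b₂ ≤ _ * S := bd_add hS (bd_pow 2 h1) (bd_mul n4 h2)
  have b4 : logHeight₁ W.b₄ ≤ _ * S := bd_add hS (bd_mul n2 h4) (bd_mul h1 h3)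
  have b6 : logHeight₁ W.b₆ ≤ _ * S := bd_add hS (bd_pow 2 h3) (bd_mul n4 h6)
  have b8 : logHeight₁ W.b₈ ≤ _ * S :=
    bd_sub hS (bd_add hS (bd_sub hS (bd_add hS (bd_mul (bd_pow 2 h1) h6)
      (bd_mul (bd_mul n4 h2) h6)) (bd_mul (bd_mul h1 h3) h4)) (bd_mul h2 (bd_pow 2 h3))) (bd_pow 2 h4)
  have hd : logHeight₁ W.Δ ≤ _ * S :=
    bd_add hS (bd_sub hS (bd_sub hS (bd_mul (bd_neg (bd_pow 2 b2)) b8) (bd_mul n8 (bd_pow 3 b4)))
      (bd_mul n27 (bd_pow 2 b6))) (bd_mul (bd_mul (bd_mul n9 b2) b4) b6)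
  refine hd.trans ?_
  gcongr
  norm_num

lemma bd_coeff (W : WeierstrassCurve F) (i : Fin 6) :
    logHeight₁ ((![1, W.a₁, W.a₂, W.a₃, W.a₄, W.a₆] : Fin 6 → F) i) ≤ hWrel W := by
  rw [logHeight₁_eq_logHeight]
  have h := logHeight_comp_le (![i, 0] : Fin 2 → Fin 6)
    (![1, W.a₁, W.a₂, W.a₃, W.a₄, W.a₆] : Fin 6 → F)
  have h2 : (![1, W.a₁, W.a₂, W.a₃, W.a₄, W.a₆] : Fin 6 → F) ∘ (![i, 0] : Fin 2 → Fin 6)
      = ![(![1, W.a₁, W.a₂, W.a₃, W.a₄, W.a₆] : Fin 6 → F) i, 1] := by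
    ext j
    fin_cases j <;> simp
  rw [h2] at h
  exact h

lemma delta_le_one (W : WeierstrassCurve F) (v : HeightOneSpectrum (𝓞 F))
    (h1 : v.valuation F W.a₁ ≤ 1) (h2 : v.valuation F W.a₂ ≤ 1) (h3 : v.valuation F W.a₃ ≤ 1)
    (h4 : v.valuation F W.a₄ ≤ 1) (h6 : v.valuation F W.a₆ ≤ 1) : v.valuation F W.Δ ≤ 1 := by
  let R := (v.valuation F).integer
  let W' : WeierstrassCurve R := ⟨⟨W.a₁, h1⟩, ⟨W.a₂, h2⟩, ⟨W.a₃, h3⟩, ⟨W.a₄, h4⟩, ⟨W.a₆, h6⟩⟩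
  have hW : W'.map R.subtype = W := rfl
  have hD : W.Δ = R.subtype W'.Δ := by
    conv_lhs => rw [← hW]
    exact WeierstrassCurve.map_Δ W' R.subtype
  rw [hD]
  exact (W'.Δ).2

end bounds

end BadAux

open BadAux in
theorem bad_sum : ∃ C : ℝ, 0 < C ∧ ∀ (F : Type) [Field F] [NumberField F]
    (W : WeierstrassCurve F) [W.IsElliptic] (T : Finset (HeightOneSpectrum (𝓞 F)))
    (hT : ∀ v ∈ T, ¬ Good W v),
    ∑ v ∈ T, Real.log (Ideal.absNorm v.asIdeal) ≤ C * (Module.finrank ℚ F + hWrel W) := by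
  classical
  refine ⟨1005, by norm_num, ?_⟩
  intro F _ _ W _ T hT
  have hH0 : 0 ≤ hWrel W := logHeight_nonneg _
  set S : ℝ := Module.finrank ℚ F + hWrel W with hSdef
  have hn0 : (0 : ℝ) ≤ Module.finrank ℚ F := Nat.cast_nonneg _
  have hS : (totalWeight F : ℝ) ≤ S := by
    rw [NumberField.totalWeight_eq_finrank]
    linarith
  have hHS : hWrel W ≤ 1 * S := by linarith
  have h1 : logHeight₁ W.a₁ ≤ 1 * S := (bd_coeff W 1).trans hHS
  have h2 : logHeight₁ W.a₂ ≤ 1 * S := (bd_coeff W 2).trans hHS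
  have h3 : logHeight₁ W.a₃ ≤ 1 * S := (bd_coeff W 3).trans hHS
  have h4 : logHeight₁ W.a₄ ≤ 1 * S := (bd_coeff W 4).trans hHS
  have h6 : logHeight₁ W.a₆ ≤ 1 * S := (bd_coeff W 5).trans hHS
  have hd : logHeight₁ (W.Δ)⁻¹ ≤ 1000 * S := by
    rw [logHeight₁_inv]
    exact bd_delta hS W h1 h2 h3 h4 h6
  let x : Fin 6 → F := ![W.a₁, W.a₂, W.a₃, W.a₄, W.a₆, (W.Δ)⁻¹]
  have hf0 : ∀ v : HeightOneSpectrum (𝓞 F), 0 ≤ Real.log (Ideal.absNorm v.asIdeal) :=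
    fun v => Real.log_natCast_nonneg _
  have hcov : ∀ v ∈ T, ∃ j, 1 < v.valuation F (x j) := by
    intro v hv
    by_contra hcon
    push Not at hcon
    have g1 : v.valuation F W.a₁ ≤ 1 := hcon 0
    have g2 : v.valuation F W.a₂ ≤ 1 := hcon 1
    have g3 : v.valuation F W.a₃ ≤ 1 := hcon 2
    have g4 : v.valuation F W.a₄ ≤ 1 := hcon 3
    have g6 : v.valuation F W.a₆ ≤ 1 := hcon 4
    have gd : v.valuation F (W.Δ)⁻¹ ≤ 1 := hcon 5
    have gD := delta_le_one W v g1 g2 g3 g4 g6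
    have hD0 : W.Δ ≠ 0 := W.isUnit_Δ.ne_zero
    have hv0 : v.valuation F W.Δ ≠ 0 := (Valuation.ne_zero_iff _).2 hD0
    have : v.valuation F W.Δ = 1 := by
      refine le_antisymm gD ?_
      rw [map_inv₀] at gd
      exact (inv_le_one₀ (zero_lt_iff.2 hv0)).1 gd
    exact hT v hv ⟨g1, g2, g3, g4, g6, this⟩
  have hsum : ∑ v ∈ T, Real.log (Ideal.absNorm v.asIdeal) ≤
      ∑ j : Fin 6, ∑ v ∈ T.filter (fun v => 1 < v.valuation F (x j)),
        Real.log (Ideal.absNorm v.asIdeal) := by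
    simp_rw [Finset.sum_filter]
    rw [Finset.sum_comm]
    refine Finset.sum_le_sum fun v hv => ?_
    obtain ⟨j, hj⟩ := hcov v hv
    calc Real.log (Ideal.absNorm v.asIdeal)
        = if 1 < v.valuation F (x j) then Real.log (Ideal.absNorm v.asIdeal) else 0 := by
          rw [if_pos hj]
      _ ≤ _ := Finset.single_le_sum
          (f := fun j => if 1 < v.valuation F (x j) then Real.log (Ideal.absNorm v.asIdeal) else 0)
          (fun i _ => by split_ifs; exacts [hf0 v, le_rfl]) (Finset.mem_univ j)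
  have hj : ∀ j : Fin 6, ∑ v ∈ T.filter (fun v => 1 < v.valuation F (x j)),
        Real.log (Ideal.absNorm v.asIdeal) ≤ logHeight₁ (x j) := fun j =>
    sum_log_le (x j) _ (fun v hv => (Finset.mem_filter.1 hv).2)
  refine (hsum.trans (Finset.sum_le_sum fun j _ => hj j)).trans ?_
  have hx : ∑ j : Fin 6, logHeight₁ (x j) = logHeight₁ W.a₁ + logHeight₁ W.a₂ + logHeight₁ W.a₃
      + logHeight₁ W.a₄ + logHeight₁ W.a₆ + logHeight₁ (W.Δ)⁻¹ := by
    simp only [Fin.sum_univ_succ, Fin.sum_univ_zero, x]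
    simp
    ring
  rw [hx]
  linarith

end LangForms
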