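import Pool.Agent.Lib_MP_f5471b_nt.Defs

/-!
# MP_f5471b_nt: elements of the inertia group act trivially modulo `v`
-/

namespace LangForms

open Height NumberField WeierstrassCurve Topology Filter IsDedekindDomain

theorem inertia_val {K F : Type} [Field K] [Field F] [NumberField F] [Algebra K F]
    (v : HeightOneSpectrum (𝓞 F)) (σ : F ≃ₐ[K] F) (hσ : InIn v σ) (x : F)
    (hx : v.valuation F x ≤ 1) : v.valuation F (σ x - x) < 1 := by
  obtain ⟨n, d, hnd⟩ := v.exists_primeCompl_mul_eq_of_integer x hx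
  have hd1 : v.valuation F (d.1 : F) = 1 := by
    rw [show ((d.1 : 𝓞 F) : F) = algebraMap (𝓞 F) F d.1 from rfl,
      HeightOneSpectrum.valuation_eq_one_iff_notMem]
    exact d.2
  have hσd : v.valuation F (σ (d.1 : F)) = 1 := by
    have h1 := hσ d.1
    have h2 : σ (d.1 : F) = (d.1 : F) + (σ (d.1 : F) - (d.1 : F)) := by ring
    rw [h2, Valuation.map_add_eq_of_lt_left]
    · exact hd1
    · rw [hd1]; exact h1
  have hσx : σ x * σ (d.1 : F) = σ (n : F) := by
    rw [← map_mul]
    congr 1
  have hkey : (σ x - x) * σ (d.1 : F) =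
      (σ (n : F) - (n : F)) - x * (σ (d.1 : F) - (d.1 : F)) := by
    have h3 : x * (d.1 : F) = (n : F) := hnd
    linear_combination hσx - h3
  have h4 : v.valuation F ((σ x - x) * σ (d.1 : F)) < 1 := by
    rw [hkey]
    refine lt_of_le_of_lt (Valuation.map_sub _ _ _) (max_lt (hσ n) ?_)
    rw [map_mul]
    exact lt_of_le_of_lt (mul_le_of_le_one_left' hx) (hσ d.1)
  rwa [map_mul, hσd, mul_one] at h4

end LangForms
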