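import Pool.Agent.Lib_MP_f5471b_nt.Red
import Pool.Agent.Lib_MP_f5471b_nt.Pole
import Pool.Agent.Lib_MP_f5471b_nt.Inert
import Pool.Agent.Lib_MP_f5471b_nt.Bad

namespace LangForms

open Height NumberField WeierstrassCurve Topology Filter IsDedekindDomain

namespace Arith

/-- The inertia group. -/
def inert {K F : Type} [Field K] [Field F] [NumberField F] [Algebra K F]
    (v : HeightOneSpectrum (𝓞 F)) : Subgroup (F ≃ₐ[K] F) where
  carrier := {σ | InIn v σ}
  mul_mem' := by
    intro a b ha hb z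
    let w : 𝓞 F := RingOfIntegers.mapAlgEquiv b z
    have hw : (w : F) = b (z : F) := rfl
    have h1 := ha w
    have h2 := hb z
    rw [hw] at h1
    have h3 : (a * b) (z : F) - z = (a (b (z : F)) - b (z : F)) + (b (z : F) - z) := by
      rw [AlgEquiv.mul_apply]; ring
    rw [h3]
    exact Valuation.map_add_lt _ h1 h2
  one_mem' := by
    intro z
    simp
  inv_mem' := by
    intro a ha z
    let w : 𝓞 F := RingOfIntegers.mapAlgEquiv a⁻¹ z
    have hw : (w : F) = a⁻¹ (z : F) := rfl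
    have h1 := ha w
    rw [hw] at h1
    have h2 : a (a⁻¹ (z : F)) = z := by
      rw [← AlgEquiv.mul_apply, mul_inv_cancel]; rfl
    rw [h2] at h1
    rw [← Valuation.map_neg, neg_sub]
    exact h1

theorem hx_some {F : Type} [Field F] [NumberField F] {W : WeierstrassCurve F} {x y : F}
    (h : W.toAffine.Nonsingular x y) : hx (Affine.Point.some x y h) = logHeight₁ x := by
  rw [hx, Affine.Point.xRep_some, logHeight₁_eq_logHeight]

/-- The primes at which the `x`-coordinate has a pole. -/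
theorem pole_sum {F : Type} [Field F] [NumberField F] {W : WeierstrassCurve F}
    (R : W.toAffine.Point) (T : Finset (HeightOneSpectrum (𝓞 F)))
    (hT : ∀ v ∈ T, ∃ x y h, R = Affine.Point.some x y h ∧ 1 < v.valuation F x) :
    ∑ v ∈ T, Real.log (Ideal.absNorm v.asIdeal) ≤ hx R := by
  rcases T.eq_empty_or_nonempty with rfl | ⟨v, hv⟩
  · rw [Finset.sum_empty]; exact logHeight_nonneg _
  · obtain ⟨x, y, h, rfl, _⟩ := hT v hv
    rw [hx_some]
    refine sum_log_le x T fun w hw => ?_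
    obtain ⟨x', y', h', he, hlt⟩ := hT w hw
    have : x = x' := (Affine.Point.some.inj he).1
    rw [this]; exact hlt

/-- At a good prime with `σ` in the inertia group. -/
theorem pole_or_pole {K F : Type} [Field K] [NumberField K] [Field F]
    [NumberField F] [DecidableEq F] [Algebra K F]
    (W : WeierstrassCurve K) (v : HeightOneSpectrum (𝓞 F))
    (hv : Good (W.baseChange F) v) (σ : F ≃ₐ[K] F) (hσ : InIn v σ)
    (Q : (W.baseChange F).toAffine.Point) (hQ : gal σ Q ≠ Q) :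
    (∃ x y h, Q = Affine.Point.some x y h ∧ 1 < v.valuation F x) ∨
    (∃ x y h, gal σ Q - Q = Affine.Point.some x y h ∧ 1 < v.valuation F x) := by
  obtain ⟨h1, h2, h3, h4, h6, hΔ⟩ := hv
  match Q, hQ with
  | 0, hQ => exact absurd (map_zero (gal σ)) hQ
  | Affine.Point.some x y h, hQ =>
    by_cases hx1 : 1 < v.valuation F x
    · left; exact ⟨x, y, h, rfl, hx1⟩
    · right
      have hx1 := not_lt.1 hx1
      have hy1 := val_y_le_one (v.valuation F) (W.baseChange F) h1 h2 h3 h4 h6 h.1 hx1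
      have hgal : gal σ (Affine.Point.some x y h) = Affine.Point.some (σ x) (σ y)
          ((Affine.baseChange_nonsingular (W := W.toAffine) (f := (σ : F →ₐ[K] F))
            (RingHom.injective _) x y).mpr h) := rfl
      rw [hgal] at hQ ⊢
      exact reduction (v.valuation F) (W.baseChange F) h1 h2 h3 h4 h6 hΔ h _ hx1
        (inertia_val v σ hσ x hx1) (inertia_val v σ hσ y hy1) hQ

end Arith

theorem arith_main : ∃ C : ℝ, 0 < C ∧ ∀ (K F : Type) [Field K] [NumberField K] [Field F]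
    [NumberField F] [DecidableEq F] [Algebra K F] [IsGalois K F]
    (W : WeierstrassCurve K) [W.IsElliptic] (T : Finset (HeightOneSpectrum (𝓞 F)))
    (_hT : ∀ v ∈ T, ∃ σ : F ≃ₐ[K] F, σ ≠ 1 ∧ InIn v σ) (B : ℝ) (_hB : 0 ≤ B)
    (_hQ : ∀ H : Subgroup (F ≃ₐ[K] F), H ≠ ⊥ → ∃ σ ∈ H,
      ∃ Q : (W.baseChange F).toAffine.Point, gal σ Q ≠ Q ∧ hx Q ≤ B ∧ hx (gal σ Q - Q) ≤ B),
    ∑ v ∈ T, Real.log (Ideal.absNorm v.asIdeal) ≤
      2 * Nat.card (Subgroup (F ≃ₐ[K] F)) * B +
        C * (Module.finrank ℚ F + hWrel (W.baseChange F)) := by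
  classical
  obtain ⟨C, hC, hbad⟩ := bad_sum
  refine ⟨C, hC, ?_⟩
  intro K F _ _ _ _ _ _ _ W _ T hT B hB hQ
  have hlog : ∀ v : HeightOneSpectrum (𝓞 F), 0 ≤ Real.log (Ideal.absNorm v.asIdeal) :=
    fun v => Real.log_natCast_nonneg _
  have hQ' : ∀ H : Subgroup (F ≃ₐ[K] F), ∃ σ : F ≃ₐ[K] F, ∃ Q : (W.baseChange F).toAffine.Point,
      H ≠ ⊥ → σ ∈ H ∧ gal σ Q ≠ Q ∧ hx Q ≤ B ∧ hx (gal σ Q - Q) ≤ B := by
    intro H
    by_cases hH : H = ⊥
    · exact ⟨1, 0, fun h => absurd hH h⟩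
    · obtain ⟨σ, hσ, Q, h⟩ := hQ H hH
      exact ⟨σ, Q, fun _ => ⟨hσ, h⟩⟩
  choose s Q hsQ using hQ'
  have : Fintype (Subgroup (F ≃ₐ[K] F)) := Fintype.ofFinite _
  let T1 : Subgroup (F ≃ₐ[K] F) → Finset (HeightOneSpectrum (𝓞 F)) := fun H =>
    T.filter fun v => H ≠ ⊥ ∧ ∃ x y h, Q H = Affine.Point.some x y h ∧ 1 < v.valuation F x
  let T2 : Subgroup (F ≃ₐ[K] F) → Finset (HeightOneSpectrum (𝓞 F)) := fun H =>
    T.filter fun v => H ≠ ⊥ ∧ ∃ x y h, gal (s H) (Q H) - Q H = Affine.Point.some x y h ∧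
      1 < v.valuation F x
  let Tb : Finset (HeightOneSpectrum (𝓞 F)) := T.filter fun v => ¬ Good (W.baseChange F) v
  have hcover : T ⊆ Tb ∪ (Finset.univ.biUnion fun H => T1 H ∪ T2 H) := by
    intro v hv
    by_cases hg : Good (W.baseChange F) v
    · rw [Finset.mem_union]
      right
      rw [Finset.mem_biUnion]
      refine ⟨Arith.inert v, Finset.mem_univ _, ?_⟩
      have hne : Arith.inert (K := K) v ≠ ⊥ := by
        obtain ⟨σ, hσ1, hσ⟩ := hT v hv
        intro h0
        have : σ ∈ Arith.inert (K := K) v := hσ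
        rw [h0, Subgroup.mem_bot] at this
        exact hσ1 this
      obtain ⟨hs, hgal, -, -⟩ := hsQ _ hne
      rw [Finset.mem_union]
      rcases Arith.pole_or_pole W v hg _ hs _ hgal with h | h
      · left; exact Finset.mem_filter.2 ⟨hv, hne, h⟩
      · right; exact Finset.mem_filter.2 ⟨hv, hne, h⟩
    · rw [Finset.mem_union]
      left; exact Finset.mem_filter.2 ⟨hv, hg⟩
  have hT1 : ∀ H, ∑ v ∈ T1 H, Real.log (Ideal.absNorm v.asIdeal) ≤ B := by
    intro H
    by_cases hH : H = ⊥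
    · have : T1 H = ∅ := by
        refine Finset.filter_eq_empty_iff.2 fun v _ h => h.1 hH
      rw [this]; simpa using hB
    · refine (Arith.pole_sum (Q H) (T1 H) fun v hv => ?_).trans (hsQ H hH).2.2.1
      exact (Finset.mem_filter.1 hv).2.2
  have hT2 : ∀ H, ∑ v ∈ T2 H, Real.log (Ideal.absNorm v.asIdeal) ≤ B := by
    intro H
    by_cases hH : H = ⊥
    · have : T2 H = ∅ := by
        refine Finset.filter_eq_empty_iff.2 fun v _ h => h.1 hH
      rw [this]; simpa using hB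
    · refine (Arith.pole_sum _ (T2 H) fun v hv => ?_).trans (hsQ H hH).2.2.2
      exact (Finset.mem_filter.1 hv).2.2
  have hTb : ∑ v ∈ Tb, Real.log (Ideal.absNorm v.asIdeal) ≤
      C * (Module.finrank ℚ F + hWrel (W.baseChange F)) :=
    hbad F (W.baseChange F) Tb fun v hv => (Finset.mem_filter.1 hv).2
  have hun : ∀ A A' : Finset (HeightOneSpectrum (𝓞 F)),
      ∑ v ∈ A ∪ A', Real.log (Ideal.absNorm v.asIdeal) ≤
        ∑ v ∈ A, Real.log (Ideal.absNorm v.asIdeal) +
          ∑ v ∈ A', Real.log (Ideal.absNorm v.asIdeal) := by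
    intro A A'
    rw [← Finset.sum_union_inter]
    have : 0 ≤ ∑ v ∈ A ∩ A', Real.log (Ideal.absNorm v.asIdeal) :=
      Finset.sum_nonneg fun v _ => hlog v
    linarith
  have hbi : ∑ v ∈ (Finset.univ.biUnion fun H => T1 H ∪ T2 H),
      Real.log (Ideal.absNorm v.asIdeal) ≤
      ∑ H : Subgroup (F ≃ₐ[K] F), ∑ v ∈ T1 H ∪ T2 H, Real.log (Ideal.absNorm v.asIdeal) := by
    have h : ∀ S : Finset (Subgroup (F ≃ₐ[K] F)),
        ∑ v ∈ S.biUnion fun H => T1 H ∪ T2 H, Real.log (Ideal.absNorm v.asIdeal) ≤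
        ∑ H ∈ S, ∑ v ∈ T1 H ∪ T2 H, Real.log (Ideal.absNorm v.asIdeal) := by
      intro S
      induction S using Finset.induction with
      | empty => simp
      | insert a S ha ih =>
        rw [Finset.biUnion_insert, Finset.sum_insert ha]
        exact (hun _ _).trans (by linarith)
    exact h _
  calc ∑ v ∈ T, Real.log (Ideal.absNorm v.asIdeal)
      ≤ ∑ v ∈ Tb ∪ (Finset.univ.biUnion fun H => T1 H ∪ T2 H),
          Real.log (Ideal.absNorm v.asIdeal) :=
        Finset.sum_le_sum_of_subset_of_nonneg hcover fun v _ _ => hlog v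
    _ ≤ ∑ v ∈ Tb, Real.log (Ideal.absNorm v.asIdeal) +
        ∑ v ∈ (Finset.univ.biUnion fun H => T1 H ∪ T2 H),
          Real.log (Ideal.absNorm v.asIdeal) := hun _ _
    _ ≤ C * (Module.finrank ℚ F + hWrel (W.baseChange F)) +
        ∑ H : Subgroup (F ≃ₐ[K] F), (B + B) := by
        refine add_le_add hTb (hbi.trans (Finset.sum_le_sum fun H _ => ?_))
        exact (hun _ _).trans (add_le_add (hT1 H) (hT2 H))
    _ = _ := by
        rw [Finset.sum_const, Finset.card_univ, ← Nat.card_eq_fintype_card, nsmul_eq_mul]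
        ring

end LangForms
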