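import Pool.Agent.Lib_MP_f5471b_nt.Defs

set_option linter.unusedVariables false

namespace LangForms

/-- a matrix all of whose entries are divisible by all powers of `3` is zero -/
theorem minkG_zero {g : ℕ} (N : Matrix (Fin g) (Fin g) ℤ)
    (h : ∀ k : ℕ, ∃ C : Matrix (Fin g) (Fin g) ℤ, N = ((3 : ℤ) ^ k) • C) : N = 0 := by
  ext i j
  by_contra hne
  have hne' : N i j ≠ 0 := hne
  obtain ⟨C, hC⟩ := h (N i j).natAbs
  have h1 : (3 : ℤ) ^ (N i j).natAbs ∣ N i j := ⟨C i j, by
    conv_lhs => rw [hC]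
    rw [Matrix.smul_apply, smul_eq_mul]⟩
  have h2 := Int.natAbs_dvd_natAbs.2 h1
  rw [Int.natAbs_pow] at h2
  have h3 := Nat.le_of_dvd (Int.natAbs_pos.2 hne') h2
  have h4 : (N i j).natAbs < 3 ^ (N i j).natAbs := Nat.lt_pow_self (by norm_num)
  exact absurd h3 (not_le.2 h4)

/-- `(1 + N) ^ n = 1 + n N + N * N * D` -/
theorem minkG_pow {g : ℕ} (N : Matrix (Fin g) (Fin g) ℤ) (n : ℕ) :
    ∃ D : Matrix (Fin g) (Fin g) ℤ, (1 + N) ^ n = 1 + (n : ℤ) • N + N * N * D := by
  induction n with
  | zero => exact ⟨0, by simp⟩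
  | succ n ih =>
    obtain ⟨D, hD⟩ := ih
    refine ⟨(n : ℤ) • 1 + D * (1 + N), ?_⟩
    rw [pow_succ, hD]
    push_cast
    simp only [add_mul, mul_add, one_mul, mul_one, add_smul, one_smul, smul_mul_assoc,
      mul_assoc, mul_smul_comm]
    abel

theorem minkG_step {g : ℕ} (N : Matrix (Fin g) (Fin g) ℤ) (p : ℕ) (hp : p.Prime)
    (h : (1 + N) ^ p = 1) (h3 : ∃ C : Matrix (Fin g) (Fin g) ℤ, N = (3 : ℤ) • C) (k : ℕ) :
    ∃ C : Matrix (Fin g) (Fin g) ℤ, N = ((3 : ℤ) ^ (k + 1)) • C := by
  induction k with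
  | zero => simpa using h3
  | succ k ih =>
    obtain ⟨C, hC⟩ := ih
    have hne : ((3 : ℤ) ^ (k + 1)) ≠ 0 := by positivity
    have hdiv : ∃ C' : Matrix (Fin g) (Fin g) ℤ, C = (3 : ℤ) • C' := by
      by_cases hp3 : p = 3
      · subst hp3
        have e1 : (1 + N) ^ 3 = 1 + (3 : ℤ) • N + (3 : ℤ) • (N * N) + N * N * N := by
          simp only [pow_succ, pow_zero, add_mul, mul_add, one_mul, mul_one]
          have : ∀ A : Matrix (Fin g) (Fin g) ℤ, (3 : ℤ) • A = A + A + A := by
            intro A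
            ext i j
            simp only [Matrix.smul_apply, Matrix.add_apply, smul_eq_mul]
            ring
          rw [this, this]
          abel
        have e2 : (3 : ℤ) • N + (3 : ℤ) • (N * N) + N * N * N = 0 := by
          have := h.symm.trans e1
          have h5 : (1 : Matrix (Fin g) (Fin g) ℤ) + ((3 : ℤ) • N + (3 : ℤ) • (N * N) + N * N * N)
              = 1 + 0 := by
            rw [add_zero]
            conv_rhs => rw [this]
            abel
          exact add_left_cancel h5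
        refine ⟨-(((3 : ℤ) ^ k) • (C * C) + ((3 : ℤ) ^ (2 * k)) • (C * C * C)), ?_⟩
        have e3 : ((3 : ℤ) ^ (k + 1) * 3) • (C + (((3 : ℤ) ^ (k + 1)) • (C * C) +
            ((3 : ℤ) ^ (2 * k + 1)) • (C * C * C))) = 0 := by
          rw [← e2, hC]
          simp only [smul_mul_assoc, mul_smul_comm, smul_smul, smul_add]
          rw [← add_assoc,
            show ((3 : ℤ) ^ (k + 1) * 3 * 3 ^ (2 * k + 1)) =
              3 ^ (k + 1) * (3 ^ (k + 1) * 3 ^ (k + 1)) by ring,
            show ((3 : ℤ) ^ (k + 1) * 3 * 3 ^ (k + 1)) = 3 * (3 ^ (k + 1) * 3 ^ (k + 1)) by ring,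
            show ((3 : ℤ) ^ (k + 1) * 3) = 3 * 3 ^ (k + 1) by ring]
        have e4 := (smul_eq_zero.1 e3).resolve_left (by positivity)
        have e5 : C = -(((3 : ℤ) ^ (k + 1)) • (C * C) + ((3 : ℤ) ^ (2 * k + 1)) • (C * C * C)) :=
          eq_neg_of_add_eq_zero_left e4
        rw [smul_neg, smul_add, smul_smul, smul_smul]
        conv_lhs => rw [e5]
        congr 3 <;> ring
      · obtain ⟨D, hD⟩ := minkG_pow N p
        have e2 : (p : ℤ) • N + N * N * D = 0 := by
          have := h.symm.trans hD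
          have h5 : (1 : Matrix (Fin g) (Fin g) ℤ) + ((p : ℤ) • N + N * N * D) = 1 + 0 := by
            rw [add_zero]
            conv_rhs => rw [this]
            abel
          exact add_left_cancel h5
        have e3 : ((3 : ℤ) ^ (k + 1)) • ((p : ℤ) • C + ((3 : ℤ) ^ (k + 1)) • (C * C * D)) = 0 := by
          rw [← e2, hC]
          simp only [smul_mul_assoc, mul_smul_comm, smul_smul, smul_add]
          congr 2
          ring
        have e4 := (smul_eq_zero.1 e3).resolve_left hne
        have hcop : IsCoprime (p : ℤ) 3 := by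
          have : Nat.Coprime p 3 := (Nat.coprime_primes hp Nat.prime_three).2 hp3
          exact_mod_cast Nat.isCoprime_iff_coprime.2 this
        obtain ⟨a, b, hab⟩ := hcop
        refine ⟨b • C - (a * (3 : ℤ) ^ k) • (C * C * D), ?_⟩
        have e5 : (p : ℤ) • C = -(((3 : ℤ) ^ (k + 1)) • (C * C * D)) :=
          eq_neg_of_add_eq_zero_left e4
        calc C = (a * p + b * 3) • C := by rw [hab, one_smul]
          _ = a • ((p : ℤ) • C) + (b * 3) • C := by rw [add_smul, smul_smul]
          _ = (3 : ℤ) • (b • C - (a * (3 : ℤ) ^ k) • (C * C * D)) := by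
            rw [e5, smul_sub, smul_smul, smul_smul, smul_neg, smul_smul, mul_comm b 3]
            rw [show a * (3 : ℤ) ^ (k + 1) = 3 * (a * 3 ^ k) by ring]
            abel
    obtain ⟨C', hC'⟩ := hdiv
    refine ⟨C', ?_⟩
    rw [hC, hC', smul_smul, ← pow_succ]

theorem minkG_aux {g : ℕ} (B : Matrix (Fin g) (Fin g) ℤ) (p : ℕ) (hp : p.Prime)
    (h : B ^ p = 1) (h3 : (Int.castRingHom (ZMod 3)).mapMatrix B = 1) : B = 1 := by
  have hN : B - 1 = 0 := by
    have h1 : (1 + (B - 1)) ^ p = 1 := by rw [add_sub_cancel]; exact h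
    have h2 : ∃ C : Matrix (Fin g) (Fin g) ℤ, B - 1 = (3 : ℤ) • C := by
      have h4 : ∀ i j, (3 : ℤ) ∣ (B - 1) i j := by
        intro i j
        have h5 : (((B - 1) i j : ℤ) : ZMod 3) = 0 := by
          have h6 : ((Int.castRingHom (ZMod 3)).mapMatrix (B - 1)) i j = 0 := by
            rw [map_sub, h3, map_one, sub_self, Matrix.zero_apply]
          simpa using h6
        have := (ZMod.intCast_zmod_eq_zero_iff_dvd _ 3).1 h5
        exact_mod_cast this
      choose C hC using h4
      refine ⟨Matrix.of C, ?_⟩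
      ext i j
      rw [Matrix.smul_apply, Matrix.of_apply, smul_eq_mul]
      exact hC i j
    refine minkG_zero _ fun k => ?_
    obtain ⟨C, hC⟩ := minkG_step (B - 1) p hp h1 h2 k
    exact ⟨(3 : ℤ) • C, by rw [hC, smul_smul, pow_succ]⟩
  exact sub_eq_zero.1 hN

theorem card_le_of_injective {g : ℕ} {G : Type} [Group G] [Finite G]
    (ρ : G →* Matrix.GeneralLinearGroup (Fin g) ℤ) (hρ : Function.Injective ρ) :
    Nat.card G ≤ 3 ^ (g ^ 2) := by
  classical
  set f : G →* Matrix (Fin g) (Fin g) (ZMod 3) :=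
    (((Int.castRingHom (ZMod 3)).mapMatrix : Matrix (Fin g) (Fin g) ℤ →+*
      Matrix (Fin g) (Fin g) (ZMod 3)) : Matrix (Fin g) (Fin g) ℤ →*
      Matrix (Fin g) (Fin g) (ZMod 3)).comp
      ((Units.coeHom (Matrix (Fin g) (Fin g) ℤ)).comp ρ) with hf
  have hker : ∀ x : G, f x = 1 → x = 1 := by
    intro x hx
    by_contra hne
    have h1 : orderOf x ≠ 1 := fun h => hne (orderOf_eq_one_iff.1 h)
    obtain ⟨p, hp, hpd⟩ := Nat.exists_prime_and_dvd h1
    obtain ⟨m, hm⟩ := hpd
    have hm0 : 0 < m := by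
      rcases Nat.eq_zero_or_pos m with h | h
      · rw [h, mul_zero] at hm
        exact absurd hm (orderOf_pos x).ne'
      · exact h
    have hy : (x ^ m) ^ p = 1 := by
      rw [← pow_mul, mul_comm, ← hm, pow_orderOf_eq_one]
    have hyne : x ^ m ≠ 1 := by
      intro h
      have := orderOf_dvd_of_pow_eq_one h
      rw [hm] at this
      have := Nat.le_of_dvd hm0 this
      have := hp.two_le
      nlinarith
    have hfy : f (x ^ m) = 1 := by rw [map_pow, hx, one_pow]
    have hB : ((ρ (x ^ m)).val : Matrix (Fin g) (Fin g) ℤ) = 1 := by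
      refine minkG_aux _ p hp ?_ hfy
      rw [← Units.val_pow_eq_pow_val, ← map_pow, hy, map_one, Units.val_one]
    apply hyne
    apply hρ
    rw [map_one]
    exact Units.ext hB
  have hinj : Function.Injective f := by
    intro x y hxy
    have h1 : f (x⁻¹ * y) = 1 := by
      rw [map_mul, ← hxy, ← map_mul, inv_mul_cancel, map_one]
    exact inv_mul_eq_one.1 (hker _ h1)
  have hcard := Nat.card_le_card_of_injective f hinj
  refine hcard.trans (le_of_eq ?_)
  rw [Nat.card_eq_fintype_card]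
  show Fintype.card (Fin g → Fin g → ZMod 3) = 3 ^ (g ^ 2)
  rw [Fintype.card_fun, Fintype.card_fun, ZMod.card, Fintype.card_fin, ← pow_mul, sq]

end LangForms
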