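import Pool.Agent.Lib_MP_f5471b_nt.Defs

set_option linter.unusedVariables false
set_option linter.unusedSectionVars false

namespace LangForms

open Topology Filter

section para

variable {X : Type} [AddCommGroup X] {q : X → ℝ}
  (hq : ∀ P Q, q (P + Q) + q (P - Q) = 2 * q P + 2 * q Q)

include hq

theorem psd_q_zero : q 0 = 0 := by
  have h := hq 0 0
  rw [add_zero, sub_zero] at h
  linarith

theorem psd_q_neg (P : X) : q (-P) = q P := by
  have h := hq 0 P
  rw [zero_add, zero_sub, psd_q_zero hq] at h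
  linarith

theorem psd_q_cube (x y z : X) :
    q (x + y + z) = q (x + y) + q (y + z) + q (x + z) - q x - q y - q z := by
  have h1 := hq (x + z) y
  have h2 := hq x (z - y)
  have h3 := hq (x + y) z
  have h4 := hq z y
  have e1 : x + z + y = x + y + z := by abel
  have e2 : x + (z - y) = x + z - y := by abel
  have e3 : x - (z - y) = x + y - z := by abel
  have e4 : z + y = y + z := by abel
  rw [e1] at h1
  rw [e2, e3] at h2
  rw [e4] at h4
  linarith

theorem psd_pairX_add_left (P R Q : X) : pairX q (P + R) Q = pairX q P Q + pairX q R Q := by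
  unfold pairX
  have h := psd_q_cube hq P R Q
  have h2 := hq P R
  rw [h]
  ring

theorem psd_pairX_comm (P Q : X) : pairX q P Q = pairX q Q P := by
  unfold pairX
  rw [add_comm P Q]
  ring

theorem psd_pairX_self (P : X) : pairX q P P = q P := by
  unfold pairX
  have h := hq P P
  rw [sub_self, psd_q_zero hq] at h
  linarith

/-- the pairing as a homomorphism of the first variable -/
noncomputable def psd_pairHom (Q : X) : X →+ ℝ :=
  AddMonoidHom.mk' (fun P => pairX q P Q) fun P R => psd_pairX_add_left hq P R Q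

theorem psd_pair_Phi_left {g : ℕ} (P : Fin g → X) (ℓ : Fin g → ℤ) (Q : X) :
    pairX q (Phi P ℓ) Q = ∑ a, (ℓ a : ℝ) * pairX q (P a) Q := by
  have h : psd_pairHom hq Q (Phi P ℓ) = ∑ a, (ℓ a : ℝ) * psd_pairHom hq Q (P a) := by
    unfold Phi
    rw [map_sum]
    refine Finset.sum_congr rfl fun a _ => ?_
    rw [map_zsmul, zsmul_eq_mul]
  exact h

theorem psd_q_Phi {g : ℕ} (P : Fin g → X) (ℓ : Fin g → ℤ) :
    q (Phi P ℓ) = ∑ a, ∑ b, (ℓ a : ℝ) * pairX q (P a) (P b) * ℓ b := by
  rw [← psd_pairX_self hq (Phi P ℓ), psd_pair_Phi_left hq]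
  refine Finset.sum_congr rfl fun a _ => ?_
  rw [psd_pairX_comm hq (P a), psd_pair_Phi_left hq, Finset.mul_sum]
  refine Finset.sum_congr rfl fun b _ => ?_
  rw [psd_pairX_comm hq (P b)]
  ring

end para

theorem q_nsmul {X : Type} [AddCommGroup X] (q : X → ℝ)
    (hq : ∀ P Q, q (P + Q) + q (P - Q) = 2 * q P + 2 * q Q) (n : ℕ) (P : X) :
    q (n • P) = (n : ℝ) ^ 2 * q P := by
  have h0 := psd_q_zero hq
  have key : ∀ n : ℕ, q (n • P) = (n : ℝ) ^ 2 * q P ∧
      q ((n + 1) • P) = ((n + 1 : ℕ) : ℝ) ^ 2 * q P := by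
    intro n
    induction n with
    | zero => simp [h0]
    | succ n ih =>
      refine ⟨ih.2, ?_⟩
      have h := hq ((n + 1) • P) P
      have e1 : (n + 1) • P + P = (n + 1 + 1) • P := (succ_nsmul P (n + 1)).symm
      have e2 : (n + 1) • P - P = n • P := by
        rw [succ_nsmul, add_sub_cancel_right]
      rw [e1, e2, ih.1, ih.2] at h
      push_cast at h ⊢
      linarith
  exact (key n).1

/-- a real quadratic form which is nonnegative on integer vectors is nonnegative -/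
theorem psd_nonneg_of_int {g : ℕ} (T : Fin g → Fin g → ℝ)
    (h : ∀ ℓ : Fin g → ℤ, 0 ≤ ∑ a, ∑ b, (ℓ a : ℝ) * T a b * ℓ b) (v : Fin g → ℝ) :
    0 ≤ ∑ a, ∑ b, v a * T a b * v b := by
  have hcont : Continuous fun v : Fin g → ℝ => ∑ a, ∑ b, v a * T a b * v b := by
    fun_prop
  have hd : DenseRange (Pi.map (fun (_ : Fin g) (r : ℚ) => (r : ℝ))) :=
    DenseRange.piMap fun _ => Rat.denseRange_cast
  refine isClosed_property (p := fun v : Fin g → ℝ => 0 ≤ ∑ a, ∑ b, v a * T a b * v b) hd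
    (isClosed_le continuous_const hcont) ?_ v
  intro r
  show 0 ≤ ∑ a, ∑ b, (r a : ℝ) * T a b * (r b : ℝ)
  set N : ℕ := ∏ a, (r a).den with hN
  have hNpos : (0 : ℝ) < (N : ℝ) := by
    have : 0 < N := Finset.prod_pos fun a _ => (r a).den_pos
    exact_mod_cast this
  have hint : ∀ a, ∃ z : ℤ, (z : ℝ) = N * (r a : ℝ) := by
    intro a
    obtain ⟨k, hk⟩ : (r a).den ∣ N := Finset.dvd_prod_of_mem _ (Finset.mem_univ a)
    refine ⟨(r a).num * k, ?_⟩
    have h1 : ((r a : ℚ) : ℝ) * ((r a).den : ℝ) = ((r a).num : ℝ) := by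
      exact_mod_cast Rat.mul_den_eq_num (r a)
    rw [hk]
    push_cast
    rw [← h1]
    ring
  choose z hz using hint
  have h1 := h z
  have h2 : ∑ a, ∑ b, (z a : ℝ) * T a b * z b
      = (N : ℝ) ^ 2 * ∑ a, ∑ b, (r a : ℝ) * T a b * (r b : ℝ) := by
    rw [Finset.mul_sum]
    refine Finset.sum_congr rfl fun a _ => ?_
    rw [Finset.mul_sum]
    refine Finset.sum_congr rfl fun b _ => ?_
    rw [hz, hz]
    ring
  rw [h2] at h1
  exact nonneg_of_mul_nonneg_right h1 (by positivity)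

open scoped MatrixOrder in
theorem q_le {X : Type} [AddCommGroup X] (q : X → ℝ)
    (hq : ∀ P Q, q (P + Q) + q (P - Q) = 2 * q P + 2 * q Q) (h0 : ∀ P, 0 ≤ q P)
    {g : ℕ} (M : Matrix (Fin g) (Fin g) ℤ) (hM : IsPol M) (C : ℝ) (ℓ : Fin g → ℤ)
    (hℓ : Sh M C ℓ) (P : Fin g → X) :
    q (Phi P ℓ) ≤ C * ∑ a, ∑ b, (M a b : ℝ) * pairX q (P a) (P b) := by
  set T : Matrix (Fin g) (Fin g) ℝ := Matrix.of fun a b => pairX q (P a) (P b) with hT
  have hTs : T.PosSemidef := by
    refine Matrix.PosSemidef.of_dotProduct_mulVec_nonneg ?_ ?_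
    · ext a b
      simp [hT, Matrix.conjTranspose_apply, psd_pairX_comm hq (P b) (P a)]
    · intro v
      have h1 := psd_nonneg_of_int (fun a b => pairX q (P a) (P b)) (fun m => by
        rw [← psd_q_Phi hq]; exact h0 _) v
      have h2 : star v ⬝ᵥ T.mulVec v = ∑ a, ∑ b, v a * pairX q (P a) (P b) * v b := by
        simp only [dotProduct, Matrix.mulVec, hT, Matrix.of_apply, Pi.star_apply, star_trivial]
        refine Finset.sum_congr rfl fun a _ => ?_
        rw [Finset.mul_sum]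
        refine Finset.sum_congr rfl fun b _ => ?_
        ring
      rw [h2]
      exact h1
  obtain ⟨B, hB⟩ := CStarAlgebra.nonneg_iff_eq_star_mul_self.mp hTs.nonneg
  have hTB : ∀ a b, pairX q (P a) (P b) = ∑ k, B k a * B k b := by
    intro a b
    have h1 : T a b = (star B * B) a b := by rw [← hB]
    rw [Matrix.mul_apply] at h1
    simpa [hT, Matrix.star_apply] using h1
  rw [psd_q_Phi hq]
  have e1 : ∑ a, ∑ b, (ℓ a : ℝ) * pairX q (P a) (P b) * ℓ b
      = ∑ k, (∑ a, (ℓ a : ℝ) * B k a) ^ 2 := by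
    simp only [hTB]
    calc ∑ a, ∑ b, (ℓ a : ℝ) * (∑ k, B k a * B k b) * ℓ b
        = ∑ a, ∑ b, ∑ k, ((ℓ a : ℝ) * B k a) * (ℓ b * B k b) := by
          refine Finset.sum_congr rfl fun a _ => Finset.sum_congr rfl fun b _ => ?_
          rw [Finset.mul_sum, Finset.sum_mul]
          exact Finset.sum_congr rfl fun k _ => by ring
      _ = ∑ a, ∑ k, ∑ b, ((ℓ a : ℝ) * B k a) * (ℓ b * B k b) :=
          Finset.sum_congr rfl fun a _ => Finset.sum_comm
      _ = ∑ k, ∑ a, ∑ b, ((ℓ a : ℝ) * B k a) * (ℓ b * B k b) := Finset.sum_comm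
      _ = ∑ k, (∑ a, (ℓ a : ℝ) * B k a) ^ 2 := by
          refine Finset.sum_congr rfl fun k _ => ?_
          rw [sq, Finset.sum_mul_sum]
  have e2 : ∑ a, ∑ b, (M a b : ℝ) * pairX q (P a) (P b)
      = ∑ k, ∑ a, ∑ b, B k a * M a b * B k b := by
    simp only [hTB]
    calc ∑ a, ∑ b, (M a b : ℝ) * (∑ k, B k a * B k b)
        = ∑ a, ∑ b, ∑ k, B k a * M a b * B k b := by
          refine Finset.sum_congr rfl fun a _ => Finset.sum_congr rfl fun b _ => ?_
          rw [Finset.mul_sum]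
          exact Finset.sum_congr rfl fun k _ => by ring
      _ = ∑ a, ∑ k, ∑ b, B k a * M a b * B k b :=
          Finset.sum_congr rfl fun a _ => Finset.sum_comm
      _ = ∑ k, ∑ a, ∑ b, B k a * M a b * B k b := Finset.sum_comm
  rw [e1, e2, Finset.mul_sum]
  exact Finset.sum_le_sum fun k _ => hℓ (B k)

end LangForms
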