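import Pool.Agent.Lib_MP_f5471b_nt.Defs

/-! # A ramified prime has a nontrivial inertia group -/

namespace LangForms

open Height NumberField WeierstrassCurve Topology Filter IsDedekindDomain

theorem exists_above {K F : Type} [Field K] [NumberField K] [Field F] [NumberField F]
    [Algebra K F] [IsGalois K F] (p : Ideal (𝓞 K)) (hp : p.IsMaximal) (hp0 : p ≠ ⊥)
    (hram : ¬ Algebra.IsUnramifiedIn (𝓞 F) p) :
    ∃ v : HeightOneSpectrum (𝓞 F), v.asIdeal.comap (algebraMap (𝓞 K) (𝓞 F)) = p ∧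
      (∃ σ : F ≃ₐ[K] F, σ ≠ 1 ∧ InIn v σ) ∧ Ideal.absNorm p ≤ Ideal.absNorm v.asIdeal := by
  have hG : IsGaloisGroup (F ≃ₐ[K] F) (𝓞 K) (𝓞 F) := IsGaloisGroup.of_isFractionRing _ _ _ K F
  unfold Algebra.IsUnramifiedIn at hram
  push Not at hram
  obtain ⟨P, hP, hPp, hP1⟩ := hram
  have hpP : p.IsPrime := hp.isPrime
  have hfin : Finite (𝓞 K ⧸ p) := Ideal.finiteQuotientOfFreeOfNeBot p hp0
  have hbij := Ideal.bijective_algebraMap_quotient_residueField p
  have hfin2 : Finite p.ResidueField := Finite.of_surjective _ hbij.2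
  have hperf : PerfectField p.ResidueField := inferInstance
  have hcard : Nat.card (P.inertia (F ≃ₐ[K] F)) = P.ramificationIdx (𝓞 K) := by
    rw [Ideal.card_inertia_eq_ramificationIdxIn p P,
      Ideal.ramificationIdxIn_eq_ramificationIdx p P (F ≃ₐ[K] F)]
  have hne : P.ramificationIdx (𝓞 K) ≠ 1 := by
    rw [Ne, Ideal.ramificationIdx_eq_one_iff]
    exact hP1
  rw [← hcard] at hne
  have hPbot : P ≠ ⊥ := Ideal.ne_bot_of_liesOver_of_ne_bot hp0 P
  refine ⟨⟨P, hP, hPbot⟩, ?_, ?_, ?_⟩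
  · exact hPp.over.symm
  · have : ¬ Subsingleton (P.inertia (F ≃ₐ[K] F)) := by
      intro hs
      apply hne
      exact Nat.card_eq_one_iff_unique.2 ⟨hs, ⟨1⟩⟩
    rw [not_subsingleton_iff_nontrivial] at this
    obtain ⟨⟨σ, hσ⟩, hσ1⟩ := exists_ne (1 : P.inertia (F ≃ₐ[K] F))
    refine ⟨σ, fun h => hσ1 (Subtype.ext h), ?_⟩
    intro z
    have h1 := hσ z
    have h2 : (σ (z : F) - (z : F)) = ((σ • z - z : 𝓞 F) : F) := rfl
    rw [h2]
    exact (HeightOneSpectrum.valuation_lt_one_iff_mem (K := F) ⟨P, hP, hPbot⟩ _).2 h1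
  · change Ideal.absNorm p ≤ Ideal.absNorm P
    rw [Ideal.absNorm_eq_pow_inertiaDeg'_of_liesOver P p hpP hp0]
    refine Nat.le_self_pow ?_ _
    exact (Ideal.inertiaDeg'_pos p P).ne'

end LangForms
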