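import Pool.Agent.Lib_MP_f5471b_nt.Defs

/-!
# MP_f5471b_nt: local bounds for the addition-and-subtraction map
-/

set_option linter.unusedVariables false

namespace LangForms

open Height NumberField WeierstrassCurve Topology Filter IsDedekindDomain

namespace Loc

section arch

variable {F : Type} [Field F] (v : AbsoluteValue F ℝ)

theorem bd_add {a b : F} {A B : ℝ} (ha : v a ≤ A) (hb : v b ≤ B) : v (a + b) ≤ A + B :=
  (v.add_le a b).trans (add_le_add ha hb)

theorem bd_neg {a : F} {A : ℝ} (ha : v a ≤ A) : v (-a) ≤ A := by rwa [v.map_neg]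

theorem bd_sub {a b : F} {A B : ℝ} (ha : v a ≤ A) (hb : v b ≤ B) : v (a - b) ≤ A + B := by
  rw [sub_eq_add_neg]
  exact bd_add v ha (bd_neg v hb)

theorem bd_mul {a b : F} {A B : ℝ} (ha : v a ≤ A) (hb : v b ≤ B) : v (a * b) ≤ A * B := by
  rw [v.map_mul]
  exact mul_le_mul ha hb (v.nonneg _) ((v.nonneg _).trans ha)

theorem bd_pow {a : F} {A : ℝ} (n : ℕ) (ha : v a ≤ A) : v (a ^ n) ≤ A ^ n := by
  rw [v.map_pow]
  exact pow_le_pow_left₀ (v.nonneg _) ha n

theorem bd_nat (n : ℕ) : v (n : F) ≤ n := by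
  induction n with
  | zero => simp
  | succ n ih =>
    push_cast
    exact bd_add v ih (by rw [v.map_one])

theorem bd_num (n : ℕ) [n.AtLeastTwo] : v (OfNat.ofNat n : F) ≤ (OfNat.ofNat n : ℝ) := by
  have h := bd_nat v n
  rw [← Nat.cast_ofNat (R := F), ← Nat.cast_ofNat (R := ℝ)]
  exact h

variable (hv : IsNonarchimedean v)

include hv in
theorem na_add {a b : F} {A B : ℝ} (ha : v a ≤ A) (hb : v b ≤ B) : v (a + b) ≤ max A B :=
  (hv a b).trans (max_le_max ha hb)

include hv in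
theorem na_sub {a b : F} {A B : ℝ} (ha : v a ≤ A) (hb : v b ≤ B) : v (a - b) ≤ max A B := by
  rw [sub_eq_add_neg]
  exact na_add v hv ha (bd_neg v hb)

include hv in
theorem na_nat (n : ℕ) : v (n : F) ≤ 1 := by
  induction n with
  | zero => simp
  | succ n ih =>
    push_cast
    exact (na_add v hv ih (v.map_one.le)).trans (max_le le_rfl le_rfl)

include hv in
theorem na_num (n : ℕ) [n.AtLeastTwo] : v (OfNat.ofNat n : F) ≤ 1 := by
  have h := na_nat v hv n
  rw [← Nat.cast_ofNat (R := F)]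
  exact h

end arch

/-- The sum of the supremum. -/
theorem le_sup {F : Type} [Field F] (v : AbsoluteValue F ℝ) {n : ℕ} (x : Fin n → F) (i : Fin n) :
    v (x i) ≤ ⨆ i, v (x i) :=
  le_ciSup (f := fun i => v (x i)) (Set.finite_range _).bddAbove i

theorem sup_nonneg {F : Type} [Field F] (v : AbsoluteValue F ℝ) {n : ℕ} (x : Fin n → F) :
    0 ≤ ⨆ i, v (x i) := Real.iSup_nonneg fun i => v.nonneg _

section bounds

variable {F : Type} [Field F] (v : AbsoluteValue F ℝ) (W : WeierstrassCurve F)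

theorem one_le_A : 1 ≤ ⨆ i, v (cvec W i) := by
  have h := le_sup v (cvec W) 0
  have e : cvec W 0 = 1 := rfl
  rwa [e, v.map_one] at h

theorem a1_le : v W.a₁ ≤ ⨆ i, v (cvec W i) := le_sup v (cvec W) 1
theorem a2_le : v W.a₂ ≤ ⨆ i, v (cvec W i) := le_sup v (cvec W) 2
theorem a3_le : v W.a₃ ≤ ⨆ i, v (cvec W i) := le_sup v (cvec W) 3
theorem a4_le : v W.a₄ ≤ ⨆ i, v (cvec W i) := le_sup v (cvec W) 4
theorem a6_le : v W.a₆ ≤ ⨆ i, v (cvec W i) := le_sup v (cvec W) 5

/-- archimedean bounds for the `b`'s -/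
theorem b_arch : v W.b₂ ≤ 8 * (⨆ i, v (cvec W i)) ^ 3 ∧ v W.b₄ ≤ 8 * (⨆ i, v (cvec W i)) ^ 3 ∧
    v W.b₆ ≤ 8 * (⨆ i, v (cvec W i)) ^ 3 ∧ v W.b₈ ≤ 8 * (⨆ i, v (cvec W i)) ^ 3 := by
  have hA := one_le_A v W
  have h1 := a1_le v W
  have h2 := a2_le v W
  have h3 := a3_le v W
  have h4 := a4_le v W
  have h6 := a6_le v W
  generalize (⨆ i, v (cvec W i)) = A at *
  have e1 : A ≤ A ^ 3 := by nlinarith [mul_nonneg (sub_nonneg.mpr hA) (sub_nonneg.mpr hA)]
  have e2 : A ^ 2 ≤ A ^ 3 := by nlinarith [mul_nonneg (sub_nonneg.mpr hA) (sq_nonneg A)]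
  refine ⟨?_, ?_, ?_, ?_⟩
  · unfold WeierstrassCurve.b₂
    apply le_trans
    · repeat first
        | exact h1 | exact h2 | exact h3 | exact h4 | exact h6
        | apply bd_add | apply bd_sub | apply bd_mul | apply bd_pow | apply bd_neg | apply bd_num
    · linarith
  · unfold WeierstrassCurve.b₄
    apply le_trans
    · repeat first
        | exact h1 | exact h2 | exact h3 | exact h4 | exact h6
        | apply bd_add | apply bd_sub | apply bd_mul | apply bd_pow | apply bd_neg | apply bd_num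
    · linarith
  · unfold WeierstrassCurve.b₆
    apply le_trans
    · repeat first
        | exact h1 | exact h2 | exact h3 | exact h4 | exact h6
        | apply bd_add | apply bd_sub | apply bd_mul | apply bd_pow | apply bd_neg | apply bd_num
    · linarith
  · unfold WeierstrassCurve.b₈
    apply le_trans
    · repeat first
        | exact h1 | exact h2 | exact h3 | exact h4 | exact h6
        | apply bd_add | apply bd_sub | apply bd_mul | apply bd_pow | apply bd_neg | apply bd_num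
    · linarith

/-- nonarchimedean bounds for the `b`'s -/
theorem b_na (hv : IsNonarchimedean v) :
    v W.b₂ ≤ (⨆ i, v (cvec W i)) ^ 3 ∧ v W.b₄ ≤ (⨆ i, v (cvec W i)) ^ 3 ∧
    v W.b₆ ≤ (⨆ i, v (cvec W i)) ^ 3 ∧ v W.b₈ ≤ (⨆ i, v (cvec W i)) ^ 3 := by
  have hA := one_le_A v W
  have h1 := a1_le v W
  have h2 := a2_le v W
  have h3 := a3_le v W
  have h4 := a4_le v W
  have h6 := a6_le v W
  generalize (⨆ i, v (cvec W i)) = A at *
  have e1 : A ≤ A ^ 3 := by nlinarith [mul_nonneg (sub_nonneg.mpr hA) (sub_nonneg.mpr hA)]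
  have e2 : A ^ 2 ≤ A ^ 3 := by nlinarith [mul_nonneg (sub_nonneg.mpr hA) (sq_nonneg A)]
  refine ⟨?_, ?_, ?_, ?_⟩
  · unfold WeierstrassCurve.b₂
    apply le_trans
    · repeat first
        | exact h1 | exact h2 | exact h3 | exact h4 | exact h6
        | apply na_add v hv | apply na_sub v hv | apply bd_mul | apply bd_pow | apply bd_neg
        | apply na_num v hv
    · simp only [max_le_iff]
      refine ⟨?_, ?_⟩ <;> linarith
  · unfold WeierstrassCurve.b₄
    apply le_trans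
    · repeat first
        | exact h1 | exact h2 | exact h3 | exact h4 | exact h6
        | apply na_add v hv | apply na_sub v hv | apply bd_mul | apply bd_pow | apply bd_neg
        | apply na_num v hv
    · simp only [max_le_iff]
      refine ⟨?_, ?_⟩ <;> linarith
  · unfold WeierstrassCurve.b₆
    apply le_trans
    · repeat first
        | exact h1 | exact h2 | exact h3 | exact h4 | exact h6
        | apply na_add v hv | apply na_sub v hv | apply bd_mul | apply bd_pow | apply bd_neg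
        | apply na_num v hv
    · simp only [max_le_iff]
      refine ⟨?_, ?_⟩ <;> linarith
  · unfold WeierstrassCurve.b₈
    apply le_trans
    · repeat first
        | exact h1 | exact h2 | exact h3 | exact h4 | exact h6
        | apply na_add v hv | apply na_sub v hv | apply bd_mul | apply bd_pow | apply bd_neg
        | apply na_num v hv
    · simp only [max_le_iff]
      refine ⟨⟨⟨⟨?_, ?_⟩, ?_⟩, ?_⟩, ?_⟩ <;> linarith

/-- archimedean bound for the values of `addSubMap` -/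
theorem map_arch (x : Fin 3 → F) {B X : ℝ} (hB : 1 ≤ B) (h2 : v W.b₂ ≤ B) (h4 : v W.b₄ ≤ B)
    (h6 : v W.b₆ ≤ B) (h8 : v W.b₈ ≤ B) (hx : ∀ i, v (x i) ≤ X) (i : Fin 3) :
    v ((addSubMap W i).eval x) ≤ 5 * B * X ^ 2 := by
  have hX : 0 ≤ X := (v.nonneg _).trans (hx 0)
  have h0 := hx 0
  have h1 := hx 1
  have h2' := hx 2
  have e0 : X ^ 2 ≤ B * X ^ 2 := by nlinarith [mul_nonneg (sub_nonneg.mpr hB) (sq_nonneg X)]
  fin_cases i <;> simp [addSubMap]
  · apply le_trans
    · repeat first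
        | exact h0 | exact h1 | exact h2' | exact h2 | exact h4 | exact h6 | exact h8
        | apply bd_add | apply bd_sub | apply bd_mul | apply bd_pow | apply bd_neg | apply bd_num
    · linarith [mul_nonneg (zero_le_one.trans hB) (sq_nonneg X)]
  · apply le_trans
    · repeat first
        | exact h0 | exact h1 | exact h2' | exact h2 | exact h4 | exact h6 | exact h8
        | apply bd_add | apply bd_sub | apply bd_mul | apply bd_pow | apply bd_neg | apply bd_num
    · linarith [mul_nonneg (zero_le_one.trans hB) (sq_nonneg X)]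
  · apply le_trans
    · repeat first
        | exact h0 | exact h1 | exact h2' | exact h2 | exact h4 | exact h6 | exact h8
        | apply bd_add | apply bd_sub | apply bd_mul | apply bd_pow | apply bd_neg | apply bd_num
    · linarith [mul_nonneg (zero_le_one.trans hB) (sq_nonneg X)]

theorem map_na (hv : IsNonarchimedean v) (x : Fin 3 → F) {B X : ℝ} (hB : 1 ≤ B)
    (h2 : v W.b₂ ≤ B) (h4 : v W.b₄ ≤ B)
    (h6 : v W.b₆ ≤ B) (h8 : v W.b₈ ≤ B) (hx : ∀ i, v (x i) ≤ X) (i : Fin 3) :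
    v ((addSubMap W i).eval x) ≤ B * X ^ 2 := by
  have hX : 0 ≤ X := (v.nonneg _).trans (hx 0)
  have h0 := hx 0
  have h1 := hx 1
  have h2' := hx 2
  have e0 : X ^ 2 ≤ B * X ^ 2 := by nlinarith [mul_nonneg (sub_nonneg.mpr hB) (sq_nonneg X)]
  fin_cases i <;> simp [addSubMap]
  · apply le_trans
    · repeat first
        | exact h0 | exact h1 | exact h2' | exact h2 | exact h4 | exact h6 | exact h8
        | apply na_add v hv | apply na_sub v hv | apply bd_mul | apply bd_pow | apply bd_neg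
        | apply na_num v hv
    · simp only [max_le_iff]
      refine ⟨⟨⟨?_, ?_⟩, ?_⟩, ?_⟩ <;> linarith
  · apply le_trans
    · repeat first
        | exact h0 | exact h1 | exact h2' | exact h2 | exact h4 | exact h6 | exact h8
        | apply na_add v hv | apply na_sub v hv | apply bd_mul | apply bd_pow | apply bd_neg
        | apply na_num v hv
    · simp only [max_le_iff]
      refine ⟨⟨⟨?_, ?_⟩, ?_⟩, ?_⟩ <;> linarith
  · apply le_trans
    · repeat first
        | exact h0 | exact h1 | exact h2' | exact h2 | exact h4 | exact h6 | exact h8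
        | apply na_add v hv | apply na_sub v hv | apply bd_mul | apply bd_pow | apply bd_neg
        | apply na_num v hv
    · simp only [max_le_iff]
      refine ⟨?_, ?_⟩ <;> linarith

/-- archimedean bound for the values of `addSubMapCoeff` -/
theorem coeff_arch (x : Fin 3 → F) {B X : ℝ} (hB : 1 ≤ B) (h2 : v W.b₂ ≤ B) (h4 : v W.b₄ ≤ B)
    (h6 : v W.b₆ ≤ B) (h8 : v W.b₈ ≤ B) (hx : ∀ i, v (x i) ≤ X) (i j : Fin 3) :
    v ((addSubMapCoeff W (i, j)).eval x) ≤ 1000 * B ^ 3 * X ^ 2 := by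
  have hX : 0 ≤ X := (v.nonneg _).trans (hx 0)
  have h0 := hx 0
  have h1 := hx 1
  have h2' := hx 2
  have g1 : 1 ≤ B ^ 3 := one_le_pow₀ hB
  have g2 : B ≤ B ^ 3 := by nlinarith [mul_nonneg (sub_nonneg.mpr hB) (sub_nonneg.mpr hB)]
  have g3 : B ^ 2 ≤ B ^ 3 := by nlinarith [mul_nonneg (sub_nonneg.mpr hB) (sq_nonneg B)]
  have e0 := mul_le_mul_of_nonneg_right g1 (sq_nonneg X)
  have e1 := mul_le_mul_of_nonneg_right g2 (sq_nonneg X)
  have e2 := mul_le_mul_of_nonneg_right g3 (sq_nonneg X)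
  have e3 : 0 ≤ B ^ 3 * X ^ 2 := by positivity
  clear hB hx g1 g2 g3
  fin_cases i <;> fin_cases j <;> simp [addSubMapCoeff] <;> apply le_trans
  all_goals
    try (repeat first
        | exact h0 | exact h1 | exact h2' | exact h2 | exact h4 | exact h6 | exact h8
        | apply bd_add | apply bd_sub | apply bd_mul | apply bd_pow | apply bd_neg | apply bd_num)
  all_goals linarith

theorem coeff_na (hv : IsNonarchimedean v) (x : Fin 3 → F) {B X : ℝ} (hB : 1 ≤ B)
    (h2 : v W.b₂ ≤ B) (h4 : v W.b₄ ≤ B)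
    (h6 : v W.b₆ ≤ B) (h8 : v W.b₈ ≤ B) (hx : ∀ i, v (x i) ≤ X) (i j : Fin 3) :
    v ((addSubMapCoeff W (i, j)).eval x) ≤ B ^ 3 * X ^ 2 := by
  have hX : 0 ≤ X := (v.nonneg _).trans (hx 0)
  have h0 := hx 0
  have h1 := hx 1
  have h2' := hx 2
  have g1 : 1 ≤ B ^ 3 := one_le_pow₀ hB
  have g2 : B ≤ B ^ 3 := by nlinarith [mul_nonneg (sub_nonneg.mpr hB) (sub_nonneg.mpr hB)]
  have g3 : B ^ 2 ≤ B ^ 3 := by nlinarith [mul_nonneg (sub_nonneg.mpr hB) (sq_nonneg B)]
  have e0 := mul_le_mul_of_nonneg_right g1 (sq_nonneg X)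
  have e1 := mul_le_mul_of_nonneg_right g2 (sq_nonneg X)
  have e2 := mul_le_mul_of_nonneg_right g3 (sq_nonneg X)
  have e3 : 0 ≤ B ^ 3 * X ^ 2 := by positivity
  clear hB hx g1 g2 g3
  fin_cases i <;> fin_cases j <;> simp [addSubMapCoeff] <;>
    simp only [add_mul, sub_mul, neg_mul] <;> apply le_trans
  all_goals
    try (repeat first
        | exact h0 | exact h1 | exact h2' | exact h2 | exact h4 | exact h6 | exact h8
        | apply na_add v hv | apply na_sub v hv | apply bd_mul | apply bd_pow | apply bd_neg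
        | apply na_num v hv)
  all_goals
    simp only [max_le_iff]
    repeat' apply And.intro
  all_goals linarith

/-- the identity behind the lower bounds -/
theorem delta_identity [W.IsElliptic] (x : Fin 3 → F) (i : Fin 3) :
    W.Δ * x i ^ 4 = ∑ j : Fin 3, (addSubMapCoeff W (i, j)).eval x * (addSubMap W j).eval x := by
  have h := addSubMapCoeff_condition W x i
  rw [← h, Finset.mul_sum]
  refine Finset.sum_congr rfl fun j _ => ?_
  rw [MvPolynomial.eval_mul, MvPolynomial.eval_C, ← W.coe_Δ']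
  rw [← mul_assoc, ← mul_assoc, Units.mul_inv, one_mul]

/-- cancellation -/
theorem cancel (D X K Y : ℝ) (hX : 0 ≤ X) (hK : 0 ≤ K) (hY : 0 ≤ Y)
    (h : D * X ^ 4 ≤ K * X ^ 2 * Y) : D * X ^ 2 ≤ K * Y := by
  rcases hX.eq_or_lt with h0 | h0
  · rw [← h0]
    simpa using mul_nonneg hK hY
  · have h2 : 0 < X ^ 2 := by positivity
    have h3 : X ^ 2 * (D * X ^ 2) ≤ X ^ 2 * (K * Y) := by nlinarith
    exact le_of_mul_le_mul_left h3 h2

end bounds

end Loc

open Loc

theorem arch_upper : ∃ C : ℝ, 1 ≤ C ∧ ∀ (F : Type) [Field F] (v : AbsoluteValue F ℝ)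
    (W : WeierstrassCurve F) (x : Fin 3 → F),
    (⨆ i, v ((addSubMap W i).eval x)) ≤ C * (⨆ i, v (cvec W i)) ^ 3 * (⨆ i, v (x i)) ^ 2 := by
  refine ⟨40, by norm_num, ?_⟩
  intro F _ v W x
  obtain ⟨h2, h4, h6, h8⟩ := b_arch v W
  have hA := one_le_A v W
  have hB : 1 ≤ 8 * (⨆ i, v (cvec W i)) ^ 3 := by
    have := one_le_pow₀ hA (n := 3)
    linarith
  apply ciSup_le
  intro i
  refine (map_arch v W x hB h2 h4 h6 h8 (fun i => le_sup v x i) i).trans (le_of_eq ?_)
  ring

theorem fin_upper (F : Type) [Field F] (v : AbsoluteValue F ℝ) (hv : IsNonarchimedean v)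
    (W : WeierstrassCurve F) (x : Fin 3 → F) :
    (⨆ i, v ((addSubMap W i).eval x)) ≤ (⨆ i, v (cvec W i)) ^ 3 * (⨆ i, v (x i)) ^ 2 := by
  obtain ⟨h2, h4, h6, h8⟩ := b_na v W hv
  have hA := one_le_A v W
  apply ciSup_le
  intro i
  exact map_na v W hv x (one_le_pow₀ hA) h2 h4 h6 h8 (fun i => le_sup v x i) i

theorem arch_lower : ∃ C : ℝ, 1 ≤ C ∧ ∀ (F : Type) [Field F] (v : AbsoluteValue F ℝ)
    (W : WeierstrassCurve F) [W.IsElliptic] (x : Fin 3 → F),
    v W.Δ * (⨆ i, v (x i)) ^ 2 ≤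
      C * (⨆ i, v (cvec W i)) ^ 9 * (⨆ i, v ((addSubMap W i).eval x)) := by
  refine ⟨3 * (1000 * 8 ^ 3), by norm_num, ?_⟩
  intro F _ v W _ x
  obtain ⟨h2, h4, h6, h8⟩ := b_arch v W
  have hA := one_le_A v W
  have hB : 1 ≤ 8 * (⨆ i, v (cvec W i)) ^ 3 := by
    have := one_le_pow₀ hA (n := 3)
    linarith
  set A := ⨆ i, v (cvec W i) with hAdef
  set X := ⨆ i, v (x i) with hX
  have hX0 : 0 ≤ X := sup_nonneg v x
  set Y := ⨆ i, v ((addSubMap W i).eval x) with hY
  have hY0 : 0 ≤ Y := sup_nonneg v fun i => (addSubMap W i).eval x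
  have hYi : ∀ j, v ((addSubMap W j).eval x) ≤ Y := fun j =>
    le_sup v (fun i => (addSubMap W i).eval x) j
  have hmain : ∀ i, v W.Δ * v (x i) ^ 4 ≤ 3 * (1000 * 8 ^ 3) * A ^ 9 * X ^ 2 * Y := by
    intro i
    rw [← v.map_pow, ← v.map_mul, delta_identity]
    have hc : ∀ j, v ((addSubMapCoeff W (i, j)).eval x * (addSubMap W j).eval x) ≤
        1000 * (8 * A ^ 3) ^ 3 * X ^ 2 * Y := fun j =>
      bd_mul v (coeff_arch v W x hB h2 h4 h6 h8 (fun i => le_sup v x i) i j) (hYi j)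
    rw [Fin.sum_univ_three]
    refine (bd_add v (bd_add v (hc 0) (hc 1)) (hc 2)).trans (le_of_eq ?_)
    ring
  obtain ⟨i, hi⟩ : ∃ i, v (x i) = X := by
    obtain ⟨i, hi⟩ := exists_eq_ciSup_of_finite (f := fun i => v (x i))
    exact ⟨i, hi⟩
  have h := hmain i
  rw [hi] at h
  exact cancel (v W.Δ) X _ Y hX0 (by positivity) hY0 h

theorem fin_lower (F : Type) [Field F] (v : AbsoluteValue F ℝ) (hv : IsNonarchimedean v)
    (W : WeierstrassCurve F) [W.IsElliptic] (x : Fin 3 → F) :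
    v W.Δ * (⨆ i, v (x i)) ^ 2 ≤
      (⨆ i, v (cvec W i)) ^ 9 * (⨆ i, v ((addSubMap W i).eval x)) := by
  obtain ⟨h2, h4, h6, h8⟩ := b_na v W hv
  have hA := one_le_A v W
  set A := ⨆ i, v (cvec W i) with hAdef
  set X := ⨆ i, v (x i) with hX
  have hX0 : 0 ≤ X := sup_nonneg v x
  set Y := ⨆ i, v ((addSubMap W i).eval x) with hY
  have hY0 : 0 ≤ Y := sup_nonneg v fun i => (addSubMap W i).eval x
  have hYi : ∀ j, v ((addSubMap W j).eval x) ≤ Y := fun j =>
    le_sup v (fun i => (addSubMap W i).eval x) j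
  have hmain : ∀ i, v W.Δ * v (x i) ^ 4 ≤ A ^ 9 * X ^ 2 * Y := by
    intro i
    rw [← v.map_pow, ← v.map_mul, delta_identity]
    have hc : ∀ j, v ((addSubMapCoeff W (i, j)).eval x * (addSubMap W j).eval x) ≤
        (A ^ 3) ^ 3 * X ^ 2 * Y := fun j =>
      bd_mul v (coeff_na v W hv x (one_le_pow₀ hA) h2 h4 h6 h8 (fun i => le_sup v x i) i j)
        (hYi j)
    rw [Fin.sum_univ_three]
    refine (na_add v hv (na_add v hv (hc 0) (hc 1)) (hc 2)).trans ?_
    simp only [max_self]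
    refine le_of_eq ?_
    ring
  obtain ⟨i, hi⟩ : ∃ i, v (x i) = X := by
    obtain ⟨i, hi⟩ := exists_eq_ciSup_of_finite (f := fun i => v (x i))
    exact ⟨i, hi⟩
  have h := hmain i
  rw [hi] at h
  exact cancel (v W.Δ) X _ Y hX0 (by positivity) hY0 h

end LangForms
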