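import Pool.Agent.Lib_MP_f5471b_nt.Defs

/-!
Piece LOC: local inequalities at all places of a number field give an inequality of heights.
-/

namespace LangForms

open Height NumberField WeierstrassCurve Topology Filter IsDedekindDomain Function

namespace LocGlobAux

variable {F : Type} [Field F] [NumberField F]

lemma hfm {ι : Type} [Finite ι] {x : ι → F} (hx : x ≠ 0) :
    (fun v : FinitePlace F ↦ ⨆ i, v (x i)).HasFiniteMulSupport := by
  have : Nonempty {j // x j ≠ 0} := nonempty_subtype.mpr <| ne_iff.mp hx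
  suffices (fun v : FinitePlace F ↦ ⨆ i : {j // x j ≠ 0}, v (x i)).HasFiniteMulSupport by
    convert! this with v
    obtain ⟨i, hi⟩ : ∃ j, x j ≠ 0 := Function.ne_iff.mp hx
    have : Nonempty ι := .intro i
    refine le_antisymm (ciSup_le fun j ↦ ?_) (ciSup_le fun ⟨j, hj⟩ ↦ Finite.le_ciSup_of_le j le_rfl)
    rcases eq_or_ne (x j) 0 with h | h
    · rw [h, map_zero]
      exact Real.iSup_nonneg' ⟨⟨i, hi⟩, apply_nonneg v _⟩
    · exact Finite.le_ciSup_of_le ⟨j, h⟩ le_rfl
  exact Function.HasFiniteMulSupport.iSup fun i => FinitePlace.hasFiniteMulSupport i.2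

lemma hfmp {ι : Type} [Finite ι] {x : ι → F} (hx : x ≠ 0) (n : ℕ) :
    (fun v : FinitePlace F ↦ (⨆ i, v (x i)) ^ n).HasFiniteMulSupport :=
  (hfm hx).pow n

omit [NumberField F] in
lemma sup_pos_inf {ι : Type} [Finite ι] {x : ι → F} (hx : x ≠ 0) (v : InfinitePlace F) :
    0 < ⨆ i, v (x i) := by
  obtain ⟨i, hi⟩ : ∃ j, x j ≠ 0 := Function.ne_iff.mp hx
  exact lt_of_lt_of_le (v.pos_iff.mpr hi) (Finite.le_ciSup_of_le i le_rfl)

lemma sup_pos_fin {ι : Type} [Finite ι] {x : ι → F} (hx : x ≠ 0) (v : FinitePlace F) :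
    0 < ⨆ i, v (x i) := by
  obtain ⟨i, hi⟩ : ∃ j, x j ≠ 0 := Function.ne_iff.mp hx
  exact lt_of_lt_of_le (v.pos_iff.mpr hi) (Finite.le_ciSup_of_le i le_rfl)

end LocGlobAux

open LocGlobAux in
theorem logHeight_le_of_local {F : Type} [Field F] [NumberField F] {ι ι' κ : Type} [Finite ι]
    [Finite ι'] [Finite κ] (x : ι → F) (y : ι' → F) (a : κ → F) (D : F)
    (hx : x ≠ 0) (hy : y ≠ 0) (ha : a ≠ 0) (hD : D ≠ 0) (N N' k : ℕ) (C : ℝ) (hC : 1 ≤ C)
    (harch : ∀ v : InfinitePlace F,
      v D * (⨆ i, v (x i)) ^ N ≤ C * (⨆ i, v (a i)) ^ k * (⨆ j, v (y j)) ^ N')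
    (hfin : ∀ v : FinitePlace F,
      v D * (⨆ i, v (x i)) ^ N ≤ (⨆ i, v (a i)) ^ k * (⨆ j, v (y j)) ^ N') :
    N * logHeight x ≤
      Module.finrank ℚ F * Real.log C + k * logHeight a + N' * logHeight y := by
  have hC0 : 0 < C := by linarith
  have key : mulHeight x ^ N ≤ C ^ (Module.finrank ℚ F) * mulHeight a ^ k * mulHeight y ^ N' := by
    have h1 := prod_abs_eq_one (K := F) hD
    have e1 : mulHeight x ^ N = (∏ v : InfinitePlace F, (v D * (⨆ i, v (x i)) ^ N) ^ v.mult) *
        ∏ᶠ v : FinitePlace F, (v D * (⨆ i, v (x i)) ^ N) := by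
      rw [finprod_mul_distrib (FinitePlace.hasFiniteMulSupport hD) (hfmp hx N),
        ← finprod_pow (hfm hx)]
      simp only [mul_pow, Finset.prod_mul_distrib]
      rw [mul_mul_mul_comm, h1, one_mul, NumberField.mulHeight_eq hx, mul_pow,
        ← Finset.prod_pow]
      congr 1
      refine Finset.prod_congr rfl fun v _ => ?_
      ring
    have e2 : C ^ (Module.finrank ℚ F) * mulHeight a ^ k * mulHeight y ^ N' =
        (∏ v : InfinitePlace F, (C * (⨆ i, v (a i)) ^ k * (⨆ j, v (y j)) ^ N') ^ v.mult) *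
        ∏ᶠ v : FinitePlace F, ((⨆ i, v (a i)) ^ k * (⨆ j, v (y j)) ^ N') := by
      rw [finprod_mul_distrib (hfmp ha k) (hfmp hy N'),
        ← finprod_pow (hfm ha), ← finprod_pow (hfm hy)]
      simp only [mul_pow, Finset.prod_mul_distrib]
      rw [NumberField.mulHeight_eq ha, NumberField.mulHeight_eq hy,
        ← InfinitePlace.sum_mult_eq, Finset.prod_pow_eq_pow_sum]
      have p1 : ∀ n : ℕ, ∀ g : InfinitePlace F → ℝ,
          ∏ v : InfinitePlace F, (g v ^ n) ^ v.mult = (∏ v : InfinitePlace F, g v ^ v.mult) ^ n := by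
        intro n g
        rw [← Finset.prod_pow]
        refine Finset.prod_congr rfl fun v _ => ?_
        ring
      rw [p1, p1]
      ring
    rw [e1, e2]
    have pi : ∀ v : InfinitePlace F, 0 ≤ v D * (⨆ i, v (x i)) ^ N := fun v =>
      mul_nonneg (apply_nonneg v _) (pow_nonneg (sup_pos_inf hx v).le _)
    have pf : ∀ v : FinitePlace F, 0 ≤ v D * (⨆ i, v (x i)) ^ N := fun v =>
      mul_nonneg (apply_nonneg v _) (pow_nonneg (sup_pos_fin hx v).le _)
    refine mul_le_mul ?_ ?_ (finprod_nonneg pf) ?_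
    · exact Finset.prod_le_prod (fun v _ => pow_nonneg (pi v) _)
        fun v _ => pow_le_pow_left₀ (pi v) (harch v) _
    · refine finprod_le_finprod ?_ pf ?_ hfin
      · exact (FinitePlace.hasFiniteMulSupport hD).mul ((hfm hx).pow N)
      · exact ((hfm ha).pow k).mul ((hfm hy).pow N')
    · exact Finset.prod_nonneg fun v _ => pow_nonneg ((pi v).trans (harch v)) _
  have hx0 := mulHeight_pos x
  have ha0 := mulHeight_pos a
  have hy0 := mulHeight_pos y
  have := Real.log_le_log (pow_pos hx0 N) key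
  rw [Real.log_mul (by positivity) (by positivity), Real.log_mul (by positivity) (by positivity),
    Real.log_pow, Real.log_pow, Real.log_pow, Real.log_pow] at this
  exact this

end LangForms
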