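import Pool.Agent.Lib_MP_f5471b_nt.Defs
import Pool.Agent.Lib_MP_f5471b_nt.LocGlob

/-!
Piece SYM: the height of a symmetric product of two vectors of length two, with an explicit
constant.
-/

namespace LangForms

open Height NumberField WeierstrassCurve Topology Filter IsDedekindDomain

namespace Sym2Aux

lemma real_arch {p q r t u Y : ℝ} (_hq : 0 ≤ q) (_hr : 0 ≤ r) (ht : 0 ≤ t) (_hu : 0 ≤ u)
    (h : q * r = p * t) (h1 : q ≤ u + r) (hpY : p ≤ Y) (htY : t ≤ Y) (huY : u ≤ Y) :
    q ≤ 2 * Y := by
  by_contra hc
  push Not at hc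
  have hY : 0 ≤ Y := le_trans ht htY
  have hr' : Y < r := by linarith
  nlinarith [mul_le_mul hpY htY ht hY, mul_pos (lt_of_le_of_lt (by linarith : 0 ≤ 2 * Y) hc)
    (lt_of_le_of_lt hY hr')]

lemma real_fin {p q r t u Y : ℝ} (_hq : 0 ≤ q) (_hr : 0 ≤ r) (ht : 0 ≤ t) (_hu : 0 ≤ u)
    (h : q * r = p * t) (h1 : q ≤ max u r) (hpY : p ≤ Y) (htY : t ≤ Y) (huY : u ≤ Y) :
    q ≤ Y := by
  by_contra hc
  push Not at hc
  have hY : 0 ≤ Y := le_trans ht htY
  have hr' : Y < r := by
    rcases le_max_iff.mp h1 with h2 | h2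
    · linarith
    · linarith
  nlinarith [mul_le_mul hpY htY ht hY, mul_pos (lt_of_le_of_lt hY hc)
    (lt_of_le_of_lt hY hr')]

variable {F : Type}

lemma sup3 (v : F → ℝ) (x y z : F) {B : ℝ} :
    (⨆ i, v (![x, y, z] i)) ≤ B ↔ v x ≤ B ∧ v y ≤ B ∧ v z ≤ B := by
  rw [ciSup_le_iff (Set.finite_range _).bddAbove]
  simp [Fin.forall_fin_succ]

lemma sup4 (v : F → ℝ) (x y z w : F) {B : ℝ} :
    (⨆ i, v (![x, y, z, w] i)) ≤ B ↔ v x ≤ B ∧ v y ≤ B ∧ v z ≤ B ∧ v w ≤ B := by
  rw [ciSup_le_iff (Set.finite_range _).bddAbove]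
  simp [Fin.forall_fin_succ]

end Sym2Aux

open Sym2Aux in
theorem sym2_bound {F : Type} [Field F] [NumberField F] {a b c d : F}
    (hab : ![a, b] ≠ 0) (hcd : ![c, d] ≠ 0) :
    |logHeight ![a * c, a * d + b * c, b * d] - (logHeight ![a, b] + logHeight ![c, d])| ≤
      Module.finrank ℚ F * Real.log 2 := by
  have hprod : logHeight ![a, b] + logHeight ![c, d] =
      logHeight ![a * c, a * d, b * c, b * d] := by
    simp only [logHeight_eq_log_mulHeight]
    rw [← mulHeight_mul_mulHeight hab hcd,
      Real.log_mul (mulHeight_ne_zero _) (mulHeight_ne_zero _)]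
  have hz : ![a * c, a * d, b * c, b * d] ≠ 0 := by
    intro h0
    have h1 : a * c = 0 := congrFun h0 0
    have h2 : a * d = 0 := congrFun h0 1
    have h3 : b * c = 0 := congrFun h0 2
    have h4 : b * d = 0 := congrFun h0 3
    by_cases ha : a = 0
    · by_cases hb : b = 0
      · exact hab (by ext i; fin_cases i <;> simp [ha, hb])
      · exact hcd (by ext i; fin_cases i <;> simp_all)
    · exact hcd (by ext i; fin_cases i <;> simp_all)
  have hs : ![a * c, a * d + b * c, b * d] ≠ 0 := by
    intro h0
    have h1 : a * c = 0 := congrFun h0 0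
    have h2 : a * d + b * c = 0 := congrFun h0 1
    have h3 : b * d = 0 := congrFun h0 2
    by_cases ha : a = 0
    · by_cases hb : b = 0
      · exact hab (by ext i; fin_cases i <;> simp [ha, hb])
      · exact hcd (by ext i; fin_cases i <;> simp_all)
    · have hc : c = 0 := by simpa [ha] using h1
      have hd : d = 0 := by simpa [ha, hc] using h2
      exact hcd (by ext i; fin_cases i <;> simp_all)
  have hone : (![1] : Fin 1 → F) ≠ 0 := by
    intro h0
    have := congrFun h0 0
    simp at this
  have up := logHeight_le_of_local ![a * c, a * d + b * c, b * d] ![a * c, a * d, b * c, b * d]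
    (![1] : Fin 1 → F) 1 hs hz hone one_ne_zero 1 1 0 2 (by norm_num)
    (by
      intro v
      simp only [map_one, one_mul, pow_one, pow_zero, mul_one]
      set Z := ⨆ i, v (![a * c, a * d, b * c, b * d] i) with hZ
      obtain ⟨z1, z2, z3, z4⟩ := (sup4 v (a * c) (a * d) (b * c) (b * d)).mp (le_of_eq hZ.symm)
      have z0 : 0 ≤ Z := le_trans (apply_nonneg v _) z1
      refine (sup3 v _ _ _).mpr ⟨by linarith, ?_, by linarith⟩
      have : v (a * d + b * c) ≤ v (a * d) + v (b * c) := v.val.add_le (a * d) (b * c)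
      linarith)
    (by
      intro v
      simp only [map_one, one_mul, pow_one, pow_zero]
      set Z := ⨆ i, v (![a * c, a * d, b * c, b * d] i) with hZ
      obtain ⟨z1, z2, z3, z4⟩ := (sup4 v (a * c) (a * d) (b * c) (b * d)).mp (le_of_eq hZ.symm)
      refine (sup3 v _ _ _).mpr ⟨z1, ?_, z4⟩
      exact (FinitePlace.add_le v _ _).trans (max_le z2 z3))
  have low := logHeight_le_of_local ![a * c, a * d, b * c, b * d] ![a * c, a * d + b * c, b * d]
    (![1] : Fin 1 → F) 1 hz hs hone one_ne_zero 1 1 0 2 (by norm_num)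
    (by
      intro v
      simp only [map_one, one_mul, pow_one, pow_zero, mul_one]
      set Y := ⨆ i, v (![a * c, a * d + b * c, b * d] i) with hY
      obtain ⟨y1, y2, y3⟩ := (sup3 v (a * c) (a * d + b * c) (b * d)).mp (le_of_eq hY.symm)
      have y0 : 0 ≤ Y := le_trans (apply_nonneg v _) y1
      have e : v (a * d) * v (b * c) = v (a * c) * v (b * d) := by
        rw [← map_mul, ← map_mul]
        congr 1
        ring
      have m1 : v (a * d) ≤ v (a * d + b * c) + v (b * c) := by
        have h : v (a * d + b * c - b * c) ≤ v (a * d + b * c) + v (b * c) := by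
          have h' := v.val.add_le (a * d + b * c) (-(b * c))
          rw [v.val.map_neg, ← sub_eq_add_neg] at h'
          exact h'
        simpa using h
      have m2 : v (b * c) ≤ v (a * d + b * c) + v (a * d) := by
        have h : v (a * d + b * c - a * d) ≤ v (a * d + b * c) + v (a * d) := by
          have h' := v.val.add_le (a * d + b * c) (-(a * d))
          rw [v.val.map_neg, ← sub_eq_add_neg] at h'
          exact h'
        simpa using h
      have n1 := apply_nonneg v (a * d)
      have n2 := apply_nonneg v (b * c)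
      have n3 := apply_nonneg v (b * d)
      have n4 := apply_nonneg v (a * d + b * c)
      exact (sup4 v _ _ _ _).mpr ⟨by linarith, real_arch n1 n2 n3 n4 e m1 y1 y3 y2,
        real_arch n2 n1 n3 n4 (by rw [mul_comm]; exact e) m2 y1 y3 y2, by linarith⟩)
    (by
      intro v
      simp only [map_one, one_mul, pow_one, pow_zero]
      set Y := ⨆ i, v (![a * c, a * d + b * c, b * d] i) with hY
      obtain ⟨y1, y2, y3⟩ := (sup3 v (a * c) (a * d + b * c) (b * d)).mp (le_of_eq hY.symm)
      have e : v (a * d) * v (b * c) = v (a * c) * v (b * d) := by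
        rw [← map_mul, ← map_mul]
        congr 1
        ring
      have vneg : ∀ w : F, v (-w) = v w := fun w => by
        have := v.val.map_neg w
        exact this
      have m1 : v (a * d) ≤ max (v (a * d + b * c)) (v (b * c)) := by
        have h := FinitePlace.add_le v (a * d + b * c) (-(b * c))
        rw [vneg] at h
        simpa using h
      have m2 : v (b * c) ≤ max (v (a * d + b * c)) (v (a * d)) := by
        have h := FinitePlace.add_le v (a * d + b * c) (-(a * d))
        rw [vneg] at h
        simpa using h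
      have n1 := apply_nonneg v (a * d)
      have n2 := apply_nonneg v (b * c)
      have n3 := apply_nonneg v (b * d)
      have n4 := apply_nonneg v (a * d + b * c)
      exact (sup4 v _ _ _ _).mpr ⟨y1, real_fin n1 n2 n3 n4 e m1 y1 y3 y2,
        real_fin n2 n1 n3 n4 (by rw [mul_comm]; exact e) m2 y1 y3 y2, y3⟩)
  rw [hprod, abs_le]
  simp only [Nat.cast_one, one_mul, Nat.cast_zero, zero_mul, add_zero] at up low
  constructor <;> linarith

end LangForms
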