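import Pool.Agent.Lib_MP_f5471b_nt.Defs
import Pool.Agent.Lib_MP_f5471b_nt.AddSub
import Pool.Agent.Lib_MP_f5471b_nt.LocGlob
import Pool.Agent.Lib_MP_f5471b_nt.LocBound
import Pool.Agent.Lib_MP_f5471b_nt.Sym2

/-!
Piece APL: the approximate parallelogram law with a uniform constant.
-/

namespace LangForms

open Height NumberField WeierstrassCurve Topology Filter IsDedekindDomain

namespace ApproxAux

theorem sym2x_bound {F : Type} [Field F] [NumberField F] (W : WeierstrassCurve F)
    (P Q : W.toAffine.Point) :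
    |logHeight (P.sym2x Q) - (hx P + hx Q)| ≤ Module.finrank ℚ F * Real.log 2 := by
  have h1 : ∀ R : W.toAffine.Point, R.xRep = ![R.xRep 0, R.xRep 1] := by
    intro R
    ext i
    fin_cases i <;> rfl
  have hne : ∀ R : W.toAffine.Point, ![R.xRep 0, R.xRep 1] ≠ 0 := by
    intro R
    rw [← h1 R]
    exact R.xRep_ne_zero
  have h2 := sym2_bound (hne P) (hne Q)
  rw [← h1 P, ← h1 Q] at h2
  exact h2

end ApproxAux

open ApproxAux in
/-- The approximate parallelogram law with a constant uniform in the field and in the curve. -/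
theorem approx_par : ∃ C : ℝ, 0 < C ∧ ∀ (F : Type) [Field F] [NumberField F] [DecidableEq F]
    (W : WeierstrassCurve F) [W.IsElliptic] (P Q : W.toAffine.Point),
    |hx (P + Q) + hx (P - Q) - 2 * hx P - 2 * hx Q| ≤
      C * (Module.finrank ℚ F + hWrel W) := by
  obtain ⟨C₁, hC₁, hup⟩ := arch_upper
  obtain ⟨C₂, hC₂, hlow⟩ := arch_lower
  have l1 : 0 ≤ Real.log C₁ := Real.log_nonneg hC₁
  have l2 : 0 ≤ Real.log C₂ := Real.log_nonneg hC₂
  have l3 : 0 < Real.log 2 := Real.log_pos (by norm_num)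
  refine ⟨Real.log C₁ + Real.log C₂ + 3 * Real.log 2 + 9, by positivity, ?_⟩
  intro F _ _ _ W _ P Q
  set n : ℝ := (Module.finrank ℚ F : ℝ) with hn
  have hn0 : 0 ≤ n := by positivity
  obtain ⟨c, hc, hrel⟩ := addSub_rel W P Q
  set x := P.sym2x Q with hxdef
  set y : Fin 3 → F := fun i => (addSubMap W i).eval x with hydef
  have hx0 : x ≠ 0 := Affine.Point.sym2x_ne_zero P Q
  have hy0 : y ≠ 0 := addSubMap_ne_zero W hx0
  have ha0 : cvec W ≠ 0 := by
    intro h
    have := congrFun h 0
    simp [cvec] at this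
  have hΔ : W.Δ ≠ 0 := by
    rw [← W.coe_Δ']
    exact W.Δ'.ne_zero
  have hS : logHeight y = logHeight ((P + Q).sym2x (P - Q)) := by
    rw [hrel, logHeight_smul_eq_logHeight _ hc]
  have hcW : logHeight (cvec W) = hWrel W := rfl
  have hW0 : 0 ≤ hWrel W := by rw [← hcW]; exact logHeight_nonneg _
  have upper := logHeight_le_of_local y x (cvec W) 1 hy0 hx0 ha0 one_ne_zero 1 2 3 C₁ hC₁
    (fun v => by
      have := hup F v.1 W x
      rw [map_one, one_mul, pow_one]
      exact this)
    (fun v => by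
      have := fin_upper F v.1 (FinitePlace.add_le v) W x
      rw [map_one, one_mul, pow_one]
      exact this)
  have lower := logHeight_le_of_local x y (cvec W) W.Δ hx0 hy0 ha0 hΔ 2 1 9 C₂ hC₂
    (fun v => by
      have := hlow F v.1 W x
      rw [pow_one]
      exact this)
    (fun v => by
      have := fin_lower F v.1 (FinitePlace.add_le v) W x
      rw [pow_one]
      exact this)
  rw [hcW] at upper lower
  have s1 := abs_le.mp (sym2x_bound W P Q)
  have s2 := abs_le.mp (sym2x_bound W (P + Q) (P - Q))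
  rw [← hxdef] at s1
  rw [← hS] at s2
  rw [← hn] at s1 s2 upper lower
  push_cast at upper lower
  have m1 : 0 ≤ n * Real.log C₁ := mul_nonneg hn0 l1
  have m2 : 0 ≤ n * Real.log C₂ := mul_nonneg hn0 l2
  have m3 : 0 ≤ n * Real.log 2 := mul_nonneg hn0 l3.le
  have k1 : 0 ≤ hWrel W * Real.log C₁ := mul_nonneg hW0 l1
  have k2 : 0 ≤ hWrel W * Real.log C₂ := mul_nonneg hW0 l2
  have k3 : 0 ≤ hWrel W * Real.log 2 := mul_nonneg hW0 l3.le
  have e : (Real.log C₁ + Real.log C₂ + 3 * Real.log 2 + 9) * (n + hWrel W) =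
      n * Real.log C₁ + n * Real.log C₂ + 3 * (n * Real.log 2) + 9 * n +
      (hWrel W * Real.log C₁ + hWrel W * Real.log C₂ + 3 * (hWrel W * Real.log 2) +
        9 * hWrel W) := by ring
  rw [e, abs_le]
  constructor <;> linarith [s1.1, s1.2, s2.1, s2.2]

end LangForms
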