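import Pool.Agent.Lib_MP_f5471b_nt.Defs

/-!
# MP_f5471b_nt: heights in an extension of number fields
-/

set_option linter.unusedVariables false

namespace LangForms

open Height NumberField WeierstrassCurve Topology Filter IsDedekindDomain

namespace BCh

theorem prod_infinite {K : Type} [Field K] [NumberField K] {n : ℕ} (x : Fin n → K) :
    (∏ v : InfinitePlace K, (⨆ i, v (x i)) ^ v.mult) = ∏ φ : K →+* ℂ, ⨆ i, ‖φ (x i)‖ := by
  classical
  rw [← Finset.prod_fiberwise Finset.univ InfinitePlace.mk (fun φ : K →+* ℂ => ⨆ i, ‖φ (x i)‖)]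
  refine Finset.prod_congr rfl fun w _ => ?_
  have h : ∀ φ ∈ ({φ | InfinitePlace.mk φ = w} : Finset (K →+* ℂ)),
      (⨆ i, ‖φ (x i)‖) = ⨆ i, w (x i) := by
    intro φ hφ
    rw [← (Finset.mem_filter.mp hφ).2]
    rfl
  rw [Finset.prod_congr rfl h, Finset.prod_const, InfinitePlace.card_filter_mk_eq]

theorem card_ext {K F : Type} [Field K] [NumberField K] [Field F] [NumberField F]
    [Algebra K F] (ψ : K →+* ℂ)
    [DecidablePred fun φ : F →+* ℂ => φ.comp (algebraMap K F) = ψ] :
    (Finset.univ.filter fun φ : F →+* ℂ => φ.comp (algebraMap K F) = ψ).card =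
      Module.finrank K F := by
  classical
  let : Algebra K ℂ := ψ.toAlgebra
  rw [← AlgHom.card K F ℂ, ← Finset.card_univ]
  symm
  apply Finset.card_nbij AlgHom.toRingHom
  · intro σ _
    simp only [Finset.coe_filter, Finset.mem_univ, true_and, Set.mem_ofPred_eq]
    ext a
    exact σ.commutes a
  · exact AlgHom.coe_ringHom_injective.injOn
  · intro φ hφ
    simp only [Finset.coe_filter, Finset.mem_univ, true_and, Set.mem_ofPred_eq] at hφ
    refine ⟨⟨φ, fun a => ?_⟩, by simp, rfl⟩
    change φ (algebraMap K F a) = ψ a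
    rw [← hφ]
    rfl

theorem prod_infinite_ext {K F : Type} [Field K] [NumberField K] [Field F] [NumberField F]
    [Algebra K F] {n : ℕ} (x : Fin n → K) :
    (∏ w : InfinitePlace F, (⨆ i, w (algebraMap K F (x i))) ^ w.mult) =
      (∏ v : InfinitePlace K, (⨆ i, v (x i)) ^ v.mult) ^ Module.finrank K F := by
  classical
  rw [prod_infinite, prod_infinite, ← Finset.prod_pow,
    ← Finset.prod_fiberwise Finset.univ (fun φ : F →+* ℂ => φ.comp (algebraMap K F))]
  refine Finset.prod_congr rfl fun ψ _ => ?_
  have h : ∀ φ ∈ (Finset.univ.filter fun φ : F →+* ℂ => φ.comp (algebraMap K F) = ψ),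
      (⨆ i, ‖φ (algebraMap K F (x i))‖) = ⨆ i, ‖ψ (x i)‖ := by
    intro φ hφ
    rw [← (Finset.mem_filter.mp hφ).2]
    rfl
  rw [Finset.prod_congr rfl h, Finset.prod_const, card_ext]

theorem mulHeight_int {K : Type} [Field K] [NumberField K] {n : ℕ} (r : Fin n → 𝓞 K)
    (hr : r ≠ 0) :
    mulHeight (fun i => (r i : K)) * (Ideal.span (Set.range r)).absNorm =
      ∏ v : InfinitePlace K, (⨆ i, v (r i : K)) ^ v.mult := by
  have hx : (fun i => (r i : K)) ≠ 0 := by
    intro h
    apply hr
    funext i
    have := congrFun h i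
    simpa using this
  rw [NumberField.mulHeight_eq hx, mul_assoc, mul_comm (∏ᶠ v : FinitePlace K, _),
    absNorm_mul_finprod_finitePlace_eq_one hr, mul_one]

theorem absNorm_ext {K F : Type} [Field K] [NumberField K] [Field F] [NumberField F]
    [Algebra K F] {n : ℕ} (r : Fin n → 𝓞 K) :
    (Ideal.span (Set.range fun i => algebraMap (𝓞 K) (𝓞 F) (r i))).absNorm =
      (Ideal.span (Set.range r)).absNorm ^ Module.finrank K F := by
  have e1 : Ideal.span (Set.range fun i => algebraMap (𝓞 K) (𝓞 F) (r i)) =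
      (Ideal.span (Set.range r)).map (algebraMap (𝓞 K) (𝓞 F)) := by
    rw [Ideal.map_span, ← Set.range_comp]
    rfl
  have e2 : Module.finrank (𝓞 K) (𝓞 F) = Module.finrank K F :=
    (IsFractionRing.finrank_eq (𝓞 K) K (𝓞 F) F).symm
  rw [e1, Ideal.absNorm_algebraMap, e2]

theorem mulHeight_ext_int {K F : Type} [Field K] [NumberField K] [Field F] [NumberField F]
    [Algebra K F] {n : ℕ} (r : Fin n → 𝓞 K) (hr : r ≠ 0) :
    mulHeight (fun i => algebraMap K F (r i : K)) =
      mulHeight (fun i => (r i : K)) ^ Module.finrank K F := by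
  set s : Fin n → 𝓞 F := fun i => algebraMap (𝓞 K) (𝓞 F) (r i) with hs
  have e0 : (fun i => algebraMap K F (r i : K)) = fun i => (s i : F) := by
    funext i
    rfl
  have hs0 : s ≠ 0 := by
    intro h
    apply hr
    funext i
    have h1 : algebraMap (𝓞 K) (𝓞 F) (r i) = 0 := congrFun h i
    exact (FaithfulSMul.algebraMap_injective (𝓞 K) (𝓞 F)) (by rw [h1]; simp)
  have h1 := mulHeight_int r hr
  have h2 := mulHeight_int s hs0
  have h3 : (∏ w : InfinitePlace F, (⨆ i, w (s i : F)) ^ w.mult) =
      (∏ v : InfinitePlace K, (⨆ i, v (r i : K)) ^ v.mult) ^ Module.finrank K F :=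
    prod_infinite_ext fun i => (r i : K)
  have h4 := absNorm_ext (F := F) r
  rw [← hs] at h4
  rw [h3, ← h1, mul_pow, h4, Nat.cast_pow] at h2
  have h5 : ((Ideal.span (Set.range r)).absNorm : ℝ) ≠ 0 := by
    intro h
    rw [h, mul_zero] at h1
    have h6 := absNorm_mul_finprod_finitePlace_eq_one hr
    rw [h, zero_mul] at h6
    exact zero_ne_one h6
  rw [e0]
  exact mul_right_cancel₀ (pow_ne_zero _ h5) h2

end BCh

open BCh

theorem logHeight_baseChange {K F : Type} [Field K] [NumberField K] [Field F] [NumberField F]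
    [Algebra K F] {n : ℕ} (x : Fin n → K) :
    logHeight (fun i => algebraMap K F (x i)) = Module.finrank K F * logHeight x := by
  by_cases hx : x = 0
  · subst hx
    have e : (fun i : Fin n => algebraMap K F ((0 : Fin n → K) i)) = 0 := by
      funext i
      simp
    rw [e, logHeight_zero, logHeight_zero, mul_zero]
  obtain ⟨b, hb⟩ := IsLocalization.exist_integer_multiples_of_finite
    (nonZeroDivisors (𝓞 K)) x
  choose r hr using hb
  have hb0 : ((b : 𝓞 K) : K) ≠ 0 := by
    have := nonZeroDivisors.ne_zero b.2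
    intro h
    apply this
    exact (FaithfulSMul.algebraMap_injective (𝓞 K) K) (h.trans (map_zero _).symm)
  have e1 : (fun i => (r i : K)) = ((b : 𝓞 K) : K) • x := by
    funext i
    have := hr i
    rw [Algebra.smul_def] at this
    exact this
  have hr0 : r ≠ 0 := by
    intro h
    apply hx
    have : ((b : 𝓞 K) : K) • x = 0 := by
      rw [← e1, h]
      funext i
      simp
    exact (smul_eq_zero.mp this).resolve_left hb0
  have e2 : (fun i => algebraMap K F (r i : K)) =
      algebraMap K F ((b : 𝓞 K) : K) • fun i => algebraMap K F (x i) := by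
    funext i
    have := congrFun e1 i
    simp only [Pi.smul_apply, smul_eq_mul] at this ⊢
    rw [this, map_mul]
  have hb1 : algebraMap K F ((b : 𝓞 K) : K) ≠ 0 := by
    intro h
    apply hb0
    exact (FaithfulSMul.algebraMap_injective K F) (by rw [h]; simp)
  have h1 := logHeight_smul_eq_logHeight x hb0
  have h2 := logHeight_smul_eq_logHeight (fun i => algebraMap K F (x i)) hb1
  rw [← h1, ← h2, ← e1, ← e2, logHeight_eq_log_mulHeight, logHeight_eq_log_mulHeight,
    mulHeight_ext_int r hr0, Real.log_pow]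

end LangForms
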