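import Pool.Agent.Lib_MP_f5471b_nt.Defs

/-!
Piece CNT: the Northcott theorem with a bound which is uniform in the number field.
-/

namespace LangForms

open Height NumberField WeierstrassCurve Topology Filter IsDedekindDomain

namespace CountAux

open Polynomial

theorem place_le {F : Type} [Field F] [NumberField F] (x : F) (v : InfinitePlace F) :
    v x ≤ mulHeight₁ x := by
  rw [NumberField.mulHeight₁_eq]
  have h1 : (1 : ℝ) ≤ ∏ᶠ v : FinitePlace F, max (v x) 1 := one_le_finprod fun _ => le_max_right ..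
  have h2 : v x ≤ ∏ v : InfinitePlace F, max (v x) 1 ^ v.mult := by
    classical
    rw [← Finset.mul_prod_erase _ _ (Finset.mem_univ v)]
    have h3 : (1 : ℝ) ≤ ∏ w ∈ Finset.univ.erase v, max (w x) 1 ^ w.mult := by
      refine Finset.prod_induction (p := fun r : ℝ => 1 ≤ r) _ ?_ le_rfl ?_
      · intro a b ha hb
        exact one_le_mul_of_one_le_of_one_le ha hb
      · intro w _
        exact one_le_pow₀ (le_max_right _ _)
    have h4 : v x ≤ max (v x) 1 ^ v.mult := by
      calc v x ≤ max (v x) 1 := le_max_left _ _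
        _ = max (v x) 1 ^ 1 := (pow_one _).symm
        _ ≤ max (v x) 1 ^ v.mult :=
          pow_le_pow_right₀ (le_max_right _ _) (Nat.one_le_iff_ne_zero.mpr v.mult_ne_zero)
    have h5 : 0 ≤ max (v x) 1 ^ v.mult := by positivity
    nlinarith
  have h6 : 0 ≤ v x := apply_nonneg v x
  nlinarith

/-- the polynomials of bounded degree and coefficients -/
theorem poly_finite (d : ℕ) (C : ℤ) :
    {f : ℤ[X] | f.natDegree ≤ d ∧ ∀ i, f.coeff i ∈ Set.Icc (-C) C}.Finite := by
  let π : ℤ[X] → Fin (d + 1) → ℤ := fun f i => f.coeff i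
  refine ((Set.Finite.pi fun _ => Set.finite_Icc (-C) C).subset <| ?_).of_finite_image
    (?_ : Set.InjOn π _)
  · exact Set.image_subset_iff.2 fun f hf i _ => hf.2 i
  · refine fun x hx y hy hxy => (ext_iff_natDegree_le hx.1 hy.1).2 fun i hi => ?_
    exact congr_fun hxy ⟨i, Nat.lt_succ_of_le hi⟩

theorem minpoly_mem {F : Type} [Field F] [NumberField F] (d : ℕ) (hd : Module.finrank ℚ F ≤ d)
    (A : ℝ) (hA : 1 ≤ A) (z : F) (hz : IsIntegral ℤ z) (hb : ∀ φ : F →+* ℂ, ‖φ z‖ ≤ A) :
    (minpoly ℤ z).natDegree ≤ d ∧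
      ∀ i, (minpoly ℤ z).coeff i ∈ Set.Icc (-(⌈A ^ d * 2 ^ d⌉₊ : ℤ)) (⌈A ^ d * 2 ^ d⌉₊ : ℤ) := by
  have h_map_ℚ_minpoly := minpoly.isIntegrallyClosed_eq_field_fractions' ℚ hz
  refine ⟨?_, fun i => ?_⟩
  · rw [← (minpoly.monic hz).natDegree_map (algebraMap ℤ ℚ), ← h_map_ℚ_minpoly]
    exact (minpoly.natDegree_le z).trans hd
  rw [Set.mem_Icc, ← abs_le, ← @Int.cast_le ℝ]
  have h1 := Embeddings.coeff_bdd_of_norm_le hb i
  have h2 : max A 1 ^ Module.finrank ℚ F * (Module.finrank ℚ F).choose (Module.finrank ℚ F / 2) ≤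
      A ^ d * 2 ^ d := by
    rw [max_eq_left hA]
    have h3 : A ^ Module.finrank ℚ F ≤ A ^ d := pow_le_pow_right₀ hA hd
    have h4 : (((Module.finrank ℚ F).choose (Module.finrank ℚ F / 2) : ℕ) : ℝ) ≤ 2 ^ d := by
      have h5 : (Module.finrank ℚ F).choose (Module.finrank ℚ F / 2) ≤ 2 ^ Module.finrank ℚ F :=
        Nat.choose_le_two_pow _ _
      have h6 : 2 ^ Module.finrank ℚ F ≤ 2 ^ d := Nat.pow_le_pow_right (by norm_num) hd
      exact_mod_cast h5.trans h6
    exact mul_le_mul h3 h4 (by positivity) (by positivity)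
  have h7 := (h1.trans h2).trans (Nat.le_ceil (A ^ d * 2 ^ d))
  have h8 : ‖(minpoly ℚ z).coeff i‖ = ((|(minpoly ℤ z).coeff i| : ℤ) : ℝ) := by
    rw [h_map_ℚ_minpoly, coeff_map, eq_intCast, Int.norm_cast_rat, Int.norm_eq_abs, Int.cast_abs]
  rw [h8] at h7
  exact_mod_cast h7

end CountAux

open CountAux Polynomial in
theorem uniform_count (d : ℕ) (B : ℝ) : ∃ N : ℕ, ∀ (F : Type) [Field F] [NumberField F],
    Module.finrank ℚ F ≤ d → ∀ T : Finset F, (∀ x ∈ T, logHeight₁ x ≤ B) → T.card ≤ N := by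
  classical
  set H : ℝ := Real.exp (max B 0) with hH
  have hH1 : 1 ≤ H := by rw [hH]; exact Real.one_le_exp (le_max_right _ _)
  set A : ℝ := H * H with hA
  have hA1 : 1 ≤ A := by nlinarith
  set C : ℤ := (⌈A ^ d * 2 ^ d⌉₊ : ℤ) with hC
  set P : Finset ℤ[X] := (poly_finite d C).toFinset with hP
  refine ⟨d * ((Finset.range (⌊H⌋₊ + 1)) ×ˢ P).card, ?_⟩
  intro F _ _ hd T hT
  have hpick : ∀ x : F, ∃ n : ℕ, n ≠ 0 ∧ (n : ℝ) ≤ mulHeight₁ x ∧ IsIntegral ℤ ((n : F) * x) :=
    fun x => NumberField.exists_nat_le_mulHeight₁ x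
  choose n hn0 hn1 hn2 using hpick
  have hmul : ∀ x ∈ T, mulHeight₁ x ≤ H := by
    intro x hx
    have h1 := hT x hx
    rw [logHeight₁_eq_log_mulHeight₁] at h1
    have h2 := Real.exp_le_exp.mpr (h1.trans (le_max_left B 0))
    rwa [Real.exp_log (mulHeight₁_pos x)] at h2
  refine Finset.card_le_mul_card_image_of_maps_to
    (f := fun x : F => (n x, minpoly ℤ ((n x : F) * x))) ?_ d ?_
  · intro x hx
    rw [Finset.mem_product, Finset.mem_range]
    constructor
    · exact Nat.lt_succ_of_le (Nat.le_floor ((hn1 x).trans (hmul x hx)))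
    · rw [hP, Set.Finite.mem_toFinset]
      refine minpoly_mem d hd A hA1 _ (hn2 x) fun φ => ?_
      rw [map_mul, map_natCast, norm_mul, Complex.norm_natCast]
      have h1 := place_le x (InfinitePlace.mk φ)
      rw [InfinitePlace.apply] at h1
      exact mul_le_mul ((hn1 x).trans (hmul x hx)) (h1.trans (hmul x hx)) (norm_nonneg _)
        (by linarith)
  · rintro ⟨m, f⟩ hmf
    rw [Finset.mem_product] at hmf
    have hf : f.natDegree ≤ d := by
      have := hmf.2
      rw [hP, Set.Finite.mem_toFinset] at this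
      exact this.1
    by_cases hemp : ({x ∈ T | (n x, minpoly ℤ ((n x : F) * x)) = (m, f)} : Finset F) = ∅
    · rw [hemp]; simp
    · obtain ⟨x₀, hx₀⟩ := Finset.nonempty_iff_ne_empty.mpr hemp
      rw [Finset.mem_filter, Prod.mk.injEq] at hx₀
      obtain ⟨_, hm, hf0⟩ := hx₀
      have hm0 : m ≠ 0 := hm ▸ hn0 x₀
      have hfne : f ≠ 0 := by rw [← hf0]; exact minpoly.ne_zero (hn2 x₀)
      have hmap : f.map (algebraMap ℤ F) ≠ 0 := by
        rw [← hf0]
        exact ((minpoly.monic (hn2 x₀)).map _).ne_zero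
      calc _ ≤ (f.map (algebraMap ℤ F)).roots.toFinset.card := by
            refine Finset.card_le_card_of_injOn (fun x => (m : F) * x) ?_ ?_
            · intro x hx
              simp only [Finset.coe_filter, Prod.mk.injEq, Set.mem_ofPred_eq] at hx
              obtain ⟨_, hxm, hxf⟩ := hx
              rw [Finset.mem_coe, Multiset.mem_toFinset, mem_roots hmap, IsRoot.def, eval_map,
                ← aeval_def, ← hxf, ← hxm]
              exact minpoly.aeval ℤ _
            · intro x _ y _ hxy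
              have : (m : F) ≠ 0 := by exact_mod_cast hm0
              exact mul_left_cancel₀ this hxy
        _ ≤ Multiset.card (f.map (algebraMap ℤ F)).roots := Multiset.toFinset_card_le _
        _ ≤ (f.map (algebraMap ℤ F)).natDegree := card_roots' _
        _ ≤ f.natDegree := natDegree_map_le
        _ ≤ d := hf

end LangForms
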