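import Pool.Agent.Lib_MP_f5471b_nt.Can
import Pool.Agent.Lib_MP_f5471b_nt.Approx
import Pool.Agent.Lib_MP_f5471b_nt.BaseCh
import Pool.Agent.Lib_MP_f5471b_nt.Count
import Pool.Agent.Lib_MP_f5471b_nt.Psd

/-!
# MP_f5471b_nt: a uniform lower bound for the height of nontorsion points (piece TORS)
-/

namespace LangForms

open Height NumberField WeierstrassCurve Topology Filter

namespace TorsGap

theorem hWrel_base {K F : Type} [Field K] [NumberField K] [Field F] [NumberField F]
    [Algebra K F] (W : WeierstrassCurve K) :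
    hWrel (W.baseChange F) = Module.finrank K F * hWrel W := by
  rw [hWrel, hWrel, ← logHeight_baseChange]
  congr 1
  ext i
  fin_cases i <;> simp [WeierstrassCurve.baseChange]

/-- if `i Q = ± j Q` with `1 ≤ i < j ≤ N + 1` then `(2 N + 2)! Q = 0` -/
theorem fact_kill {X : Type} [AddCommGroup X] (Q : X) (N m : ℕ) (h1 : 1 ≤ m) (h2 : m ≤ 2 * N + 2)
    (h : m • Q = 0) : (2 * N + 2).factorial • Q = 0 := by
  obtain ⟨c, hc⟩ := Nat.dvd_factorial (by omega) h2
  rw [hc, mul_comm, mul_smul, h, smul_zero]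

theorem kill_of_eq {X : Type} [AddCommGroup X] (Q : X) (N i j : ℕ) (hi : 1 ≤ i) (hij : i < j)
    (hj : j ≤ N + 1) (h : i • Q = j • Q ∨ i • Q = -(j • Q)) :
    (2 * N + 2).factorial • Q = 0 := by
  rcases h with h | h
  · apply fact_kill Q N (j - i) (by omega) (by omega)
    have : j • Q = (j - i) • Q + i • Q := by rw [← add_smul]; congr 1; omega
    rw [this] at h
    exact right_eq_add.mp h
  · apply fact_kill Q N (i + j) (by omega) (by omega)
    rw [add_smul, h, neg_add_cancel]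

end TorsGap

theorem torsion_gap (K : Type) [Field K] [NumberField K] (W : WeierstrassCurve K) [W.IsElliptic]
    (D : ℕ) : ∃ n₀ : ℕ, 1 ≤ n₀ ∧ ∃ lam : ℝ, 0 < lam ∧
    ∀ (F : Type) [Field F] [NumberField F] [DecidableEq F] [Algebra K F],
      Module.finrank K F ≤ D → ∀ Q : (W.baseChange F).toAffine.Point,
        n₀ • Q = 0 ∨ lam ≤ nt Q := by
  obtain ⟨C, hC, hpar⟩ := approx_par
  set k0 := Module.finrank ℚ K with hk0
  obtain ⟨N, hN⟩ := uniform_count (D * k0) (C * (D * k0 + D * hWrel W) + 1)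
  have hlam : (0 : ℝ) < 1 / (2 * (D * k0 + 1) * (N + 1) ^ 2) := by positivity
  refine ⟨(2 * N + 2).factorial, Nat.factorial_pos _, _, hlam, ?_⟩
  intro F _ _ _ _ hF Q
  by_cases hQ : 1 / (2 * (D * k0 + 1) * (N + 1) ^ 2) ≤ nt Q
  · exact Or.inr hQ
  left
  push Not at hQ
  have hw : 0 ≤ hWrel W := logHeight_nonneg _
  have hfin : Module.finrank ℚ F = k0 * Module.finrank K F :=
    (Module.finrank_mul_finrank ℚ K F).symm
  have hFD : ((Module.finrank K F : ℕ) : ℝ) ≤ D := by exact_mod_cast hF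
  have hFpos : (0 : ℝ) < Module.finrank ℚ F := by exact_mod_cast Module.finrank_pos
  have hFq : (Module.finrank ℚ F : ℝ) ≤ D * k0 := by
    rw [hfin]; push_cast
    rw [mul_comm]
    exact mul_le_mul_of_nonneg_right hFD (by positivity)
  set E : ℝ := C * (Module.finrank ℚ F + hWrel (W.baseChange F)) with hE
  have hEle : E ≤ C * (D * k0 + D * hWrel W) := by
    rw [hE, TorsGap.hWrel_base]
    apply mul_le_mul_of_nonneg_left _ hC.le
    have := mul_le_mul_of_nonneg_right hFD hw
    linarith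
  have hp : ∀ P Q : (W.baseChange F).toAffine.Point,
      |hx (P + Q) + hx (P - Q) - 2 * hx P - 2 * hx Q| ≤ E := fun P Q => hpar F _ P Q
  have hsq : ∀ k : ℕ, canX hx (k • Q) = (k : ℝ) ^ 2 * canX hx Q :=
    fun k => q_nsmul (canX hx) (canX_par hx E hp) k Q
  have hcan : canX hx Q = 2 * Module.finrank ℚ F * nt Q := by
    simp only [nt]; field_simp
  have hbd : ∀ k : ℕ, k ≤ N + 1 → hx (k • Q) ≤ C * (D * k0 + D * hWrel W) + 1 := by
    intro k hk
    have h1 := (abs_le.1 (canX_bound hx E hp (k • Q))).1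
    have h2 : canX hx (k • Q) ≤ 1 := by
      rw [hsq, hcan]
      have hk' : (k : ℝ) ≤ N + 1 := by exact_mod_cast hk
      have h3 : (k : ℝ) ^ 2 ≤ (N + 1) ^ 2 := pow_le_pow_left₀ (by positivity) hk' 2
      have h4 : 2 * (Module.finrank ℚ F : ℝ) * nt Q
          ≤ 2 * (D * k0 + 1) * (1 / (2 * (D * k0 + 1) * (N + 1) ^ 2)) := by
        have h5 : 2 * (Module.finrank ℚ F : ℝ) * nt Q
            ≤ 2 * (Module.finrank ℚ F : ℝ) * (1 / (2 * (D * k0 + 1) * (N + 1) ^ 2)) :=
          mul_le_mul_of_nonneg_left hQ.le (by positivity)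
        refine h5.trans ?_
        apply mul_le_mul_of_nonneg_right _ hlam.le
        linarith
      have h6 : 2 * ((D : ℝ) * k0 + 1) * (1 / (2 * (D * k0 + 1) * (N + 1) ^ 2))
          = 1 / (N + 1) ^ 2 := by
        field_simp
      rw [h6] at h4
      calc (k : ℝ) ^ 2 * (2 * (Module.finrank ℚ F : ℝ) * nt Q)
          ≤ (k : ℝ) ^ 2 * (1 / (N + 1) ^ 2) := mul_le_mul_of_nonneg_left h4 (by positivity)
        _ ≤ (N + 1) ^ 2 * (1 / (N + 1) ^ 2) := mul_le_mul_of_nonneg_right h3 (by positivity)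
        _ = 1 := by field_simp
    linarith
  by_contra hcon
  -- all the points `k Q` with `1 ≤ k ≤ N + 1` are affine
  have hne : ∀ k : ℕ, 1 ≤ k → k ≤ N + 1 → k • Q ≠ 0 := fun k h1 h2 h =>
    hcon (TorsGap.fact_kill Q N k h1 (by omega) h)
  have hrep : ∀ k : Fin (N + 1), ∃ x : F, ((k.1 + 1) • Q).xRep = ![x, 1] := by
    intro k
    have := hne (k.1 + 1) (by omega) (by omega)
    rcases h : ((k.1 + 1) • Q) with _ | ⟨x, y, hxy⟩
    · exact absurd h this
    · exact ⟨x, by simp⟩
  choose x hx' using hrep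
  have hinj : Function.Injective x := by
    intro a b hab
    by_contra hab'
    have h1 : ((a.1 + 1) • Q).xRep = ((b.1 + 1) • Q).xRep := by rw [hx', hx', hab]
    have h2 := Affine.Point.eq_or_eq_neg_of_xRep_eq_xRep h1
    rcases lt_or_gt_of_ne (fun h => hab' (Fin.ext h) : a.1 ≠ b.1) with h | h
    · exact hcon (TorsGap.kill_of_eq Q N (a.1 + 1) (b.1 + 1) (by omega) (by omega) (by omega) h2)
    · refine hcon (TorsGap.kill_of_eq Q N (b.1 + 1) (a.1 + 1) (by omega) (by omega) (by omega) ?_)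
      rcases h2 with h2 | h2
      · exact Or.inl h2.symm
      · right
        rw [h2, neg_neg]
  have hcard := hN F (by rw [hfin, mul_comm]; exact Nat.mul_le_mul_right _ hF)
    (Finset.univ.image x) (by
      intro z hz
      obtain ⟨k, -, rfl⟩ := Finset.mem_image.1 hz
      rw [logHeight₁_eq_logHeight, ← hx' k]
      exact hbd _ (by omega))
  rw [Finset.card_image_of_injective _ hinj, Finset.card_univ, Fintype.card_fin] at hcard
  omega

end LangForms
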