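import Pool.Agent.Lib_MP_f5471b_nt.Key
import Pool.Agent.Lib_MP_f5471b_nt.Arith
import Pool.Agent.Lib_MP_f5471b_nt.Ram
import Pool.Agent.Lib_MP_f5471b_nt.MinkG
import Pool.Agent.Lib_MP_f5471b_nt.Psd
import Pool.Agent.Lib_MP_f5471b_nt.Tors

namespace LangForms

open Height NumberField WeierstrassCurve Topology Filter IsDedekindDomain

theorem Obstructed.mono {G : Type} [Group G] {X : Type} [AddCommGroup X] {g : ℕ}
    {ρ : G →* Matrix.GeneralLinearGroup (Fin g) ℤ} {M : Matrix (Fin g) (Fin g) ℤ}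
    (hM : IsPol M) {P : Fin g → X} {c c' : ℝ} (h : c ≤ c') (ho : Obstructed ρ M P c) :
    Obstructed ρ M P c' := by
  obtain ⟨Λ, h1, h2, h3, h4, n, hn1, hn2, hn3⟩ := ho
  refine ⟨Λ, h1, h2, h3, h4.trans ?_, n, hn1, hn2.trans h, hn3⟩
  have : (0 : ℝ) < degB M ⊤ := by exact_mod_cast degB_top_pos M hM
  nlinarith

/-- the constant of the approximate parallelogram law -/
theorem nt_par {F : Type} [Field F] [NumberField F] [DecidableEq F] {W : WeierstrassCurve F}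
    [W.IsElliptic] (P Q : W.toAffine.Point) :
    nt (P + Q) + nt (P - Q) = 2 * nt P + 2 * nt Q := by
  obtain ⟨C, hC, h⟩ := approx_par
  have := canX_par hx _ (h F W) P Q
  have hd : (0 : ℝ) < Module.finrank ℚ F := by exact_mod_cast Module.finrank_pos
  simp only [nt]
  field_simp
  linarith

theorem hx_nonneg {F : Type} [Field F] [NumberField F] {W : WeierstrassCurve F}
    (P : W.toAffine.Point) : 0 ≤ hx P := logHeight_nonneg _

theorem nt_nonneg {F : Type} [Field F] [NumberField F] [DecidableEq F] {W : WeierstrassCurve F}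
    [W.IsElliptic] (P : W.toAffine.Point) : 0 ≤ nt P := by
  obtain ⟨C, hC, h⟩ := approx_par
  have := canX_nonneg hx _ (h F W) hx_nonneg P
  simp only [nt]
  positivity

theorem nt_Phi_le {F : Type} [Field F] [NumberField F] [DecidableEq F] {W : WeierstrassCurve F}
    [W.IsElliptic] {g : ℕ} (M : Matrix (Fin g) (Fin g) ℤ) (hM : IsPol M) (C : ℝ) (ℓ : Fin g → ℤ)
    (hℓ : Sh M C ℓ) (P : Fin g → W.toAffine.Point) : nt (Phi P ℓ) ≤ C * ntL M P := by
  have h2 := q_le (X := W.toAffine.Point) nt nt_par nt_nonneg M hM C ℓ hℓ P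
  exact h2

theorem nt_nsmul {F : Type} [Field F] [NumberField F] [DecidableEq F] {W : WeierstrassCurve F}
    [W.IsElliptic] (n : ℕ) (P : W.toAffine.Point) : nt (n • P) = (n : ℝ) ^ 2 * nt P := by
  have := q_nsmul (X := W.toAffine.Point) nt nt_par n P
  exact this

theorem nt_zero {F : Type} [Field F] [NumberField F] [DecidableEq F] {W : WeierstrassCurve F}
    [W.IsElliptic] : nt (0 : W.toAffine.Point) = 0 := by
  have := nt_nsmul 0 (0 : W.toAffine.Point)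
  simpa using this

theorem ntL_nonneg {F : Type} [Field F] [NumberField F] [DecidableEq F] {W : WeierstrassCurve F}
    [W.IsElliptic] {g : ℕ} (M : Matrix (Fin g) (Fin g) ℤ) (hM : IsPol M)
    (P : Fin g → W.toAffine.Point) : 0 ≤ ntL M P := by
  have h0 : Sh M 0 (0 : Fin g → ℤ) := fun v => by simp
  have h1 : Sh M 1 (0 : Fin g → ℤ) := Sh_mono M hM zero_le_one _ h0
  have h2 := nt_Phi_le M hM 1 0 h1 P
  have h3 := nt_nonneg (Phi P 0)
  rw [one_mul] at h2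
  exact h3.trans h2

theorem hWrel_nonneg {F : Type} [Field F] [NumberField F] (W : WeierstrassCurve F) :
    0 ≤ hWrel W := logHeight_nonneg _

theorem hWrel_baseChange {K F : Type} [Field K] [NumberField K] [Field F] [NumberField F]
    [Algebra K F] (W : WeierstrassCurve K) :
    hWrel (W.baseChange F) = Module.finrank K F * hWrel W := by
  rw [hWrel, hWrel, ← logHeight_baseChange]
  congr 1
  ext i
  fin_cases i <;> simp [WeierstrassCurve.baseChange]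

/-- Comparison of the sum over primes of `K` with a sum over primes of `F`. -/
theorem exists_primes {K F : Type} [Field K] [NumberField K] [Field F] [NumberField F]
    [Algebra K F] [IsGalois K F] (S : Finset (Ideal (𝓞 K)))
    (hS : ∀ p ∈ S, p.IsMaximal ∧ p ≠ ⊥ ∧ ¬ Algebra.IsUnramifiedIn (𝓞 F) p) :
    ∃ T : Finset (HeightOneSpectrum (𝓞 F)),
      (∀ v ∈ T, ∃ σ : F ≃ₐ[K] F, σ ≠ 1 ∧ InIn v σ) ∧
      ∑ p ∈ S, Real.log (Ideal.absNorm p) ≤ ∑ v ∈ T, Real.log (Ideal.absNorm v.asIdeal) := by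
  classical
  choose v hv1 hv2 hv3 using fun (p : S) =>
    exists_above (F := F) p.1 (hS p.1 p.2).1 (hS p.1 p.2).2.1 (hS p.1 p.2).2.2
  refine ⟨Finset.univ.image v, ?_, ?_⟩
  · intro w hw
    obtain ⟨p, hp, rfl⟩ := Finset.mem_image.1 hw
    exact hv2 p
  · rw [Finset.sum_image, ← Finset.sum_coe_sort S]
    · refine Finset.sum_le_sum fun p hp => ?_
      have hpos : 0 < Ideal.absNorm p.1 := by
        rw [Nat.pos_iff_ne_zero, Ne, Ideal.absNorm_eq_zero_iff]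
        exact (hS p.1 p.2).2.1
      exact Real.log_le_log (by exact_mod_cast hpos) (by exact_mod_cast hv3 p)
    · intro p hp q hq h
      apply Subtype.ext
      rw [← hv1 p, ← hv1 q, h]

theorem card_subgroup_le (G : Type) [Group G] [Finite G] (D : ℕ) (h : Nat.card G ≤ D) :
    Nat.card (Subgroup G) ≤ 2 ^ D := by
  classical
  have h1 : Nat.card (Subgroup G) ≤ Nat.card (Set G) :=
    Nat.card_le_card_of_injective (fun H : Subgroup G => (H : Set G)) SetLike.coe_injective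
  have h2 : Nat.card (Set G) = 2 ^ Nat.card G := by
    have := Fintype.ofFinite G
    rw [Nat.card_eq_fintype_card, Fintype.card_set, Nat.card_eq_fintype_card]
  rw [h2] at h1
  exact h1.trans (Nat.pow_le_pow_right (by norm_num) h)

/-- Heights of the values of short characters. -/
theorem hx_Phi_le {F : Type} [Field F] [NumberField F] [DecidableEq F] {W : WeierstrassCurve F}
    [W.IsElliptic] {g : ℕ} (M : Matrix (Fin g) (Fin g) ℤ) (hM : IsPol M) (C E : ℝ) (ℓ : Fin g → ℤ)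
    (hℓ : Sh M (4 * C) ℓ) (P : Fin g → W.toAffine.Point)
    (hE : ∀ P Q : W.toAffine.Point, |hx (P + Q) + hx (P - Q) - 2 * hx P - 2 * hx Q| ≤ E) :
    hx (Phi P ℓ) ≤ 8 * Module.finrank ℚ F * C * ntL M P + E := by
  have hFpos : (0 : ℝ) < Module.finrank ℚ F := by exact_mod_cast Module.finrank_pos
  have h1 := canX_bound hx E hE (Phi P ℓ)
  have h2 : nt (Phi P ℓ) ≤ (4 * C) * ntL M P := nt_Phi_le M hM _ ℓ hℓ P
  have h3 : canX hx (Phi P ℓ) = 2 * Module.finrank ℚ F * nt (Phi P ℓ) := by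
    simp only [nt]; field_simp
  have h4 := (abs_le.1 h1).1
  have h5 : 2 * Module.finrank ℚ F * nt (Phi P ℓ) ≤
      2 * Module.finrank ℚ F * ((4 * C) * ntL M P) :=
    mul_le_mul_of_nonneg_left h2 (by positivity)
  nlinarith

theorem real_step (D D' C₁ Ca Cr n f L w B E Fd WF sub sumS sumT : ℝ)
    (hD : 0 < D) (hD' : 0 < D') (hC₁ : 0 < C₁) (hCa : 0 < Ca) (hCr : 0 < Cr) (hn : 0 < n)
    (hf0 : 0 ≤ f) (hf : f ≤ D) (hL : 0 ≤ L) (hw : 0 ≤ w) (_hsub0 : 0 ≤ sub) (hsub : sub ≤ D')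
    (hFd : Fd = n * f) (hWF : WF = f * (n * w)) (hE : E = Ca * (Fd + WF))
    (hB : B = 8 * Fd * C₁ * L + E) (hST : sumS ≤ sumT)
    (hT : sumT ≤ 2 * sub * B + Cr * (Fd + WF)) :
    1 / (2 * D' * (8 * D * C₁)) * (sumS / n) ≤
      L + (2 * D' * (Ca * D) + Cr * D) / (2 * D' * (8 * D * C₁)) * (1 + w) := by
  have hapos : 0 < 2 * D' * (8 * D * C₁) := by positivity
  have hX : Fd + WF ≤ D * (n + n * w) := by
    rw [hFd, hWF]
    have : n * f + f * (n * w) = f * (n + n * w) := by ring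
    rw [this]
    have : 0 ≤ n + n * w := by positivity
    exact mul_le_mul_of_nonneg_right hf this
  have hFd0 : 0 ≤ Fd := by rw [hFd]; positivity
  have hFdle : Fd ≤ n * D := by rw [hFd]; gcongr
  have hBle : B ≤ 8 * (n * D) * C₁ * L + Ca * (D * (n + n * w)) := by
    rw [hB, hE]; gcongr
  have hWF0 : 0 ≤ WF := by rw [hWF]; positivity
  have hB0 : 0 ≤ B := by rw [hB, hE]; positivity
  have h6 : sumS ≤ (2 * D' * (8 * D * C₁) * L + (2 * D' * (Ca * D) + Cr * D) * (1 + w)) * n := by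
    calc sumS ≤ 2 * sub * B + Cr * (Fd + WF) := hST.trans hT
      _ ≤ 2 * D' * (8 * (n * D) * C₁ * L + Ca * (D * (n + n * w))) +
          Cr * (D * (n + n * w)) := by gcongr
      _ = _ := by ring
  have h7 : sumS / n ≤ 2 * D' * (8 * D * C₁) * L + (2 * D' * (Ca * D) + Cr * D) * (1 + w) := by
    rw [div_le_iff₀ hn]; exact h6
  calc 1 / (2 * D' * (8 * D * C₁)) * (sumS / n)
      ≤ 1 / (2 * D' * (8 * D * C₁)) *
        (2 * D' * (8 * D * C₁) * L + (2 * D' * (Ca * D) + Cr * D) * (1 + w)) := by gcongr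
    _ = _ := by field_simp

theorem uniform_lower_bound (K : Type) [Field K] [NumberField K] (g : ℕ) (hg : 1 ≤ g) :
    ∃ c₁ c₂ : ℝ, 0 < c₁ ∧ 0 < c₂ ∧ ∀ (W : WeierstrassCurve K) [W.IsElliptic]
    (F : Type) [Field F] [NumberField F] [DecidableEq F] [Algebra K F] [IsGalois K F]
    (ρ : (F ≃ₐ[K] F) →* Matrix.GeneralLinearGroup (Fin g) ℤ), Function.Injective ρ →
    ∀ (M : Matrix (Fin g) (Fin g) ℤ), IsPol M →
    (∀ σ, (ρ σ).val.transpose * M * (ρ σ).val = M) →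
    ∀ (P : Fin g → (W.baseChange F).toAffine.Point),
    (∀ σ a, ∑ b, (ρ σ).val a b • gal σ (P b) = P a) →
    Obstructed ρ M P c₂ ∨
      ∀ S : Finset (Ideal (𝓞 K)),
        (∀ p ∈ S, p.IsMaximal ∧ p ≠ ⊥ ∧ ¬ Algebra.IsUnramifiedIn (𝓞 F) p) →
        c₁ * ((∑ p ∈ S, Real.log (Ideal.absNorm p)) / Module.finrank ℚ K) ≤
          ntL M P + c₂ * (1 + hW W) := by
  obtain ⟨D₀, hD₀⟩ : ∃ D₀ : ℕ, D₀ = 3 ^ (g ^ 2) := ⟨_, rfl⟩
  obtain ⟨C₁, hC₁, hkey⟩ := key1 g D₀ hg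
  obtain ⟨Ca, hCa, happ⟩ := approx_par
  obtain ⟨Cr, hCr, har⟩ := arith_main
  have hDpos : (0 : ℝ) < D₀ := by rw [hD₀]; positivity
  obtain ⟨D', hD'⟩ : ∃ D' : ℝ, D' = 2 ^ D₀ := ⟨_, rfl⟩
  have hD'pos : 0 < D' := by rw [hD']; positivity
  refine ⟨1 / (2 * D' * (8 * D₀ * C₁)),
    max C₁ ((2 * D' * (Ca * D₀) + Cr * D₀) / (2 * D' * (8 * D₀ * C₁))), by positivity,
    lt_of_lt_of_le hC₁ (le_max_left _ _), ?_⟩
  intro W _ F _ _ _ _ _ ρ hρ M hM hinv P hP
  by_cases hob : Obstructed ρ M P C₁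
  · exact Or.inl (hob.mono hM (le_max_left _ _))
  right
  intro S hS
  have hcard : Nat.card (F ≃ₐ[K] F) ≤ D₀ := by
    rw [hD₀]; exact card_le_of_injective ρ hρ
  have hcardF : Nat.card (F ≃ₐ[K] F) = Module.finrank K F := IsGalois.card_aut_eq_finrank K F
  obtain ⟨T, hT1, hT2⟩ := exists_primes (F := F) S hS
  have hWF := hWrel_nonneg (W.baseChange F)
  have hLnn : 0 ≤ ntL M P := ntL_nonneg M hM P
  have hnpos : (0 : ℝ) < Module.finrank ℚ K := by exact_mod_cast Module.finrank_pos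
  have hFpos : (0 : ℝ) < Module.finrank ℚ F := by exact_mod_cast Module.finrank_pos
  have happ' := happ F (W.baseChange F)
  obtain ⟨E, hE⟩ : ∃ E : ℝ, E = Ca * (Module.finrank ℚ F + hWrel (W.baseChange F)) := ⟨_, rfl⟩
  rw [← hE] at happ'
  obtain ⟨B, hB⟩ : ∃ B : ℝ, B = 8 * Module.finrank ℚ F * C₁ * ntL M P + E := ⟨_, rfl⟩
  have hEnn : 0 ≤ E := by rw [hE]; positivity
  have hBnn : 0 ≤ B := by rw [hB]; positivity
  have hQ : ∀ H : Subgroup (F ≃ₐ[K] F), H ≠ ⊥ → ∃ σ ∈ H,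
      ∃ Q : (W.baseChange F).toAffine.Point, gal σ Q ≠ Q ∧ hx Q ≤ B ∧ hx (gal σ Q - Q) ≤ B := by
    intro H hH
    rcases hkey (F ≃ₐ[K] F) hcard _ gal ρ hρ M hM hinv P hP H hH with h | ⟨σ, hσ, ℓ, hℓ, hne⟩
    · exact absurd h hob
    refine ⟨σ, hσ, Phi P ℓ, hne, ?_, ?_⟩
    · rw [hB]
      exact hx_Phi_le M hM C₁ E ℓ (Sh_mono M hM (by linarith) ℓ hℓ) P happ'
    · rw [Phi_act gal ρ P hP, ← Phi_sub, hB]
      exact hx_Phi_le M hM C₁ E _ (Sh_sub M _ _ _ (Sh_act ρ M hinv _ _ hℓ σ) hℓ) P happ'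
  have hmain := har K F W T hT1 B hBnn hQ
  have hsub : (Nat.card (Subgroup (F ≃ₐ[K] F)) : ℝ) ≤ D' := by
    rw [hD']; exact_mod_cast card_subgroup_le _ D₀ hcard
  have hW0 : 0 ≤ hW W := by
    have := hWrel_nonneg W
    simp only [hW]; positivity
  have hfin := real_step D₀ D' C₁ Ca Cr (Module.finrank ℚ K) (Module.finrank K F) (ntL M P)
    (hW W) B E (Module.finrank ℚ F) (hWrel (W.baseChange F))
    (Nat.card (Subgroup (F ≃ₐ[K] F))) (∑ p ∈ S, Real.log (Ideal.absNorm p))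
    (∑ v ∈ T, Real.log (Ideal.absNorm v.asIdeal)) hDpos hD'pos hC₁ hCa hCr hnpos
    (Nat.cast_nonneg _) (by rw [← hcardF]; exact_mod_cast hcard) hLnn hW0 (Nat.cast_nonneg _) hsub
    (by exact_mod_cast (Module.finrank_mul_finrank ℚ K F).symm)
    (by rw [hWrel_baseChange, hW]; field_simp) hE hB hT2 hmain
  refine hfin.trans ?_
  have h1 : 0 ≤ 1 + hW W := by linarith
  have h2 := le_max_right C₁ ((2 * D' * (Ca * D₀) + Cr * D₀) / (2 * D' * (8 * D₀ * C₁)))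
  have h3 := mul_le_mul_of_nonneg_right h2 h1
  linarith

theorem fixed_curve (K : Type) [Field K] [NumberField K] (W : WeierstrassCurve K) [W.IsElliptic]
    (g : ℕ) (hg : 1 ≤ g) :
    ∃ c₁ c₂ : ℝ, 0 < c₁ ∧ 0 < c₂ ∧
    ∀ (F : Type) [Field F] [NumberField F] [DecidableEq F] [Algebra K F] [IsGalois K F]
    (ρ : (F ≃ₐ[K] F) →* Matrix.GeneralLinearGroup (Fin g) ℤ), Function.Injective ρ →
    ∀ (M : Matrix (Fin g) (Fin g) ℤ), IsPol M →
    (∀ σ, (ρ σ).val.transpose * M * (ρ σ).val = M) →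
    ∀ (P : Fin g → (W.baseChange F).toAffine.Point),
    (∀ σ a, ∑ b, (ρ σ).val a b • gal σ (P b) = P a) →
    Obstructed ρ M P c₂ ∨
      ((∀ n : ℕ, 1 ≤ n → n • P ≠ 0) ∧
      ∀ S : Finset (Ideal (𝓞 K)),
        (∀ p ∈ S, p.IsMaximal ∧ p ≠ ⊥ ∧ ¬ Algebra.IsUnramifiedIn (𝓞 F) p) →
        c₁ * max 1 ((∑ p ∈ S, Real.log (Ideal.absNorm p)) / Module.finrank ℚ K) ≤
          ntL M P) := by
  obtain ⟨c₁, c₂, hc₁, hc₂, hT2⟩ := uniform_lower_bound K g hg
  obtain ⟨D₀, hD₀⟩ : ∃ D₀ : ℕ, D₀ = 3 ^ (g ^ 2) := ⟨_, rfl⟩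
  obtain ⟨C₂, hC₂, hkey⟩ := key2 g D₀ hg
  obtain ⟨n₀, hn₀, lam, hlam, hgap⟩ := torsion_gap K W D₀
  have hWnn : 0 ≤ hW W := by
    have := hWrel_nonneg W
    simp only [hW]; positivity
  obtain ⟨e, he⟩ : ∃ e : ℝ, e = (1 + c₂ * (1 + hW W) * (C₂ / lam)) / c₁ := ⟨_, rfl⟩
  have hepos : 0 < e := by rw [he]; positivity
  obtain ⟨m, hm⟩ : ∃ m : ℝ, m = max e (C₂ / lam) := ⟨_, rfl⟩
  have hmpos : 0 < m := by rw [hm]; exact lt_of_lt_of_le hepos (le_max_left _ _)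
  refine ⟨m⁻¹, max c₂ (C₂ * n₀), by positivity,
    lt_of_lt_of_le hc₂ (le_max_left _ _), ?_⟩
  intro F _ _ _ _ _ ρ hρ M hM hinv P hP
  by_cases hob : Obstructed ρ M P (max c₂ (C₂ * n₀))
  · exact Or.inl hob
  right
  have hcard : Nat.card (F ≃ₐ[K] F) ≤ D₀ := by
    rw [hD₀]; exact card_le_of_injective ρ hρ
  have hcardF : Nat.card (F ≃ₐ[K] F) = Module.finrank K F := IsGalois.card_aut_eq_finrank K F
  rcases hkey (F ≃ₐ[K] F) hcard _ gal ρ M hM hinv P hP n₀ hn₀ with h | ⟨ℓ, hℓ, hne⟩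
  · exact absurd (h.mono hM (le_max_right _ _)) hob
  have hlow : lam ≤ nt (Phi P ℓ) := by
    rcases hgap F (by rw [← hcardF]; exact hcard) (Phi P ℓ) with h | h
    · exact absurd h hne
    · exact h
  have hup : nt (Phi P ℓ) ≤ C₂ * ntL M P := nt_Phi_le M hM _ ℓ hℓ P
  obtain ⟨L, hL⟩ : ∃ L : ℝ, L = ntL M P := ⟨_, rfl⟩
  have h1 : 1 ≤ C₂ / lam * ntL M P := by
    rw [div_mul_eq_mul_div, le_div_iff₀ hlam]; linarith
  have hLpos : 0 < ntL M P := by
    by_contra hcon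
    have : C₂ / lam * ntL M P ≤ 0 := mul_nonpos_of_nonneg_of_nonpos (by positivity) (not_lt.1 hcon)
    linarith
  refine ⟨?_, ?_⟩
  · intro n hn h0
    have h2 : n • Phi P ℓ = 0 := by
      rw [← Phi_nsmul, h0]; simp [Phi]
    have h3 := nt_nsmul n (Phi P ℓ)
    rw [h2, nt_zero] at h3
    have h5 : (0 : ℝ) < nt (Phi P ℓ) := lt_of_lt_of_le hlam hlow
    have hnpos : (0 : ℝ) < n := by exact_mod_cast hn
    have h6 : (0 : ℝ) < (n : ℝ) ^ 2 * nt (Phi P ℓ) := by positivity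
    linarith
  · intro S hS
    rcases hT2 W F ρ hρ M hM hinv P hP with h | h
    · exact absurd (h.mono hM (le_max_left _ _)) hob
    have hR := h S hS
    obtain ⟨R, hRdef⟩ : ∃ R : ℝ, R = (∑ p ∈ S, Real.log (Ideal.absNorm p)) / Module.finrank ℚ K :=
      ⟨_, rfl⟩
    rw [← hRdef] at hR ⊢
    rw [← hL] at hR h1 hLpos ⊢
    have hR' : R ≤ e * L := by
      rw [he, div_mul_eq_mul_div, le_div_iff₀ hc₁]
      have h8 : 0 ≤ c₂ * (1 + hW W) := by positivity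
      have : c₂ * (1 + hW W) * 1 ≤ c₂ * (1 + hW W) * (C₂ / lam * L) :=
        mul_le_mul_of_nonneg_left h1 h8
      nlinarith
    have hmax : max 1 R ≤ m * L := by
      rw [hm]
      refine max_le ?_ ?_
      · exact h1.trans (mul_le_mul_of_nonneg_right (le_max_right _ _) hLpos.le)
      · exact hR'.trans (mul_le_mul_of_nonneg_right (le_max_left _ _) hLpos.le)
    rw [inv_mul_le_iff₀ hmpos]
    exact hmax

end LangForms
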