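import Pool.Agent.Lib_MP_f5471b_nt.Defs

/-! # The abstract Tate limit -/

namespace LangForms

open Height NumberField WeierstrassCurve Topology Filter IsDedekindDomain

private theorem canX_step {X : Type} [AddCommGroup X] (h : X → ℝ) (C : ℝ)
    (hpar : ∀ P Q, |h (P + Q) + h (P - Q) - 2 * h P - 2 * h Q| ≤ C) (P : X) (n : ℕ) :
    dist (h ((2 ^ n) • P) / 4 ^ n) (h ((2 ^ (n + 1)) • P) / 4 ^ (n + 1)) ≤
      (3 * C / 8) * (1 / 4) ^ n := by
  have h0 := hpar 0 0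
  have h1 := hpar ((2 ^ n) • P) ((2 ^ n) • P)
  have h2 : (2 ^ n) • P + (2 ^ n) • P = (2 ^ (n + 1)) • P := by
    rw [← add_smul]
    congr 1
    ring
  rw [h2, sub_self] at h1
  simp only [add_zero, sub_zero] at h0
  rw [abs_le] at h0 h1
  rw [Real.dist_eq, pow_succ (4 : ℝ) n, one_div, inv_pow]
  have h4 : (0 : ℝ) < 4 ^ n := by positivity
  have h5 : h ((2 ^ n) • P) / 4 ^ n - h ((2 ^ (n + 1)) • P) / (4 ^ n * 4) =
      (4 * h ((2 ^ n) • P) - h ((2 ^ (n + 1)) • P)) / 4 * (4 ^ n)⁻¹ := by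
    field_simp
  rw [h5, abs_mul, abs_of_pos (inv_pos.2 h4)]
  refine mul_le_mul_of_nonneg_right ?_ (inv_pos.2 h4).le
  rw [abs_le]
  constructor <;> linarith [h0.1, h0.2, h1.1, h1.2]

theorem canX_tendsto {X : Type} [AddCommGroup X] (h : X → ℝ) (C : ℝ)
    (hpar : ∀ P Q, |h (P + Q) + h (P - Q) - 2 * h P - 2 * h Q| ≤ C) (P : X) :
    Tendsto (fun n : ℕ => h ((2 ^ n) • P) / 4 ^ n) atTop (𝓝 (canX h P)) := by
  have hc : CauchySeq (fun n : ℕ => h ((2 ^ n) • P) / 4 ^ n) :=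
    cauchySeq_of_le_geometric (1 / 4) (3 * C / 8) (by norm_num) (canX_step h C hpar P)
  exact hc.tendsto_limUnder

theorem canX_par {X : Type} [AddCommGroup X] (h : X → ℝ) (C : ℝ)
    (hpar : ∀ P Q, |h (P + Q) + h (P - Q) - 2 * h P - 2 * h Q| ≤ C) (P Q : X) :
    canX h (P + Q) + canX h (P - Q) = 2 * canX h P + 2 * canX h Q := by
  have h1 := canX_tendsto h C hpar (P + Q)
  have h2 := canX_tendsto h C hpar (P - Q)
  have h3 := canX_tendsto h C hpar P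
  have h4 := canX_tendsto h C hpar Q
  have h5 := ((h1.add h2).sub (h3.const_mul 2)).sub (h4.const_mul 2)
  have h6 : Tendsto (fun n : ℕ => C * (1 / 4 : ℝ) ^ n) atTop (𝓝 0) := by
    simpa using (tendsto_pow_atTop_nhds_zero_of_lt_one (by norm_num : (0 : ℝ) ≤ 1 / 4)
      (by norm_num)).const_mul C
  have h7 : Tendsto (fun n : ℕ => h ((2 ^ n) • (P + Q)) / 4 ^ n + h ((2 ^ n) • (P - Q)) / 4 ^ n -
      2 * (h ((2 ^ n) • P) / 4 ^ n) - 2 * (h ((2 ^ n) • Q) / 4 ^ n)) atTop (𝓝 0) := by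
    refine squeeze_zero_norm (fun n => ?_) h6
    have h8 := hpar ((2 ^ n) • P) ((2 ^ n) • Q)
    rw [← smul_add, ← smul_sub] at h8
    have h9 : (0 : ℝ) < 4 ^ n := by positivity
    have h10 : h ((2 ^ n) • (P + Q)) / 4 ^ n + h ((2 ^ n) • (P - Q)) / 4 ^ n -
      2 * (h ((2 ^ n) • P) / 4 ^ n) - 2 * (h ((2 ^ n) • Q) / 4 ^ n) =
      (h ((2 ^ n) • (P + Q)) + h ((2 ^ n) • (P - Q)) - 2 * h ((2 ^ n) • P) -
        2 * h ((2 ^ n) • Q)) * (4 ^ n)⁻¹ := by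
      field_simp
    rw [h10, norm_mul, Real.norm_eq_abs, Real.norm_eq_abs, abs_of_pos (inv_pos.2 h9), one_div,
      inv_pow]
    exact mul_le_mul_of_nonneg_right h8 (inv_pos.2 h9).le
  have h11 := tendsto_nhds_unique h5 h7
  linarith

theorem canX_bound {X : Type} [AddCommGroup X] (h : X → ℝ) (C : ℝ)
    (hpar : ∀ P Q, |h (P + Q) + h (P - Q) - 2 * h P - 2 * h Q| ≤ C) (P : X) :
    |canX h P - h P| ≤ C := by
  have h1 := dist_le_of_le_geometric_of_tendsto₀ (1 / 4) (3 * C / 8) (by norm_num)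
    (canX_step h C hpar P) (canX_tendsto h C hpar P)
  have h0 : 0 ≤ C := le_trans (abs_nonneg _) (hpar P P)
  rw [dist_comm, Real.dist_eq] at h1
  simp only [pow_zero, one_smul, div_one] at h1
  refine h1.trans ?_
  norm_num
  linarith

theorem canX_nonneg {X : Type} [AddCommGroup X] (h : X → ℝ) (C : ℝ)
    (hpar : ∀ P Q, |h (P + Q) + h (P - Q) - 2 * h P - 2 * h Q| ≤ C)
    (h0 : ∀ P, 0 ≤ h P) (P : X) : 0 ≤ canX h P :=
  ge_of_tendsto' (canX_tendsto h C hpar P) fun n => div_nonneg (h0 _) (by positivity)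

end LangForms
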