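import Pool.Agent.Lib_MP_f5471b_nt.Defs

/-!
# MP_f5471b_nt: pigeonhole, index of the span of almost minimal vectors
-/

namespace LangForms

open Finset

/-- The linear functional on `ℚ ^ g` given by an integer vector. -/
noncomputable def pig_L {g : ℕ} (ℓ : Fin g → ℤ) : (Fin g → ℚ) →ₗ[ℚ] ℚ :=
  ∑ a, (ℓ a : ℚ) • LinearMap.proj a

theorem pig_L_apply {g : ℕ} (ℓ : Fin g → ℤ) (v : Fin g → ℚ) :
    pig_L ℓ v = ∑ a, (ℓ a : ℚ) * v a := by
  simp [pig_L, LinearMap.sum_apply]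

/-- Common denominator of finitely many rational numbers. -/
theorem pig_common_den {ι : Type} [Fintype ι] (v : ι → ℚ) :
    ∃ (N : ℤ) (w : ι → ℤ), N ≠ 0 ∧ ∀ a, (N : ℚ) * v a = w a := by
  classical
  refine ⟨∏ a, ((v a).den : ℤ),
    fun a => (∏ b ∈ univ.erase a, ((v b).den : ℤ)) * (v a).num, ?_, ?_⟩
  · exact Finset.prod_ne_zero_iff.mpr fun a _ => by exact_mod_cast (v a).den_nz
  · intro a
    rw [← Finset.mul_prod_erase univ (fun a => ((v a).den : ℤ)) (mem_univ a)]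
    have h : ((v a).den : ℚ) * v a = (v a).num := Rat.den_mul_eq_num _
    push_cast
    rw [mul_comm ((v a).den : ℚ), mul_assoc, h]

theorem pig_rat_comb {D g : ℕ} (f : Fin D → Fin g → ℤ) (ψ : Fin g → ℤ)
    (h : ∀ v : Fin g → ℤ, (∀ i, f i ⬝ᵥ v = 0) → ψ ⬝ᵥ v = 0) :
    ∃ c : Fin D → ℚ, ∀ a, (ψ a : ℚ) = ∑ i, c i * f i a := by
  have hmem : pig_L ψ ∈ Submodule.span ℚ (Set.range fun i => pig_L (f i)) := by
    apply mem_span_of_iInf_ker_le_ker
    intro v hv
    rw [Submodule.mem_iInf] at hv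
    obtain ⟨N, w, hN, hw⟩ := pig_common_den v
    have key : ∀ ℓ : Fin g → ℤ, (N : ℚ) * pig_L ℓ v = ((ℓ ⬝ᵥ w : ℤ) : ℚ) := by
      intro ℓ
      rw [pig_L_apply, Finset.mul_sum, dotProduct]
      push_cast
      refine Finset.sum_congr rfl fun a _ => ?_
      rw [← hw a]; ring
    have hN' : (N : ℚ) ≠ 0 := by exact_mod_cast hN
    have h0 : ∀ i, f i ⬝ᵥ w = 0 := by
      intro i
      have h1 := key (f i)
      have h2 : pig_L (f i) v = 0 := hv i
      rw [h2, mul_zero] at h1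
      exact_mod_cast h1.symm
    have h3 := key ψ
    rw [h w h0, Int.cast_zero] at h3
    rw [LinearMap.mem_ker]
    exact (mul_eq_zero.mp h3).resolve_left hN'
  obtain ⟨c, hc⟩ := (Submodule.mem_span_range_iff_exists_fun ℚ).mp hmem
  refine ⟨c, fun a => ?_⟩
  have h4 := congrArg (fun L : (Fin g → ℚ) →ₗ[ℚ] ℚ => L (Pi.single a 1)) hc
  simp only [LinearMap.sum_apply, LinearMap.smul_apply, pig_L_apply, smul_eq_mul] at h4
  simpa [Pi.single_apply] using h4.symm

theorem pig_box (D : ℕ) (c : Fin D → ℚ) :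
    ∃ m : ℕ, 1 ≤ m ∧ m ≤ (2 * D) ^ D ∧ ∃ n : Fin D → ℤ,
      ∀ i, |(m : ℚ) * c i - n i| ≤ 1 / (2 * D) := by
  classical
  have hlt : ∀ (k : ℕ) (i : Fin D), (⌊(2 * D : ℚ) * Int.fract ((k : ℚ) * c i)⌋).toNat < 2 * D := by
    intro k i
    have hD : (0 : ℚ) < D := by
      have := i.pos
      exact_mod_cast this
    have h1 := Int.fract_lt_one ((k : ℚ) * c i)
    have h2 : (2 * D : ℚ) * Int.fract ((k : ℚ) * c i) < 2 * D := by nlinarith
    have h3 : ⌊(2 * D : ℚ) * Int.fract ((k : ℚ) * c i)⌋ < ((2 * D : ℕ) : ℤ) := by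
      rw [Int.floor_lt]; push_cast; exact h2
    have h4 : 0 < 2 * D := by
      have := i.pos
      omega
    omega
  let F : Fin ((2 * D) ^ D + 1) → (Fin D → Fin (2 * D)) := fun k i => ⟨_, hlt k i⟩
  have hcard : Fintype.card (Fin D → Fin (2 * D)) < Fintype.card (Fin ((2 * D) ^ D + 1)) := by
    simp
  obtain ⟨k₁, k₂, hne, hF⟩ := Fintype.exists_ne_map_eq_of_card_lt F hcard
  have main : ∀ k₁ k₂ : Fin ((2 * D) ^ D + 1), k₁ < k₂ → F k₁ = F k₂ →
      ∃ m : ℕ, 1 ≤ m ∧ m ≤ (2 * D) ^ D ∧ ∃ n : Fin D → ℤ,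
        ∀ i, |(m : ℚ) * c i - n i| ≤ 1 / (2 * D) := by
    intro k₁ k₂ hlt' hF
    refine ⟨(k₂ : ℕ) - k₁, ?_, ?_, fun i => ⌊((k₂ : ℕ) : ℚ) * c i⌋ - ⌊((k₁ : ℕ) : ℚ) * c i⌋, ?_⟩
    · have : (k₁ : ℕ) < k₂ := hlt'
      omega
    · have := k₂.is_lt
      omega
    · intro i
      have hD : (0 : ℚ) < D := by
        have := i.pos
        exact_mod_cast this
      have hle : (k₁ : ℕ) ≤ k₂ := le_of_lt hlt'
      have h1 : (⌊(2 * D : ℚ) * Int.fract (((k₁ : ℕ) : ℚ) * c i)⌋).toNat =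
          (⌊(2 * D : ℚ) * Int.fract (((k₂ : ℕ) : ℚ) * c i)⌋).toNat := by
        have := congrFun hF i
        exact congrArg Fin.val this
      have hnn : ∀ k : ℕ, 0 ≤ ⌊(2 * D : ℚ) * Int.fract ((k : ℚ) * c i)⌋ := by
        intro k
        apply Int.floor_nonneg.mpr
        have := Int.fract_nonneg ((k : ℚ) * c i)
        positivity
      have h2 : ⌊(2 * D : ℚ) * Int.fract (((k₁ : ℕ) : ℚ) * c i)⌋ =
          ⌊(2 * D : ℚ) * Int.fract (((k₂ : ℕ) : ℚ) * c i)⌋ := by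
        have a1 := hnn k₁
        have a2 := hnn k₂
        omega
      have h3 := Int.abs_sub_lt_one_of_floor_eq_floor h2
      rw [← mul_sub, abs_mul, abs_of_pos (by positivity : (0 : ℚ) < 2 * D)] at h3
      have h4 : (((k₂ : ℕ) - (k₁ : ℕ) : ℕ) : ℚ) * c i -
          ((⌊((k₂ : ℕ) : ℚ) * c i⌋ - ⌊((k₁ : ℕ) : ℚ) * c i⌋ : ℤ) : ℚ) =
          -(Int.fract (((k₁ : ℕ) : ℚ) * c i) - Int.fract (((k₂ : ℕ) : ℚ) * c i)) := by
        rw [Nat.cast_sub hle]
        unfold Int.fract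
        push_cast
        ring
      rw [h4, abs_neg, le_div_iff₀ (by positivity), mul_comm]
      exact h3.le
  rcases lt_or_gt_of_ne hne with h | h
  · exact main k₁ k₂ h hF
  · exact main k₂ k₁ h hF.symm

theorem pigeon (D : ℕ) : ∃ B : ℕ, 1 ≤ B ∧ ∀ (g : ℕ) (M : Matrix (Fin g) (Fin g) ℤ), IsPol M →
    ∀ (U : Submodule ℤ (Fin g → ℤ)), Saturated U → ∀ (s : ℝ), 0 < s →
    ∀ (f : Fin D → Fin g → ℤ), (∀ i, f i ∈ U) → (∀ i, Sh M s (f i)) →
      (∀ ℓ' ∈ U, Sh M (s / 4) ℓ' → ℓ' = 0) →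
      ∀ ψ : Fin g → ℤ, (∀ v : Fin g → ℤ, (∀ i, f i ⬝ᵥ v = 0) → ψ ⬝ᵥ v = 0) →
        ∃ m : ℕ, 1 ≤ m ∧ m ≤ B ∧ (m : ℤ) • ψ ∈ Submodule.span ℤ (Set.range f) := by
  refine ⟨(2 * D) ^ D, ?_, ?_⟩
  · rcases Nat.eq_zero_or_pos D with rfl | h
    · simp
    · exact Nat.one_le_pow _ _ (by omega)
  intro g M _ U hU s _ f hfU hfS hmin ψ hψ
  obtain ⟨c, hc⟩ := pig_rat_comb f ψ hψ
  obtain ⟨m, hm1, hm2, n, hn⟩ := pig_box D c
  refine ⟨m, hm1, hm2, ?_⟩
  -- `ψ ∈ U`
  have hψU : ψ ∈ U := by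
    obtain ⟨N, w, hN, hw⟩ := pig_common_den c
    apply hU N ψ hN
    have : N • ψ = ∑ i, w i • f i := by
      funext a
      have h1 : ((N * ψ a : ℤ) : ℚ) = ((∑ i, w i * f i a : ℤ) : ℚ) := by
        push_cast
        rw [hc a, Finset.mul_sum]
        refine Finset.sum_congr rfl fun i _ => ?_
        rw [← hw i]; ring
      have h2 : N * ψ a = ∑ i, w i * f i a := by exact_mod_cast h1
      simpa [Finset.sum_apply] using h2
    rw [this]
    exact Submodule.sum_mem _ fun i _ => U.smul_mem _ (hfU i)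
  have hz : (m : ℤ) • ψ - ∑ i, n i • f i = 0 := by
    rcases Nat.eq_zero_or_pos D with hD0 | hD
    · subst hD0
      have : ψ = 0 := by
        funext a
        have := hc a
        simp only [Finset.univ_eq_empty, Finset.sum_empty] at this
        exact_mod_cast this
      simp [this]
    apply hmin
    · exact U.sub_mem (U.smul_mem _ hψU) (Submodule.sum_mem _ fun i _ => U.smul_mem _ (hfU i))
    · intro v
      set Q : ℝ := ∑ a, ∑ b, v a * M a b * v b with hQ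
      have hDR : (0 : ℝ) < D := by exact_mod_cast hD
      set x : Fin D → ℝ := fun i => ∑ a, (f i a : ℝ) * v a with hx
      set ε : Fin D → ℝ := fun i => (((m : ℚ) * c i - n i : ℚ) : ℝ) with hε
      have hεb : ∀ i, ε i ^ 2 ≤ 1 / (4 * D ^ 2) := by
        intro i
        have h1 : |ε i| ≤ 1 / (2 * D) := by
          have h := hn i
          have h' : ((|(m : ℚ) * c i - n i| : ℚ) : ℝ) ≤ ((1 / (2 * D) : ℚ) : ℝ) := by
            exact_mod_cast h
          rw [Rat.cast_abs] at h'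
          push_cast at h'
          simpa [hε] using h'
        have h2 : ε i ^ 2 = |ε i| ^ 2 := (sq_abs _).symm
        rw [h2]
        calc |ε i| ^ 2 ≤ (1 / (2 * (D : ℝ))) ^ 2 := by gcongr
          _ = 1 / (4 * (D : ℝ) ^ 2) := by rw [div_pow, mul_pow]; norm_num
      have hxb : ∀ i, x i ^ 2 ≤ s * Q := fun i => hfS i v
      have hsum : (∑ a, ((((m : ℤ) • ψ - ∑ i, n i • f i) a : ℤ) : ℝ) * v a) = ∑ i, ε i * x i := by
        have h1 : ∀ a, ((((m : ℤ) • ψ - ∑ i, n i • f i) a : ℤ) : ℝ) = ∑ i, ε i * f i a := by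
          intro a
          have h2 : ((((m : ℤ) • ψ - ∑ i, n i • f i) a : ℤ) : ℚ) =
              ∑ i, ((m : ℚ) * c i - n i) * f i a := by
            simp only [Pi.sub_apply, Pi.smul_apply, Finset.sum_apply, smul_eq_mul, Int.cast_sub,
              Int.cast_mul, Int.cast_natCast, Int.cast_sum]
            rw [hc a, Finset.mul_sum, ← Finset.sum_sub_distrib]
            refine Finset.sum_congr rfl fun i _ => ?_
            ring
          have h3 := congrArg (fun q : ℚ => (q : ℝ)) h2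
          simp only [Rat.cast_intCast, Rat.cast_sum, Rat.cast_mul] at h3
          exact h3
        simp_rw [h1, Finset.sum_mul]
        rw [Finset.sum_comm]
        refine Finset.sum_congr rfl fun i _ => ?_
        rw [hx, Finset.mul_sum]
        refine Finset.sum_congr rfl fun a _ => ?_
        ring
      rw [hsum]
      have hsQ : 0 ≤ s * Q := le_trans (sq_nonneg _) (hxb ⟨0, hD⟩)
      calc (∑ i, ε i * x i) ^ 2 ≤ (∑ i, ε i ^ 2) * ∑ i, x i ^ 2 :=
            Finset.sum_mul_sq_le_sq_mul_sq _ _ _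
        _ ≤ (∑ _i : Fin D, 1 / (4 * (D : ℝ) ^ 2)) * ∑ _i : Fin D, s * Q := by
            gcongr with i _ i _
            · exact hεb i
            · exact hxb i
        _ = s / 4 * Q := by
            rw [Finset.sum_const, Finset.sum_const, Finset.card_univ, Fintype.card_fin]
            simp only [nsmul_eq_mul]
            field_simp
  rw [sub_eq_zero.mp hz]
  exact Submodule.sum_mem _ fun i _ =>
    Submodule.smul_mem _ _ (Submodule.subset_span ⟨i, rfl⟩)

end LangForms
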