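import Pool.Agent.Lib_MP_f5471b_nt.ShLem
import Pool.Agent.Lib_MP_f5471b_nt.PhiAct
import Pool.Agent.Lib_MP_f5471b_nt.Deg
import Pool.Agent.Lib_MP_f5471b_nt.Pig
import Pool.Agent.Lib_MP_f5471b_nt.SubPts

namespace LangForms

theorem core (g D : ℕ) (_hg : 1 ≤ g) (C₀ : ℝ) : ∃ C : ℝ, 0 < C ∧
    ∀ (G : Type) [Group G] [Finite G],
    Nat.card G ≤ D → ∀ (X : Type) [AddCommGroup X] (act : G → X →+ X)
    (ρ : G →* Matrix.GeneralLinearGroup (Fin g) ℤ)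
    (M : Matrix (Fin g) (Fin g) ℤ), IsPol M →
    (∀ σ, (ρ σ).val.transpose * M * (ρ σ).val = M) → ∀ (P : Fin g → X),
    (∀ σ a, ∑ b, (ρ σ).val a b • act σ (P b) = P a) →
    ∀ (U : Submodule ℤ (Fin g → ℤ)), Saturated U → (∀ σ, ∀ ℓ ∈ U, actL ρ σ ℓ ∈ U) →
    (∃ ℓ ∈ U, ℓ ≠ 0 ∧ Sh M C₀ ℓ) →
    ∃ ℓ ∈ U, ℓ ≠ 0 ∧ Sh M C₀ ℓ ∧ ∀ t : ℕ, 1 ≤ t → t • Phi P ℓ = 0 →
      Obstructed ρ M P (C * t) := by
  classical
  obtain ⟨C₁, hC₁, hdeg⟩ := deg_bound g D C₀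
  obtain ⟨B, hB1, hpig⟩ := pigeon D
  refine ⟨max C₁ (B.factorial : ℕ), lt_of_lt_of_le hC₁ (le_max_left _ _), ?_⟩
  intro G _ _ hG X _ act ρ M hM hinv P hP U hUs hUG h0
  obtain ⟨s, hs, hsC, ℓ, hℓU, hℓ0, hℓ, hmin⟩ := exists_min_short M hM U C₀ h0
  refine ⟨ℓ, hℓU, hℓ0, Sh_mono M hM hsC ℓ hℓ, ?_⟩
  intro t ht h0t
  -- enumerate the group
  obtain ⟨e, he⟩ : ∃ e : Fin D → G, Function.Surjective e := by
    have hpos : 0 < Nat.card G := Nat.card_pos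
    let e0 := (Finite.equivFin G).symm
    refine ⟨fun i => if h : (i : ℕ) < Nat.card G then e0 ⟨i, h⟩ else 1, ?_⟩
    intro x
    refine ⟨⟨e0.symm x, lt_of_lt_of_le (e0.symm x).2 hG⟩, ?_⟩
    simp
  obtain ⟨f, hf⟩ : ∃ f : Fin D → Fin g → ℤ, ∀ i, f i = actL ρ (e i) ℓ := ⟨_, fun _ => rfl⟩
  have hfSh : ∀ i, Sh M s (f i) := fun i => by rw [hf]; exact Sh_act ρ M hinv s ℓ hℓ _
  have hfU : ∀ i, f i ∈ U := fun i => by rw [hf]; exact hUG _ _ hℓU
  let Λ : Submodule ℤ (Fin g → ℤ) :=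
    { carrier := {v | ∀ i, f i ⬝ᵥ v = 0}
      add_mem' := by
        intro a b ha hb i
        rw [dotProduct_add, ha, hb, add_zero]
      zero_mem' := by intro i; simp
      smul_mem' := by
        intro c v hv i
        rw [dotProduct_smul, hv, smul_zero] }
  have hΛ : ∀ v, v ∈ Λ ↔ ∀ i, f i ⬝ᵥ v = 0 := fun v => Iff.rfl
  have hsat : Saturated Λ := by
    intro n v hn hv i
    have := hv i
    rw [dotProduct_smul, smul_eq_mul] at this
    exact (mul_eq_zero.1 this).resolve_left hn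
  have hΛtop : Λ ≠ ⊤ := by
    intro htop
    obtain ⟨i, hi⟩ := he 1
    apply hℓ0
    ext a
    have h1 : (Pi.single a 1 : Fin g → ℤ) ∈ Λ := by rw [htop]; trivial
    have h2 := h1 i
    rw [hf, hi, actL_one] at h2
    simpa using h2
  have hstab : ∀ σ, ∀ v ∈ Λ, (ρ σ).val.mulVec v ∈ Λ := by
    intro σ v hv i
    obtain ⟨j, hj⟩ := he (σ⁻¹ * e i)
    have h1 : f j ⬝ᵥ v = 0 := hv j
    have h2 : f j = Matrix.vecMul (f i) (ρ σ).val := by
      rw [hf, hj, actL_mul, ← hf]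
      simp [actL]
    rw [Matrix.dotProduct_mulVec, ← h2]
    exact h1
  have hdegΛ := hdeg M hM f (fun i => Sh_mono M hM hsC _ (hfSh i)) Λ hΛ
  have hpos : (0 : ℝ) < degB M ⊤ := by exact_mod_cast degB_top_pos M hM
  have ht1 : (1 : ℝ) ≤ t := by exact_mod_cast ht
  have hmaxpos : 0 < max C₁ (B.factorial : ℕ) := lt_of_lt_of_le hC₁ (le_max_left _ _)
  refine ⟨Λ, hΛtop, hsat, hstab, hdegΛ.trans ?_, t * B.factorial, ?_, ?_, ?_⟩
  · refine mul_le_mul_of_nonneg_right ?_ hpos.le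
    calc C₁ ≤ max C₁ (B.factorial : ℕ) := le_max_left _ _
      _ = max C₁ (B.factorial : ℕ) * 1 := (mul_one _).symm
      _ ≤ max C₁ (B.factorial : ℕ) * t := mul_le_mul_of_nonneg_left ht1 hmaxpos.le
  · exact Nat.mul_pos ht (Nat.factorial_pos B)
  · push_cast
    rw [mul_comm]
    exact mul_le_mul_of_nonneg_right (le_max_right _ _) (Nat.cast_nonneg _)
  · refine mem_subPts Λ hsat _ ?_
    intro ψ hψ
    obtain ⟨m, hm1, hmB, hmem⟩ := hpig g M hM U hUs s hs f hfU hfSh hmin ψ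
      (fun v hv => hψ v hv)
    -- the values on the span are killed by `t`
    have hspan : ∀ χ ∈ Submodule.span ℤ (Set.range f), t • Phi P χ = 0 := by
      intro χ hχ
      induction hχ using Submodule.span_induction with
      | mem x hx =>
        obtain ⟨i, rfl⟩ := hx
        rw [hf, ← Phi_act act ρ P hP, ← map_nsmul, h0t, map_zero]
      | zero => simp [Phi]
      | add x y _ _ hx hy => rw [Phi_add, smul_add, hx, hy, add_zero]
      | smul c x _ hx => rw [Phi_smul, smul_comm, hx, smul_zero]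
    have h3 := hspan _ hmem
    rw [Phi_smul] at h3
    rw [Phi_nsmul]
    obtain ⟨k, hk⟩ : m ∣ B.factorial := Nat.dvd_factorial hm1 hmB
    have h4 : (t * B.factorial) • Phi P ψ = k • (t • ((m : ℤ) • Phi P ψ)) := by
      rw [hk, natCast_zsmul, ← mul_smul, ← mul_smul]
      congr 1
      ring
    rw [h4, h3, smul_zero]

end LangForms
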