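import Mathlib

/-!
# MP_f5471b_nt: definitions

Strong Lang-Silverman lower bound for forms of powers of elliptic curves.

`K` is a number field, `W` an elliptic curve over `K` (a Weierstrass equation), `F / K` a finite
Galois extension with group `G`.  A homomorphism `ρ : G → GL_g(ℤ)` is a cocycle with values in
the automorphism group of `W ^ g`; it defines a form `A` of `W ^ g` over `K`, with
`A(K) = {P ∈ W(F) ^ g | ρ(σ) σ(P) = P for all σ}`.
-/

namespace LangForms

open Height NumberField WeierstrassCurve Topology Filter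

/-! ### Heights on the points of an elliptic curve over a number field -/

/-- The limit `h (2 ^ n P) / 4 ^ n` (Tate limit) of a function on an abelian group. -/
noncomputable def canX {X : Type} [AddCommGroup X] (h : X → ℝ) (P : X) : ℝ :=
  limUnder Filter.atTop fun n : ℕ => h ((2 ^ n) • P) / 4 ^ n

/-- The pairing attached to a quadratic function. -/
noncomputable def pairX {X : Type} [AddCommGroup X] (q : X → ℝ) (P Q : X) : ℝ :=
  (q (P + Q) - q P - q Q) / 2

section heights

variable {F : Type} [Field F] [NumberField F] {W : WeierstrassCurve F}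

/-- The naive height of the `x`-coordinate of a point, relative to the field `F`
(not divided by the degree); it is `0` for the point at infinity. -/
noncomputable def hx (Q : W.toAffine.Point) : ℝ := logHeight Q.xRep

variable [DecidableEq F]

/-- The (absolute) Neron-Tate height with respect to the divisor `(O)`:
`lim h (x (2 ^ n Q)) / (2 * [F : ℚ] * 4 ^ n)`. -/
noncomputable def nt (Q : W.toAffine.Point) : ℝ :=
  canX hx Q / (2 * Module.finrank ℚ F)

/-- The Neron-Tate height on `W ^ g` attached to the symmetric line bundle with matrix `M`. -/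
noncomputable def ntL {g : ℕ} (M : Matrix (Fin g) (Fin g) ℤ) (P : Fin g → W.toAffine.Point) : ℝ :=
  ∑ a, ∑ b, (M a b : ℝ) * pairX nt (P a) (P b)

end heights

/-- The logarithmic Weil height, relative to `K`, of the coefficient vector
`(1 : a₁ : a₂ : a₃ : a₄ : a₆)`. -/
noncomputable def hWrel {K : Type} [Field K] [NumberField K] (W : WeierstrassCurve K) : ℝ :=
  logHeight ![1, W.a₁, W.a₂, W.a₃, W.a₄, W.a₆]

/-- The absolute logarithmic Weil height of the coefficient vector
`(1 : a₁ : a₂ : a₃ : a₄ : a₆)`. -/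
noncomputable def hW {K : Type} [Field K] [NumberField K] (W : WeierstrassCurve K) : ℝ :=
  hWrel W / Module.finrank ℚ K

/-! ### Polarisations and abelian subvarieties in terms of lattices -/

/-- `M` is the matrix of a polarisation of `W ^ g`: symmetric and positive definite. -/
def IsPol {g : ℕ} (M : Matrix (Fin g) (Fin g) ℤ) : Prop :=
  M.IsSymm ∧ ∀ v : Fin g → ℤ, v ≠ 0 → 0 < v ⬝ᵥ M.mulVec v

/-- The vectors `v i` form a `ℤ`-basis of the lattice `Λ`. -/
def IsLatBasis {g d : ℕ} (Λ : Submodule ℤ (Fin g → ℤ)) (v : Fin d → Fin g → ℤ) : Prop :=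
  LinearIndependent ℤ v ∧ Submodule.span ℤ (Set.range v) = Λ

theorem exists_latBasis {g : ℕ} (Λ : Submodule ℤ (Fin g → ℤ)) :
    ∃ v : Fin (Module.finrank ℤ Λ) → Fin g → ℤ, IsLatBasis Λ v := by
  refine ⟨fun i => (Module.finBasis ℤ Λ i : Fin g → ℤ), ?_, ?_⟩
  · exact (Module.finBasis ℤ Λ).linearIndependent.map' Λ.subtype (Submodule.ker_subtype Λ)
  · have h := congrArg (Submodule.map Λ.subtype) (Module.finBasis ℤ Λ).span_eq
    rw [Submodule.map_span, Submodule.map_top, Submodule.range_subtype, ← Set.range_comp] at h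
    exact h

/-- A `ℤ`-basis of the lattice `Λ`. -/
noncomputable def latVec {g : ℕ} (Λ : Submodule ℤ (Fin g → ℤ)) :
    Fin (Module.finrank ℤ Λ) → Fin g → ℤ :=
  Classical.choose (exists_latBasis Λ)

/-- The Gram determinant of the vectors `v i` for the form `M`. -/
def gramDet {g d : ℕ} (M : Matrix (Fin g) (Fin g) ℤ) (v : Fin d → Fin g → ℤ) : ℤ :=
  (Matrix.of fun i j => v i ⬝ᵥ M.mulVec (v j)).det

/-- The determinant of the form `M` on the sublattice `Λ` of `ℤ ^ g`. -/
noncomputable def gdet {g : ℕ} (M : Matrix (Fin g) (Fin g) ℤ)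
    (Λ : Submodule ℤ (Fin g → ℤ)) : ℤ :=
  gramDet M (latVec Λ)

/-- The degree of the abelian subvariety `B = Λ ⊗ W` of `W ^ g` for the polarisation `M`. -/
noncomputable def degB {g : ℕ} (M : Matrix (Fin g) (Fin g) ℤ)
    (Λ : Submodule ℤ (Fin g → ℤ)) : ℤ :=
  (Module.finrank ℤ Λ).factorial * gdet M Λ

/-- The group of points of the abelian subvariety `Λ ⊗ W` of `W ^ g`: it is generated by
the points `(v₁ Q, …, v_g Q)` with `v ∈ Λ` and `Q` a point of `W`. -/
def subPts {X : Type} [AddCommGroup X] {g : ℕ} (Λ : Submodule ℤ (Fin g → ℤ)) :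
    AddSubgroup (Fin g → X) :=
  AddSubgroup.closure {P | ∃ v ∈ Λ, ∃ Q : X, P = fun a => v a • Q}

/-- `Λ` is saturated in `ℤ ^ g`. -/
def Saturated {g : ℕ} (Λ : Submodule ℤ (Fin g → ℤ)) : Prop :=
  ∀ (n : ℤ) (v : Fin g → ℤ), n ≠ 0 → n • v ∈ Λ → v ∈ Λ

/-- Alternative (a): a proper abelian subvariety `B = Λ ⊗ W`, defined over `K` (that is,
stable under `ρ`), of degree at most `c` times the degree of `A`, such that the order of `P`
modulo `B` is at most `c`. -/
def Obstructed {G : Type} [Group G] {X : Type} [AddCommGroup X] {g : ℕ}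
    (ρ : G →* Matrix.GeneralLinearGroup (Fin g) ℤ) (M : Matrix (Fin g) (Fin g) ℤ)
    (P : Fin g → X) (c : ℝ) : Prop :=
  ∃ Λ : Submodule ℤ (Fin g → ℤ), Λ ≠ ⊤ ∧ Saturated Λ ∧
    (∀ σ, ∀ v ∈ Λ, (ρ σ).val.mulVec v ∈ Λ) ∧
    (degB M Λ : ℝ) ≤ c * degB M ⊤ ∧
    ∃ n : ℕ, 1 ≤ n ∧ (n : ℝ) ≤ c ∧ n • P ∈ subPts (X := X) Λ

/-- The action of an automorphism of `F / K` on the points of `W` over `F`. -/
noncomputable def gal {K F : Type} [Field K] [Field F] [DecidableEq F] [Algebra K F]
    {W : WeierstrassCurve K} (σ : F ≃ₐ[K] F) :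
    (W.baseChange F).toAffine.Point →+ (W.baseChange F).toAffine.Point :=
  Affine.Point.map (W' := W.toAffine) (σ : F →ₐ[K] F)

/-- `P` is a `K`-point of the form `A` of `W ^ g` given by the cocycle `ρ`:
`ρ(σ) σ(P) = P` for all `σ`. -/
def IsKPoint {K F : Type} [Field K] [Field F] [DecidableEq F] [Algebra K F]
    {W : WeierstrassCurve K} {g : ℕ}
    (ρ : (F ≃ₐ[K] F) →* Matrix.GeneralLinearGroup (Fin g) ℤ)
    (P : Fin g → (W.baseChange F).toAffine.Point) : Prop :=
  ∀ σ a, ∑ b, (ρ σ).val a b • gal σ (P b) = P a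

/-- `M` is the matrix of a polarisation of `W ^ g` which is invariant under `ρ`, that is, of a
polarisation of the form `A` of `W ^ g` given by `ρ`. -/
def IsPolForm {G : Type} [Group G] {g : ℕ} (ρ : G →* Matrix.GeneralLinearGroup (Fin g) ℤ)
    (M : Matrix (Fin g) (Fin g) ℤ) : Prop :=
  IsPol M ∧ ∀ σ, (ρ σ).val.transpose * M * (ρ σ).val = M

/-- `c R ≤ h`, where `R` is the sum of `log N p / [K : ℚ]` over the primes `p` of `K` which are
ramified in `F`. -/
def RamLe (K F : Type) [Field K] [NumberField K] [Field F] [NumberField F] [Algebra K F]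
    (c h : ℝ) : Prop :=
  ∀ S : Finset (Ideal (𝓞 K)),
    (∀ p ∈ S, p.IsMaximal ∧ p ≠ ⊥ ∧ ¬ Algebra.IsUnramifiedIn (𝓞 F) p) →
    c * ((∑ p ∈ S, Real.log (Ideal.absNorm p)) / Module.finrank ℚ K) ≤ h

instance {K F : Type} [Field K] [Field F] [Algebra K F] (W : WeierstrassCurve K) [W.IsElliptic] :
    (W.baseChange F).IsElliptic :=
  inferInstanceAs (W.map (algebraMap K F)).IsElliptic

/-! ### Auxiliary notions used in the proofs -/

/-- The value of the character `ℓ` at the point `P`. -/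
def Phi {X : Type} [AddCommGroup X] {g : ℕ} (P : Fin g → X) (ℓ : Fin g → ℤ) : X :=
  ∑ a, ℓ a • P a

/-- The action of `G` on characters. -/
def actL {G : Type} [Group G] {g : ℕ} (ρ : G →* Matrix.GeneralLinearGroup (Fin g) ℤ)
    (σ : G) (ℓ : Fin g → ℤ) : Fin g → ℤ :=
  Matrix.vecMul ℓ (ρ σ⁻¹).val

/-- The character `ℓ` is short: `(ℓ v) ^ 2 ≤ s M[v]`. -/
def Sh {g : ℕ} (M : Matrix (Fin g) (Fin g) ℤ) (s : ℝ) (ℓ : Fin g → ℤ) : Prop :=
  ∀ v : Fin g → ℝ, (∑ a, (ℓ a : ℝ) * v a) ^ 2 ≤ s * ∑ a, ∑ b, v a * M a b * v b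

/-- The characters killed by the norm of the subgroup `N`. -/
noncomputable def UN {G : Type} [Group G] {g : ℕ}
    (ρ : G →* Matrix.GeneralLinearGroup (Fin g) ℤ) (N : Subgroup G) :
    Submodule ℤ (Fin g → ℤ) :=
  LinearMap.ker (Matrix.vecMulLinear (∑ᶠ n : N, (ρ (n : G)).val))

/-- The coefficient vector of a Weierstrass curve. -/
def cvec {F : Type} [Field F] (W : WeierstrassCurve F) : Fin 6 → F :=
  ![1, W.a₁, W.a₂, W.a₃, W.a₄, W.a₆]

/-- `σ` acts trivially on `𝓞 F` modulo the prime `v`. -/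
def InIn {K F : Type} [Field K] [Field F] [NumberField F] [Algebra K F]
    (v : IsDedekindDomain.HeightOneSpectrum (𝓞 F)) (σ : F ≃ₐ[K] F) : Prop :=
  ∀ z : 𝓞 F, v.valuation F (σ (z : F) - z) < 1

/-- `v` is a prime at which the Weierstrass equation `W` is integral with unit discriminant. -/
def Good {F : Type} [Field F] [NumberField F] (W : WeierstrassCurve F)
    (v : IsDedekindDomain.HeightOneSpectrum (𝓞 F)) : Prop :=
  v.valuation F W.a₁ ≤ 1 ∧ v.valuation F W.a₂ ≤ 1 ∧ v.valuation F W.a₃ ≤ 1 ∧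
  v.valuation F W.a₄ ≤ 1 ∧ v.valuation F W.a₆ ≤ 1 ∧ v.valuation F W.Δ = 1

end LangForms
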