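import Pool.Agent.Lib_MP_f5471b_nt.RPD

/-!
# MP_f5471b_nt: Minkowski's theorem for the dual form
-/

namespace LangForms

open MeasureTheory Matrix
open scoped MatrixOrder

namespace Mink

/-- A real matrix of determinant at most one in absolute value sends some nonzero integer vector
into the unit cube. -/
theorem linear_forms {r : ℕ} (hr : 1 ≤ r) (C : Matrix (Fin r) (Fin r) ℝ) (h0 : C.det ≠ 0)
    (h1 : |C.det| ≤ 1) :
    ∃ κ : Fin r → ℤ, κ ≠ 0 ∧ ∀ i, |(C.mulVec fun a => (κ a : ℝ)) i| ≤ 1 := by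
  classical
  have : Nonempty (Fin r) := ⟨⟨0, hr⟩⟩
  let b : Module.Basis (Fin r) ℝ (Fin r → ℝ) := Pi.basisFun ℝ (Fin r)
  let f : (Fin r → ℝ) →ₗ[ℝ] (Fin r → ℝ) := Matrix.toLin' C
  have hf : LinearMap.det f ≠ 0 := by
    simpa [f, LinearMap.det_toLin'] using h0
  have hfd : |(LinearMap.det f)⁻¹| = |C.det|⁻¹ := by
    simp [f, LinearMap.det_toLin', abs_inv]
  let s : Set (Fin r → ℝ) := f ⁻¹' Metric.closedBall 0 1
  have hvol : volume s = ENNReal.ofReal (|C.det|⁻¹) * ENNReal.ofReal (2 ^ r) := by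
    have h := MeasureTheory.Measure.addHaar_preimage_linearMap
      (volume : Measure (Fin r → ℝ)) hf (Metric.closedBall 0 1)
    rw [hfd, Real.volume_pi_closedBall 0 zero_le_one] at h
    simpa using h
  have hcpt : IsCompact s := by
    have h := (((f.equivOfDetNeZero hf).toContinuousLinearEquiv).toHomeomorph).isCompact_preimage
      (s := Metric.closedBall (0 : Fin r → ℝ) 1)
    exact h.2 (isCompact_closedBall _ _)
  have hfund := ZSpan.isAddFundamentalDomain' b (volume : Measure (Fin r → ℝ))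
  have hF : volume (ZSpan.fundamentalDomain b) = 1 := by
    rw [ZSpan.volume_fundamentalDomain]
    have : (Matrix.of b) = (1 : Matrix (Fin r) (Fin r) ℝ) := by
      ext i j
      simp [b, Matrix.one_apply, Pi.single_apply, eq_comm]
    rw [this]
    simp
  have hle : volume (ZSpan.fundamentalDomain b) * 2 ^ Module.finrank ℝ (Fin r → ℝ) ≤
      volume s := by
    rw [hF, hvol, one_mul, Module.finrank_fin_fun, ENNReal.ofReal_pow zero_le_two]
    have h2 : (1 : ENNReal) ≤ ENNReal.ofReal (|C.det|⁻¹) := by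
      rw [ENNReal.one_le_ofReal]
      exact (one_le_inv₀ (abs_pos.2 h0)).2 h1
    calc (2 : ENNReal) ^ r = 1 * (2 : ENNReal) ^ r := (one_mul _).symm
      _ ≤ ENNReal.ofReal (|C.det|⁻¹) * (ENNReal.ofReal 2) ^ r := by
          rw [show ENNReal.ofReal 2 = 2 by simp]
          gcongr
  have : DiscreteTopology (Submodule.span ℤ (Set.range b)).toAddSubgroup :=
    inferInstanceAs (DiscreteTopology (Submodule.span ℤ (Set.range b)))
  have : Countable (Submodule.span ℤ (Set.range b)).toAddSubgroup :=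
    inferInstanceAs (Countable (Submodule.span ℤ (Set.range b)))
  obtain ⟨x, hx0, hxs⟩ := exists_ne_zero_mem_lattice_of_measure_mul_two_pow_le_measure hfund
    (s := s)
    (fun x hx => by
      simp only [s, Set.mem_preimage, mem_closedBall_zero_iff] at hx ⊢
      rwa [map_neg, norm_neg])
    ((convex_closedBall (0 : Fin r → ℝ) 1).linear_preimage f) hcpt hle
  have hxm : (x : Fin r → ℝ) ∈ Submodule.span ℤ (Set.range b) := x.2
  rw [Module.Basis.mem_span_iff_repr_mem] at hxm
  choose κ hκ using hxm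
  have hκ' : (fun a => (κ a : ℝ)) = (x : Fin r → ℝ) := by
    funext a
    have := hκ a
    simpa [b] using this
  refine ⟨κ, ?_, ?_⟩
  · rintro rfl
    apply hx0
    apply Subtype.ext
    rw [← hκ']
    funext a
    simp
  · intro i
    rw [hκ']
    simp only [s, Set.mem_preimage, mem_closedBall_zero_iff] at hxs
    have := (pi_norm_le_iff_of_nonneg zero_le_one).1 hxs i
    simpa [f, Matrix.toLin'_apply] using this

end Mink

theorem minkA {r : ℕ} (hr : 1 ≤ r) (A : Matrix (Fin r) (Fin r) ℤ) (hA : IsPol A) :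
    ∃ κ : Fin r → ℤ, κ ≠ 0 ∧ Sh A r κ := by
  classical
  have hP := posDef_real A hA
  obtain ⟨B, hB⟩ := CStarAlgebra.nonneg_iff_eq_star_mul_self.mp hP.posSemidef.nonneg
  have hB' : A.map (Int.cast : ℤ → ℝ) = B.transpose * B := by
    rw [hB]
    simp [star_eq_conjTranspose]
  have hdet : (A.map (Int.cast : ℤ → ℝ)).det = ((A.det : ℤ) : ℝ) := by
    have := (Int.castRingHom ℝ).map_det A
    simpa [RingHom.mapMatrix_apply] using this.symm
  have hpos : 0 < (A.map (Int.cast : ℤ → ℝ)).det := hP.det_pos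
  have hge : (1 : ℝ) ≤ B.det ^ 2 := by
    have h1 : 0 < A.det := by
      rw [hdet] at hpos
      exact_mod_cast hpos
    have h2 : (1 : ℝ) ≤ ((A.det : ℤ) : ℝ) := by exact_mod_cast h1
    rw [← hdet, hB', Matrix.det_mul, Matrix.det_transpose] at h2
    nlinarith
  have hdB : 1 ≤ |B.det| := by
    rw [← sq_abs] at hge
    nlinarith [abs_nonneg B.det]
  have hB0 : B.det ≠ 0 := by
    intro h
    rw [h] at hdB
    simp at hdB
    linarith
  have hunit : IsUnit B.det := isUnit_iff_ne_zero.2 hB0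
  obtain ⟨κ, hκ0, hκ⟩ := Mink.linear_forms hr (B⁻¹).transpose
    (by rw [Matrix.det_transpose, Matrix.det_nonsing_inv]; simpa using hB0)
    (by
      rw [Matrix.det_transpose, Matrix.det_nonsing_inv]
      rw [Ring.inverse_eq_inv', abs_inv]
      exact inv_le_one_of_one_le₀ hdB)
  refine ⟨κ, hκ0, fun v => ?_⟩
  set y : Fin r → ℝ := (B⁻¹).transpose.mulVec fun a => (κ a : ℝ) with hy
  have e1 : ∑ a, (κ a : ℝ) * v a = ∑ i, y i * (B.mulVec v) i := by
    have h1 : y ⬝ᵥ B.mulVec v = (fun a => (κ a : ℝ)) ⬝ᵥ v := by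
      rw [hy, Matrix.mulVec_transpose, ← Matrix.dotProduct_mulVec, Matrix.mulVec_mulVec,
        Matrix.nonsing_inv_mul _ hunit, Matrix.one_mulVec]
    simpa [dotProduct] using h1.symm
  have e2 : ∑ i, (B.mulVec v) i ^ 2 = ∑ a, ∑ b, v a * A a b * v b := by
    have h1 : B.mulVec v ⬝ᵥ B.mulVec v = v ⬝ᵥ (A.map (Int.cast : ℤ → ℝ)).mulVec v := by
      rw [hB', ← Matrix.mulVec_mulVec, Matrix.dotProduct_mulVec v, Matrix.vecMul_transpose]
    have h2 : v ⬝ᵥ (A.map (Int.cast : ℤ → ℝ)).mulVec v = ∑ a, ∑ b, v a * A a b * v b := by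
      simp only [dotProduct, Matrix.mulVec, Matrix.map_apply, Finset.mul_sum]
      refine Finset.sum_congr rfl fun a _ => Finset.sum_congr rfl fun b _ => by ring
    rw [← h2, ← h1]
    simp only [dotProduct, sq]
  rw [e1, ← e2]
  calc (∑ i, y i * (B.mulVec v) i) ^ 2 ≤ (∑ i, y i ^ 2) * ∑ i, (B.mulVec v) i ^ 2 :=
        Finset.sum_mul_sq_le_sq_mul_sq _ _ _
    _ ≤ r * ∑ i, (B.mulVec v) i ^ 2 := by
        apply mul_le_mul_of_nonneg_right _ (Finset.sum_nonneg fun i _ => sq_nonneg _)
        calc ∑ i, y i ^ 2 ≤ ∑ _i : Fin r, (1 : ℝ) := by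
              apply Finset.sum_le_sum
              intro i _
              have := hκ i
              rw [← sq_abs]
              nlinarith [abs_nonneg (y i)]
          _ = r := by simp

end LangForms
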