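import Pool.Agent.Lib_MP_f5471b_nt.RPD

namespace LangForms

namespace ShL

theorem quad_nonneg {g : ℕ} (M : Matrix (Fin g) (Fin g) ℤ) (hM : IsPol M) (v : Fin g → ℝ) :
    0 ≤ ∑ a, ∑ b, v a * M a b * v b := by
  have h := (posDef_real M hM).posSemidef.dotProduct_mulVec_nonneg v
  have h2 : star v ⬝ᵥ (M.map (Int.cast : ℤ → ℝ)).mulVec v = ∑ a, ∑ b, v a * M a b * v b := by
    simp only [dotProduct, Matrix.mulVec, Pi.star_apply, star_trivial, Matrix.map_apply,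
      Finset.mul_sum, mul_assoc]
  rw [h2] at h
  exact h

/-- The `M`-norm is invariant under `ρ σ`. -/
theorem quad_inv {g : ℕ} (M R : Matrix (Fin g) (Fin g) ℤ) (h : R.transpose * M * R = M)
    (v : Fin g → ℝ) :
    ∑ a, ∑ b, (∑ c, (R a c : ℝ) * v c) * M a b * (∑ c, (R b c : ℝ) * v c) =
      ∑ a, ∑ b, v a * M a b * v b := by
  have h1 : (R.map (Int.cast : ℤ → ℝ)).transpose * (M.map (Int.cast : ℤ → ℝ)) *
      (R.map (Int.cast : ℤ → ℝ)) = M.map (Int.cast : ℤ → ℝ) := by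
    have := congrArg (fun A : Matrix (Fin g) (Fin g) ℤ => A.map (Int.castRingHom ℝ)) h
    simp only [Matrix.map_mul] at this
    exact this
  have h2 : ∀ w : Fin g → ℝ, ∑ a, ∑ b, w a * M a b * w b =
      w ⬝ᵥ (M.map (Int.cast : ℤ → ℝ)).mulVec w := by
    intro w
    simp only [dotProduct, Matrix.mulVec, Matrix.map_apply, Finset.mul_sum, mul_assoc]
  have h3 := h2 (fun a => ∑ c, (R a c : ℝ) * v c)
  have h4 : (fun a => ∑ c, (R a c : ℝ) * v c) = (R.map (Int.cast : ℤ → ℝ)).mulVec v := by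
    ext a; simp [Matrix.mulVec, dotProduct]
  rw [h3, h2 v, h4]
  conv_rhs => rw [← h1]
  rw [← Matrix.mulVec_mulVec, ← Matrix.mulVec_mulVec]
  conv_rhs => rw [Matrix.dotProduct_mulVec v, Matrix.vecMul_transpose]

end ShL

theorem Sh_mono {g : ℕ} (M : Matrix (Fin g) (Fin g) ℤ) (hM : IsPol M) {s s' : ℝ} (h : s ≤ s')
    (ℓ : Fin g → ℤ) (hℓ : Sh M s ℓ) : Sh M s' ℓ := fun v =>
  (hℓ v).trans (mul_le_mul_of_nonneg_right h (ShL.quad_nonneg M hM v))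

theorem Sh_sub {g : ℕ} (M : Matrix (Fin g) (Fin g) ℤ) (s : ℝ)
    (ℓ ℓ' : Fin g → ℤ) (hℓ : Sh M s ℓ) (hℓ' : Sh M s ℓ') : Sh M (4 * s) (ℓ - ℓ') := by
  intro v
  have h1 := hℓ v
  have h2 := hℓ' v
  have h3 : ∑ a, (((ℓ - ℓ') a : ℤ) : ℝ) * v a =
      ∑ a, (ℓ a : ℝ) * v a - ∑ a, (ℓ' a : ℝ) * v a := by
    rw [← Finset.sum_sub_distrib]
    refine Finset.sum_congr rfl fun a _ => ?_
    rw [Pi.sub_apply]; push_cast; ring
  rw [h3]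
  nlinarith [sq_nonneg (∑ a, (ℓ a : ℝ) * v a + ∑ a, (ℓ' a : ℝ) * v a)]

theorem Sh_act {G : Type} [Group G] {g : ℕ} (ρ : G →* Matrix.GeneralLinearGroup (Fin g) ℤ)
    (M : Matrix (Fin g) (Fin g) ℤ) (hinv : ∀ σ, (ρ σ).val.transpose * M * (ρ σ).val = M)
    (s : ℝ) (ℓ : Fin g → ℤ) (h : Sh M s ℓ) (σ : G) : Sh M s (actL ρ σ ℓ) := by
  intro v
  have h1 := h (fun a => ∑ c, ((ρ σ⁻¹).val a c : ℝ) * v c)
  rw [ShL.quad_inv M _ (hinv σ⁻¹)] at h1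
  refine le_trans (le_of_eq ?_) h1
  congr 1
  simp only [actL, Matrix.vecMul, dotProduct, Finset.mul_sum]
  push_cast
  simp only [Finset.sum_mul]
  rw [Finset.sum_comm]
  refine Finset.sum_congr rfl fun a _ => Finset.sum_congr rfl fun b _ => ?_
  ring

theorem exists_min_short {g : ℕ} (M : Matrix (Fin g) (Fin g) ℤ) (hM : IsPol M)
    (U : Submodule ℤ (Fin g → ℤ)) (C₀ : ℝ) (h0 : ∃ ℓ ∈ U, ℓ ≠ 0 ∧ Sh M C₀ ℓ) :
    ∃ s : ℝ, 0 < s ∧ s ≤ C₀ ∧ ∃ ℓ ∈ U, ℓ ≠ 0 ∧ Sh M s ℓ ∧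
      ∀ ℓ' ∈ U, Sh M (s / 4) ℓ' → ℓ' = 0 := by
  classical
  -- lower bound
  let m : ℝ := 1 + ∑ a, |(M a a : ℝ)|
  have hm : 0 < m := by positivity
  have hlow : ∀ s : ℝ, ∀ ℓ : Fin g → ℤ, ℓ ≠ 0 → Sh M s ℓ → 1 / m ≤ s := by
    intro s ℓ hℓ hs
    obtain ⟨a, ha⟩ := Function.ne_iff.1 hℓ
    have h1 := hs (Pi.single a 1)
    have h2 : ∑ b, (ℓ b : ℝ) * (Pi.single a (1 : ℝ) : Fin g → ℝ) b = ℓ a := by
      simp [Pi.single_apply]
    have h3 : ∑ c, ∑ b, (Pi.single a (1 : ℝ) : Fin g → ℝ) c * M c b *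
        (Pi.single a (1 : ℝ) : Fin g → ℝ) b = M a a := by
      simp [Pi.single_apply]
    rw [h2, h3] at h1
    have h4 : (1 : ℝ) ≤ (ℓ a : ℝ) ^ 2 := by
      have : (1 : ℤ) ≤ (ℓ a) ^ 2 := by
        have hne : ℓ a ≠ 0 := ha
        have := sq_pos_of_ne_zero hne
        lia
      exact_mod_cast this
    have h5 : (1 : ℝ) ≤ s * M a a := h4.trans h1
    have h6 : |(M a a : ℝ)| ≤ m := by
      have := Finset.single_le_sum (f := fun a => |(M a a : ℝ)|) (fun _ _ => abs_nonneg _)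
        (Finset.mem_univ a)
      simp only [m]; linarith
    have h7 : (0 : ℝ) ≤ M a a := by
      have := ShL.quad_nonneg M hM (Pi.single a 1)
      rwa [h3] at this
    have hspos : 0 < s := by
      by_contra hcon
      have : s * M a a ≤ 0 := mul_nonpos_of_nonpos_of_nonneg (not_lt.1 hcon) h7
      linarith
    rw [div_le_iff₀ hm]
    refine h5.trans ?_
    exact mul_le_mul_of_nonneg_left ((le_abs_self _).trans h6) hspos.le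
  let A : Set ℝ := {s | ∃ ℓ ∈ U, ℓ ≠ 0 ∧ Sh M s ℓ}
  have hAne : A.Nonempty := ⟨C₀, h0⟩
  have hAbdd : BddBelow A := ⟨1 / m, fun s ⟨ℓ, _, h1, h2⟩ => hlow s ℓ h1 h2⟩
  have hinf : 1 / m ≤ sInf A := le_csInf hAne fun s ⟨ℓ, _, h1, h2⟩ => hlow s ℓ h1 h2
  have hinfpos : 0 < sInf A := lt_of_lt_of_le (by positivity) hinf
  obtain ⟨s, hs1, hs2, hs3⟩ : ∃ s ∈ A, s ≤ C₀ ∧ s < 2 * sInf A := by
    by_cases h : C₀ < 2 * sInf A
    · exact ⟨C₀, h0, le_rfl, h⟩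
    · obtain ⟨s, hs, hlt⟩ := exists_lt_of_csInf_lt hAne (show sInf A < 2 * sInf A by linarith)
      exact ⟨s, hs, by linarith, hlt⟩
  have hsA : sInf A ≤ s := csInf_le hAbdd hs1
  obtain ⟨ℓ, hℓU, hℓ0, hℓ⟩ := hs1
  refine ⟨s, by linarith, hs2, ℓ, hℓU, hℓ0, hℓ, ?_⟩
  intro ℓ' hℓ'U hℓ'
  by_contra hne
  have : sInf A ≤ s / 4 := csInf_le hAbdd ⟨ℓ', hℓ'U, hne, hℓ'⟩
  linarith

end LangForms
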