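import Pool.Agent.Lib_MP_f5471b_nt.Defs
import Pool.Agent.Lib_MP_f5471b_nt.RPD
import Pool.Agent.Lib_MP_f5471b_nt.MinkA

namespace LangForms

namespace UNm

open Matrix

/-- real version of an integer matrix -/
def toR {m n : Type*} (X : Matrix m n ℤ) : Matrix m n ℝ := X.map (Int.cast : ℤ → ℝ)

theorem toR_mul {m n p : Type*} [Fintype n] (X : Matrix m n ℤ) (Y : Matrix n p ℤ) :
    toR (X * Y) = toR X * toR Y := by
  ext i j
  simp [toR, Matrix.mul_apply]

theorem toR_transpose {m n : Type*} (X : Matrix m n ℤ) : toR Xᵀ = (toR X)ᵀ := rfl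

section norm

variable {G : Type} [Group G] {g : ℕ} (ρ : G →* Matrix.GeneralLinearGroup (Fin g) ℤ)
  (N : Subgroup G)

/-- the norm of the subgroup `N` -/
noncomputable def S : Matrix (Fin g) (Fin g) ℤ := ∑ᶠ n : N, (ρ (n : G)).val

theorem mem_UN {ℓ : Fin g → ℤ} : ℓ ∈ UN ρ N ↔ Matrix.vecMul ℓ (S ρ N) = 0 := by
  simp [UN, S, LinearMap.mem_ker]

theorem rho_mul (a b : G) : (ρ (a * b)).val = (ρ a).val * (ρ b).val := by
  rw [map_mul]; rfl

variable [Finite G]

theorem S_mul (m : N) : S ρ N * (ρ (m : G)).val = S ρ N := by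
  have := Fintype.ofFinite N
  rw [S, finsum_eq_sum_of_fintype, Finset.sum_mul]
  refine Fintype.sum_equiv (Equiv.mulRight m) _ _ fun n => ?_
  rw [← rho_mul]
  rfl

theorem mul_S (m : N) : (ρ (m : G)).val * S ρ N = S ρ N := by
  have := Fintype.ofFinite N
  rw [S, finsum_eq_sum_of_fintype, Finset.mul_sum]
  refine Fintype.sum_equiv (Equiv.mulLeft m) _ _ fun n => ?_
  rw [← rho_mul]
  rfl

theorem S_sq : S ρ N * S ρ N = (Nat.card N : ℤ) • S ρ N := by
  have := Fintype.ofFinite N
  have h1 : S ρ N = ∑ n : N, (ρ (n : G)).val := by rw [S, finsum_eq_sum_of_fintype]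
  have h2 : S ρ N * S ρ N = (∑ n : N, (ρ (n : G)).val) * S ρ N := congrArg (· * S ρ N) h1
  rw [h2, Finset.sum_mul]
  simp_rw [mul_S]
  simp

theorem conj_S [N.Normal] (σ : G) : (ρ σ).val * S ρ N = S ρ N * (ρ σ).val := by
  have := Fintype.ofFinite N
  rw [S, finsum_eq_sum_of_fintype, Finset.mul_sum, Finset.sum_mul]
  refine Fintype.sum_equiv (MulAut.conjNormal σ).toEquiv _ _ fun n => ?_
  rw [← rho_mul, ← rho_mul]
  congr 2
  simp

end norm

/-! the quadratic form -/

variable {g : ℕ}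

/-- the bilinear form of `M` -/
def bil (M : Matrix (Fin g) (Fin g) ℤ) (x y : Fin g → ℝ) : ℝ := x ⬝ᵥ (toR M *ᵥ y)

theorem quad_eq {r : ℕ} (M : Matrix (Fin r) (Fin r) ℤ) (v : Fin r → ℝ) :
    ∑ a, ∑ b, v a * M a b * v b = v ⬝ᵥ (toR M *ᵥ v) := by
  simp only [dotProduct, mulVec, toR, Matrix.map_apply, Finset.mul_sum, mul_assoc]

theorem bil_nonneg {M : Matrix (Fin g) (Fin g) ℤ} (hM : IsPol M) (x : Fin g → ℝ) :
    0 ≤ bil M x x := by
  have h := (posDef_real M hM).posSemidef.dotProduct_mulVec_nonneg x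
  simpa [bil, toR] using h

theorem bil_comm {M : Matrix (Fin g) (Fin g) ℤ} (hM : IsPol M) (x y : Fin g → ℝ) :
    bil M x y = bil M y x := by
  unfold bil
  rw [Matrix.dotProduct_mulVec, ← Matrix.mulVec_transpose, ← toR_transpose, hM.1.eq,
    dotProduct_comm]

theorem bil_le {M : Matrix (Fin g) (Fin g) ℤ} (hM : IsPol M) (x y : Fin g → ℝ) :
    2 * bil M x y ≤ bil M x x + bil M y y := by
  have h := bil_nonneg hM (x - y)
  have h2 : bil M (x - y) (x - y) = bil M x x - bil M x y - bil M y x + bil M y y := by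
    simp only [bil, mulVec_sub, dotProduct_sub, sub_dotProduct]
    ring
  rw [h2, bil_comm hM y x] at h
  linarith

theorem bil_sub_le {M : Matrix (Fin g) (Fin g) ℤ} (hM : IsPol M) (x y : Fin g → ℝ) :
    bil M (x - y) (x - y) ≤ 2 * bil M x x + 2 * bil M y y := by
  have h := bil_nonneg hM (x + y)
  have h1 : bil M (x + y) (x + y) = bil M x x + bil M x y + bil M y x + bil M y y := by
    simp only [bil, mulVec_add, dotProduct_add, add_dotProduct]
    ring
  have h2 : bil M (x - y) (x - y) = bil M x x - bil M x y - bil M y x + bil M y y := by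
    simp only [bil, mulVec_sub, dotProduct_sub, sub_dotProduct]
    ring
  linarith

theorem bil_sum_le {M : Matrix (Fin g) (Fin g) ℤ} (hM : IsPol M) {ι : Type*} [Fintype ι]
    (x : ι → Fin g → ℝ) :
    bil M (∑ i, x i) (∑ i, x i) ≤ Fintype.card ι * ∑ i, bil M (x i) (x i) := by
  have h1 : bil M (∑ i, x i) (∑ i, x i) = ∑ i, ∑ j, bil M (x i) (x j) := by
    unfold bil
    rw [sum_dotProduct]
    refine Finset.sum_congr rfl fun i _ => ?_
    rw [mulVec_sum, dotProduct_sum]
  rw [h1]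
  calc ∑ i, ∑ j, bil M (x i) (x j)
      ≤ ∑ i, ∑ j, (bil M (x i) (x i) / 2 + bil M (x j) (x j) / 2) := by
        refine Finset.sum_le_sum fun i _ => Finset.sum_le_sum fun j _ => ?_
        linarith [bil_le hM (x i) (x j)]
    _ = Fintype.card ι * ∑ i, bil M (x i) (x i) := by
        simp only [Finset.sum_add_distrib, Finset.sum_const, Finset.card_univ, nsmul_eq_mul,
          ← Finset.sum_div, ← Finset.mul_sum]
        ring

end UNm

open UNm

theorem UN_saturated {G : Type} [Group G] [Finite G] {g : ℕ}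
    (ρ : G →* Matrix.GeneralLinearGroup (Fin g) ℤ) (N : Subgroup G) :
    Saturated (UN ρ N) := by
  intro n v hn hv
  rw [mem_UN] at hv ⊢
  rw [Matrix.smul_vecMul] at hv
  exact (smul_eq_zero.1 hv).resolve_left hn

theorem UN_stable {G : Type} [Group G] [Finite G] {g : ℕ}
    (ρ : G →* Matrix.GeneralLinearGroup (Fin g) ℤ) (N : Subgroup G) [N.Normal] (σ : G)
    (ℓ : Fin g → ℤ) (hℓ : ℓ ∈ UN ρ N) : actL ρ σ ℓ ∈ UN ρ N := by
  rw [mem_UN] at hℓ ⊢
  rw [actL, Matrix.vecMul_vecMul, conj_S, ← Matrix.vecMul_vecMul, hℓ, Matrix.zero_vecMul]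

theorem sum_actL_of_mem_UN {G : Type} [Group G] [Finite G] {g : ℕ}
    (ρ : G →* Matrix.GeneralLinearGroup (Fin g) ℤ) (N : Subgroup G) (ℓ : Fin g → ℤ)
    (hℓ : ℓ ∈ UN ρ N) : ∑ᶠ n : N, actL ρ (n : G) ℓ = 0 := by
  have := Fintype.ofFinite N
  rw [mem_UN, S, finsum_eq_sum_of_fintype] at hℓ
  rw [finsum_eq_sum_of_fintype]
  unfold actL
  have h1 : ∑ n : N, Matrix.vecMul ℓ (ρ (n : G)⁻¹).val = ∑ n : N, Matrix.vecMul ℓ (ρ (n : G)).val :=
    Fintype.sum_equiv (Equiv.inv N) _ _ fun n => rfl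
  rw [h1]
  rw [← hℓ]
  ext a
  simp only [Matrix.vecMul, dotProduct, Finset.sum_apply, Matrix.sum_apply, Finset.mul_sum]
  rw [Finset.sum_comm]

theorem UN_short {G : Type} [Group G] [Finite G] {g : ℕ}
    (ρ : G →* Matrix.GeneralLinearGroup (Fin g) ℤ) (hρ : Function.Injective ρ)
    (M : Matrix (Fin g) (Fin g) ℤ) (hM : IsPol M)
    (hinv : ∀ σ, (ρ σ).val.transpose * M * (ρ σ).val = M) (N : Subgroup G) (hN : N ≠ ⊥) :
    ∃ ℓ ∈ UN ρ N, ℓ ≠ 0 ∧ Sh M (4 * g * (Nat.card G) ^ 2) ℓ := by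
  classical
  have := Fintype.ofFinite N
  set S := UNm.S ρ N with hS
  set V : Submodule ℤ (Fin g → ℤ) := LinearMap.ker (Matrix.mulVecLin S) with hV
  have memV : ∀ v, v ∈ V ↔ Matrix.mulVec S v = 0 := by
    intro v; rw [hV, LinearMap.mem_ker, Matrix.mulVecLin_apply]
  -- `V` is not zero
  have hVne : Nontrivial V := by
    obtain ⟨n₀, hn₀, hne⟩ : ∃ n₀ ∈ N, n₀ ≠ 1 := by
      by_contra hcon
      push Not at hcon
      exact hN (by rw [Subgroup.eq_bot_iff_forall]; exact hcon)
    have h1 : (ρ n₀).val ≠ 1 := by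
      intro h
      apply hne
      apply hρ
      rw [map_one]
      exact Units.ext h
    obtain ⟨v, hv⟩ : ∃ v : Fin g → ℤ, Matrix.mulVec (ρ n₀).val v ≠ v := by
      by_contra hcon
      push Not at hcon
      apply h1
      apply Matrix.ext_of_mulVec_single
      intro i
      rw [hcon, Matrix.one_mulVec]
    refine ⟨⟨⟨Matrix.mulVec (ρ n₀).val v - v, ?_⟩, 0, ?_⟩⟩
    · rw [memV, Matrix.mulVec_sub, Matrix.mulVec_mulVec, hS, UNm.S_mul ρ N ⟨n₀, hn₀⟩, sub_self]
    · intro h
      exact hv (sub_eq_zero.1 (congrArg Subtype.val h))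
  set r := Module.finrank ℤ V with hr
  have hr1 : 1 ≤ r := Module.finrank_pos
  have hrg : r ≤ g := by
    have h := Submodule.finrank_le V
    simpa using h
  set b : Module.Basis (Fin r) ℤ V := Module.finBasis ℤ V with hb
  set B : Matrix (Fin g) (Fin r) ℤ := Matrix.of fun a i => (b i : Fin g → ℤ) a with hB
  have hBu : ∀ u : Fin r → ℤ, Matrix.mulVec B u = ((∑ i, u i • b i : V) : Fin g → ℤ) := by
    intro u
    ext a
    simp [hB, Matrix.mulVec, dotProduct, mul_comm]
  have hBinj : ∀ u : Fin r → ℤ, Matrix.mulVec B u = 0 → u = 0 := by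
    intro u hu
    rw [hBu] at hu
    have h2 : ∑ i, u i • b i = 0 := Subtype.ext hu
    exact funext (Fintype.linearIndependent_iff.1 b.linearIndependent u h2)
  have hBmul : ∀ {m : ℕ} (X : Matrix (Fin r) (Fin m) ℤ), B * X = 0 → X = 0 := by
    intro m X hX
    ext i j
    have h1 : Matrix.mulVec B (fun i => X i j) = 0 := by
      ext a
      have := congrFun (congrFun hX a) j
      simpa [Matrix.mul_apply, Matrix.mulVec, dotProduct] using this
    exact congrFun (hBinj _ h1) i
  set n : ℤ := (Nat.card N : ℤ) with hn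
  have hn0 : n ≠ 0 := by
    rw [hn]; exact_mod_cast Nat.card_pos.ne'
  set D : Matrix (Fin g) (Fin g) ℤ := n • (1 : Matrix (Fin g) (Fin g) ℤ) - S with hD
  have hSS : S * S = n • S := UNm.S_sq ρ N
  have hSD : S * D = 0 := by
    rw [hD, Matrix.mul_sub, hSS, Matrix.mul_smul, Matrix.mul_one, sub_self]
  have hDS : D * S = 0 := by
    rw [hD, Matrix.sub_mul, hSS, Matrix.smul_mul, Matrix.one_mul, sub_self]
  have hDV : ∀ a, Matrix.mulVec D (Pi.single a 1) ∈ V := by
    intro a
    rw [memV, Matrix.mulVec_mulVec, hSD, Matrix.zero_mulVec]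
  set c : Matrix (Fin r) (Fin g) ℤ :=
    Matrix.of fun i a => b.repr ⟨Matrix.mulVec D (Pi.single a 1), hDV a⟩ i with hc
  have hBc : B * c = D := by
    ext a' a
    have h1 := hBu (fun i => c i a)
    have h2 : (∑ i, c i a • b i : V) = ⟨Matrix.mulVec D (Pi.single a 1), hDV a⟩ := by
      simp only [hc, Matrix.of_apply]
      exact b.sum_repr _
    rw [h2] at h1
    have h3 := congrFun h1 a'
    simpa [Matrix.mul_apply, Matrix.mulVec, dotProduct, Pi.single_apply] using h3
  have hcS : c * S = 0 := by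
    apply hBmul
    rw [← Matrix.mul_assoc, hBc, hDS]
  have hSB : S * B = 0 := by
    ext a i
    have h1 := (memV _).1 (b i).2
    have h2 := congrFun h1 a
    simpa [Matrix.mul_apply, Matrix.mulVec, dotProduct, hB] using h2
  have hcB : c * B = n • (1 : Matrix (Fin r) (Fin r) ℤ) := by
    rw [← sub_eq_zero]
    apply hBmul
    rw [Matrix.mul_sub, ← Matrix.mul_assoc, hBc, hD, Matrix.sub_mul, hSB, Matrix.smul_mul,
      Matrix.one_mul, Matrix.mul_smul, Matrix.mul_one, sub_zero, sub_self]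
  set A : Matrix (Fin r) (Fin r) ℤ := B.transpose * M * B with hA
  have hAt : ∀ v : Fin r → ℤ, v ⬝ᵥ Matrix.mulVec A v =
      Matrix.mulVec B v ⬝ᵥ Matrix.mulVec M (Matrix.mulVec B v) := by
    intro v
    rw [hA, ← Matrix.mulVec_mulVec, ← Matrix.mulVec_mulVec, Matrix.dotProduct_mulVec,
      Matrix.vecMul_transpose]
  have hApol : IsPol A := by
    constructor
    · rw [Matrix.IsSymm, hA, Matrix.transpose_mul, Matrix.transpose_mul, Matrix.transpose_transpose,
        hM.1.eq, Matrix.mul_assoc]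
    · intro v hv
      rw [hAt]
      exact hM.2 _ fun h => hv (hBinj v h)
  obtain ⟨κ, hκ0, hκ⟩ := minkA hr1 A hApol
  refine ⟨Matrix.vecMul κ c, ?_, ?_, ?_⟩
  · rw [UNm.mem_UN, ← hS, Matrix.vecMul_vecMul, hcS, Matrix.vecMul_zero]
  · intro h
    have h1 : Matrix.vecMul (Matrix.vecMul κ c) B = n • κ := by
      rw [Matrix.vecMul_vecMul, hcB, Matrix.vecMul_smul, Matrix.vecMul_one]
    rw [h, Matrix.zero_vecMul] at h1
    exact hκ0 ((smul_eq_zero.1 h1.symm).resolve_left hn0)
  · intro w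
    set u : Fin r → ℝ := Matrix.mulVec (toR c) w with hu
    have h1 : ∑ a, ((Matrix.vecMul κ c a : ℤ) : ℝ) * w a = ∑ i, (κ i : ℝ) * u i := by
      simp only [hu, Matrix.vecMul, Matrix.mulVec, dotProduct, toR, Matrix.map_apply,
        Finset.mul_sum, Int.cast_sum, Int.cast_mul, Finset.sum_mul]
      rw [Finset.sum_comm]
      refine Finset.sum_congr rfl fun i _ => Finset.sum_congr rfl fun a _ => by ring
    rw [h1]
    have h2 := hκ u
    have h3 : ∑ i, ∑ j, u i * A i j * u j = bil M (Matrix.mulVec (toR D) w)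
        (Matrix.mulVec (toR D) w) := by
      rw [quad_eq, hA, toR_mul, toR_mul, toR_transpose, ← Matrix.mulVec_mulVec,
        ← Matrix.mulVec_mulVec, Matrix.dotProduct_mulVec, Matrix.vecMul_transpose, hu,
        Matrix.mulVec_mulVec, ← toR_mul, hBc]
      rfl
    rw [h3] at h2
    have hw0 := bil_nonneg hM w
    have hfix : ∀ σ : G, bil M (Matrix.mulVec (toR (ρ σ).val) w)
        (Matrix.mulVec (toR (ρ σ).val) w) = bil M w w := by
      intro σ
      have h4 : ∀ X : Matrix (Fin g) (Fin g) ℝ,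
          (Matrix.mulVec X w) ⬝ᵥ (Matrix.mulVec (toR M) (Matrix.mulVec X w)) =
            w ⬝ᵥ (Matrix.mulVec (X.transpose * toR M * X) w) := by
        intro X
        rw [← Matrix.mulVec_mulVec, ← Matrix.mulVec_mulVec, Matrix.dotProduct_mulVec w,
          Matrix.vecMul_transpose]
      unfold bil
      rw [h4, ← toR_transpose, ← toR_mul, ← toR_mul, hinv]
    have hcard : (Fintype.card N : ℝ) = (n : ℝ) := by
      rw [hn, Nat.card_eq_fintype_card]; push_cast; rfl
    have hSw : bil M (Matrix.mulVec (toR S) w) (Matrix.mulVec (toR S) w) ≤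
        (n : ℝ) * ((n : ℝ) * bil M w w) := by
      have e : Matrix.mulVec (toR S) w = ∑ m : N, Matrix.mulVec (toR (ρ (m : G)).val) w := by
        rw [hS, UNm.S, finsum_eq_sum_of_fintype, ← Matrix.sum_mulVec]
        congr 1
        ext i j
        simp [toR, Matrix.sum_apply]
      rw [e]
      refine (bil_sum_le hM _).trans ?_
      simp only [hfix, Finset.sum_const, Finset.card_univ, nsmul_eq_mul, hcard]
      exact le_rfl
    have hDw : bil M (Matrix.mulVec (toR D) w) (Matrix.mulVec (toR D) w) ≤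
        4 * (n : ℝ) ^ 2 * bil M w w := by
      have e : Matrix.mulVec (toR D) w = (n : ℝ) • w - Matrix.mulVec (toR S) w := by
        have : toR D = (n : ℝ) • (1 : Matrix (Fin g) (Fin g) ℝ) - toR S := by
          ext i j
          simp only [toR, hD, Matrix.map_apply, Matrix.sub_apply, Matrix.smul_apply, smul_eq_mul,
            Int.cast_sub, Int.cast_mul, Matrix.one_apply]
          split_ifs <;> simp
        rw [this, Matrix.sub_mulVec, Matrix.smul_mulVec, Matrix.one_mulVec]
      rw [e]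
      have h4 : bil M ((n : ℝ) • w) ((n : ℝ) • w) = (n : ℝ) ^ 2 * bil M w w := by
        unfold bil
        rw [Matrix.mulVec_smul, dotProduct_smul, smul_dotProduct]
        simp only [smul_eq_mul]; ring
      have h5 := bil_sub_le hM ((n : ℝ) • w) (Matrix.mulVec (toR S) w)
      rw [h4] at h5
      nlinarith
    have hq : ∑ a, ∑ b, w a * M a b * w b = bil M w w := by rw [quad_eq]; rfl
    rw [hq]
    have hnG : (n : ℝ) ≤ (Nat.card G : ℝ) := by
      rw [hn]; exact_mod_cast Subgroup.card_le_card_group N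
    have hnpos : (0 : ℝ) ≤ n := by rw [hn]; positivity
    have hrg' : (r : ℝ) ≤ g := by exact_mod_cast hrg
    calc (∑ i, (κ i : ℝ) * u i) ^ 2
        ≤ r * bil M (Matrix.mulVec (toR D) w) (Matrix.mulVec (toR D) w) := h2
      _ ≤ r * (4 * (n : ℝ) ^ 2 * bil M w w) := by
          apply mul_le_mul_of_nonneg_left hDw (by positivity)
      _ ≤ g * (4 * (Nat.card G : ℝ) ^ 2 * bil M w w) := by
          apply mul_le_mul hrg' _ (by positivity) (by positivity)
          apply mul_le_mul_of_nonneg_right _ hw0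
          have := pow_le_pow_left₀ hnpos hnG 2
          linarith
      _ = 4 * g * (Nat.card G : ℝ) ^ 2 * bil M w w := by ring

end LangForms
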