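import Pool.Agent.Lib_MP_f5471b_nt.Core
import Pool.Agent.Lib_MP_f5471b_nt.UNorm
import Pool.Agent.Lib_MP_f5471b_nt.MinkA
import Pool.Agent.Lib_MP_f5471b_nt.ShLem
import Pool.Agent.Lib_MP_f5471b_nt.PhiAct
import Pool.Agent.Lib_MP_f5471b_nt.Deg

namespace LangForms

namespace Key

theorem Phi_finsum {X : Type} [AddCommGroup X] {g : ℕ} (P : Fin g → X) {ι : Type} [Fintype ι]
    (f : ι → Fin g → ℤ) : Phi P (∑ i, f i) = ∑ i, Phi P (f i) := by
  classical
  have h : ∀ s : Finset ι, Phi P (∑ i ∈ s, f i) = ∑ i ∈ s, Phi P (f i) := by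
    intro s
    induction s using Finset.induction with
    | empty => simp [Phi]
    | insert a s ha ih => rw [Finset.sum_insert ha, Finset.sum_insert ha, Phi_add, ih]
  exact h _

end Key

theorem key2 (g D : ℕ) (hg : 1 ≤ g) : ∃ C : ℝ, 0 < C ∧ ∀ (G : Type) [Group G] [Finite G],
    Nat.card G ≤ D → ∀ (X : Type) [AddCommGroup X] (act : G → X →+ X)
    (ρ : G →* Matrix.GeneralLinearGroup (Fin g) ℤ)
    (M : Matrix (Fin g) (Fin g) ℤ), IsPol M →
    (∀ σ, (ρ σ).val.transpose * M * (ρ σ).val = M) → ∀ (P : Fin g → X),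
    (∀ σ a, ∑ b, (ρ σ).val a b • act σ (P b) = P a) → ∀ t : ℕ, 1 ≤ t →
    Obstructed ρ M P (C * t) ∨ ∃ ℓ : Fin g → ℤ, Sh M C ℓ ∧ t • Phi P ℓ ≠ 0 := by
  obtain ⟨C, hC, h⟩ := core g D hg g
  refine ⟨max C g, lt_of_lt_of_le hC (le_max_left _ _), ?_⟩
  intro G _ _ hG X _ act ρ M hM hinv P hP t ht
  obtain ⟨κ, hκ0, hκ⟩ := minkA hg M hM
  obtain ⟨ℓ, _, hℓ0, hℓ, hob⟩ := h G hG X act ρ M hM hinv P hP ⊤ (fun _ _ _ _ => trivial)
    (fun _ _ _ => trivial) ⟨κ, trivial, hκ0, hκ⟩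
  by_cases h0 : t • Phi P ℓ = 0
  · left
    obtain ⟨Λ, h1, h2, h3, h4, n, hn1, hn2, hn3⟩ := hob t ht h0
    have ht0 : (0 : ℝ) ≤ t := Nat.cast_nonneg _
    have hle : C * t ≤ max C g * t := mul_le_mul_of_nonneg_right (le_max_left _ _) ht0
    have hpos : (0 : ℝ) < degB M ⊤ := by exact_mod_cast degB_top_pos M hM
    exact ⟨Λ, h1, h2, h3, h4.trans (mul_le_mul_of_nonneg_right hle hpos.le), n, hn1,
      hn2.trans hle, hn3⟩
  · right
    exact ⟨ℓ, Sh_mono M hM (le_max_right _ _) ℓ hℓ, h0⟩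

theorem key1 (g D : ℕ) (hg : 1 ≤ g) : ∃ C : ℝ, 0 < C ∧ ∀ (G : Type) [Group G] [Finite G],
    Nat.card G ≤ D → ∀ (X : Type) [AddCommGroup X] (act : G → X →+ X)
    (ρ : G →* Matrix.GeneralLinearGroup (Fin g) ℤ), Function.Injective ρ →
    ∀ (M : Matrix (Fin g) (Fin g) ℤ), IsPol M →
    (∀ σ, (ρ σ).val.transpose * M * (ρ σ).val = M) → ∀ (P : Fin g → X),
    (∀ σ a, ∑ b, (ρ σ).val a b • act σ (P b) = P a) → ∀ H : Subgroup G, H ≠ ⊥ →
    Obstructed ρ M P C ∨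
      ∃ σ ∈ H, ∃ ℓ : Fin g → ℤ, Sh M C ℓ ∧ act σ (Phi P ℓ) ≠ Phi P ℓ := by
  classical
  obtain ⟨C, hC, h⟩ := core g D hg (4 * g * (D : ℝ) ^ 2)
  have hDnn : (0 : ℝ) ≤ D := Nat.cast_nonneg _
  refine ⟨max (C * (max D 1 : ℕ)) (4 * g * (D : ℝ) ^ 2),
    lt_of_lt_of_le (by positivity) (le_max_left _ _), ?_⟩
  intro G _ _ hG X _ act ρ hρ M hM hinv P hP H hH
  obtain ⟨N, hN⟩ : ∃ N : Subgroup G, N = Subgroup.normalClosure (H : Set G) := ⟨_, rfl⟩
  have hNn : N.Normal := by rw [hN]; exact Subgroup.normalClosure_normal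
  have hHN : H ≤ N := by
    intro x hx; rw [hN]; exact Subgroup.subset_normalClosure hx
  have hNbot : N ≠ ⊥ := fun h0 => hH (le_bot_iff.1 (h0 ▸ hHN))
  have hcard : (Nat.card G : ℝ) ≤ D := by exact_mod_cast hG
  obtain ⟨κ, hκU, hκ0, hκ⟩ := UN_short ρ hρ M hM hinv N hNbot
  have hκ' : Sh M (4 * g * (D : ℝ) ^ 2) κ := by
    refine Sh_mono M hM ?_ κ hκ
    gcongr
  obtain ⟨ℓ, hℓU, hℓ0, hℓ, hob⟩ := h G hG X act ρ M hM hinv P hP (UN ρ N) (UN_saturated ρ N)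
    (fun σ ℓ hℓ => UN_stable ρ N σ ℓ hℓ) ⟨κ, hκU, hκ0, hκ'⟩
  have hpos : (0 : ℝ) < degB M ⊤ := by exact_mod_cast degB_top_pos M hM
  have hNfin : Finite N := inferInstance
  have hNpos : 1 ≤ Nat.card N := Nat.card_pos
  have hNG : Nat.card N ≤ Nat.card G := Subgroup.card_le_card_group N
  by_cases h0 : Nat.card N • Phi P ℓ = 0
  · left
    obtain ⟨Λ, h1, h2, h3, h4, n, hn1, hn2, hn3⟩ := hob (Nat.card N) hNpos h0
    have hle : C * (Nat.card N : ℕ) ≤ max (C * (max D 1 : ℕ)) (4 * g * (D : ℝ) ^ 2) := by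
      refine le_trans ?_ (le_max_left _ _)
      refine mul_le_mul_of_nonneg_left ?_ hC.le
      exact_mod_cast (hNG.trans hG).trans (le_max_left _ _)
    exact ⟨Λ, h1, h2, h3, h4.trans (mul_le_mul_of_nonneg_right hle hpos.le), n, hn1,
      hn2.trans hle, hn3⟩
  · right
    by_contra hcon
    push Not at hcon
    have hfix : ∀ σ ∈ H, ∀ τ : G, Phi P (actL ρ (σ * τ) ℓ) = Phi P (actL ρ τ ℓ) := by
      intro σ hσ τ
      rw [actL_mul, ← Phi_act act ρ P hP]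
      exact hcon σ hσ _ (Sh_mono M hM (le_max_right _ _) _ (Sh_act ρ M hinv _ ℓ hℓ τ))
    -- the subgroup of elements fixing all values
    let S : Subgroup G :=
      { carrier := {n | ∀ τ : G, Phi P (actL ρ (n * τ) ℓ) = Phi P (actL ρ τ ℓ)}
        mul_mem' := by
          intro a b ha hb τ
          rw [mul_assoc, ha, hb]
        one_mem' := by intro τ; rw [one_mul]
        inv_mem' := by
          intro a ha τ
          have := ha (a⁻¹ * τ)
          rw [← mul_assoc, mul_inv_cancel, one_mul] at this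
          exact this.symm }
    have hSn : S.Normal := by
      constructor
      intro n hn γ τ
      have h1 := hn (γ⁻¹ * τ)
      have h2 : γ * n * γ⁻¹ * τ = γ * (n * (γ⁻¹ * τ)) := by group
      rw [h2, actL_mul, ← Phi_act act ρ P hP, h1, Phi_act act ρ P hP, ← actL_mul]
      congr 2
      group
    have hNS : N ≤ S := by
      rw [hN]
      exact Subgroup.normalClosure_le_normal (fun x hx => hfix x hx)
    apply h0
    have hsum := sum_actL_of_mem_UN ρ N ℓ hℓU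
    have := Fintype.ofFinite N
    rw [finsum_eq_sum_of_fintype] at hsum
    have h5 : Phi P (∑ n : N, actL ρ (n : G) ℓ) = 0 := by rw [hsum]; simp [Phi]
    rw [Key.Phi_finsum] at h5
    have h6 : ∀ n : N, Phi P (actL ρ (n : G) ℓ) = Phi P ℓ := by
      intro n
      have := hNS n.2 1
      rwa [mul_one, actL_one] at this
    rw [Finset.sum_congr rfl (fun n _ => h6 n), Finset.sum_const, Finset.card_univ,
      ← Nat.card_eq_fintype_card] at h5
    exact h5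

end LangForms
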